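import Pool.Agent.Lib.MP_9277c3_lc.NC.ExecT

/-!
# Arithmetic on binary numbers in time polynomial in the length

The numbers are in registers; the instructions are the division by two, and the multiplication by
two with the addition of a bit. The arithmetic operations are procedures which call themselves for
the numbers without their last bits.
-/

namespace Pool.Agent.Lib.MP_9277c3_lc.NC

open CM

/-- Instructions for binary numbers. -/
inductive BPrim (ι : Type) : Type
  | half (i : ι) : BPrim ι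
  | dbl (b : Bool) (i : ι) : BPrim ι
  | go (m : Move) : BPrim ι
  | adv : BPrim ι

/-- Tests for binary numbers. -/
inductive BTest (α ι : Type) : Type
  | odd (i : ι) : BTest α ι
  | nz (i : ι) : BTest α ι
  | cell (p : Cell α → Prop) : BTest α ι
  | coin : BTest α ι

/-- The semantics of programs with binary numbers below `W`. -/
noncomputable def bsem {α ι : Type} (x : List α) (W : ℕ) :
    Sem (BPrim ι) (BTest α ι) ((ι → ℕ) × ℕ × (ℕ → Bool)) where
  act p s := match p with
    | BPrim.half i => (upd s.1 i (s.1 i / 2), s.2)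
    | BPrim.dbl b i => (upd s.1 i (2 * s.1 i + b.toNat), s.2)
    | BPrim.go mv => (s.1, mv.apply x.length s.2.1, s.2.2)
    | BPrim.adv => (s.1, s.2.1, shift s.2.2)
  pre p s := match p with
    | BPrim.dbl b i => 2 * s.1 i + b.toNat < W
    | _ => True
  test t s := match t with
    | BTest.odd i => s.1 i % 2 = 1
    | BTest.nz i => s.1 i ≠ 0
    | BTest.cell p => p (cell x s.2.1)
    | BTest.coin => s.2.2 0 = true

/-- Programs with binary numbers. -/
abbrev BStmt (α ι F : Type) : Type := Stmt (BPrim ι) (BTest α ι) F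

/-- The procedures for arithmetic. -/
inductive AP (ι : Type) : Type
  | mov (i j : ι) : AP ι
  | cpy (i j : ι) : AP ι
  | add (c : Bool) (i j : ι) : AP ι
  | sub (c : Bool) (i j e : ι) : AP ι
  | dec (i : ι) : AP ι
  | mul (y x z w : ι) : AP ι
  | dm (x y q r v w e : ι) : AP ι

section

variable {α ι F : Type}

/-- The procedures, as tuples. -/
def AP.code : AP ι → Fin 7 × Bool × Option ι × Option ι × Option ι × Option ι × Option ι ×
    Option ι × Option ι
  | AP.mov i j => (0, false, some i, some j, none, none, none, none, none)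
  | AP.cpy i j => (1, false, some i, some j, none, none, none, none, none)
  | AP.add c i j => (2, c, some i, some j, none, none, none, none, none)
  | AP.sub c i j e => (3, c, some i, some j, some e, none, none, none, none)
  | AP.dec i => (4, false, some i, none, none, none, none, none, none)
  | AP.mul y x z w => (5, false, some y, some x, some z, some w, none, none, none)
  | AP.dm x y q r v w e => (6, false, some x, some y, some q, some r, some v, some w, some e)

theorem AP.code_injective : Function.Injective (AP.code (ι := ι)) := by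
  intro a b h
  cases a <;> cases b <;> simp_all [AP.code]

instance [Finite ι] : Finite (AP ι) := Finite.of_injective _ AP.code_injective

/-- A list of programs. -/
def sqB {P T F : Type} : List (Stmt P T F) → Stmt P T F
  | [] => Stmt.skip
  | b :: l => Stmt.seq b (sqB l)

abbrev bhalf (i : ι) : BStmt α ι F := Stmt.prim (BPrim.half i)
abbrev bdbl (b : Bool) (i : ι) : BStmt α ι F := Stmt.prim (BPrim.dbl b i)

/-- A program which depends on the last bit. -/
def ob (i : ι) (f : Bool → BStmt α ι F) : BStmt α ι F := Stmt.ite (BTest.odd i) (f true) (f false)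

/-- A program which depends on whether both numbers are zero. -/
def nz2 (i j : ι) (a b : BStmt α ι F) : BStmt α ι F :=
  Stmt.ite (BTest.nz i) a (Stmt.ite (BTest.nz j) a b)

/-- `i := 0`. -/
def clr (i : ι) : BStmt α ι F := Stmt.loop (BTest.nz i) (bhalf i)

/-- The carry. -/
def maj (a b c : Bool) : Bool := (a && b) || (a && c) || (b && c)

/-- The borrow, for the difference `b - a - c`. -/
def brw (a b c : Bool) : Bool := (a && c) || (a && !b) || (c && !b)

/-- The call of a procedure for arithmetic. -/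
abbrev cal (p : AP ι) : BStmt α ι (F ⊕ AP ι) := Stmt.call (Sum.inr p)

/-- The bodies of the procedures for arithmetic. -/
def apb : AP ι → BStmt α ι (F ⊕ AP ι)
  | AP.mov i j => Stmt.ite (BTest.nz i) (ob i fun b => sqB [bhalf i, cal (AP.mov i j), bdbl b j])
      Stmt.skip
  | AP.cpy i j => Stmt.ite (BTest.nz i)
      (ob i fun b => sqB [bhalf i, cal (AP.cpy i j), bdbl b j, bdbl b i]) Stmt.skip
  | AP.add c i j => nz2 i j (ob i fun a => ob j fun b =>
      sqB [bhalf i, bhalf j, cal (AP.add (maj a b c) i j), bdbl (a ^^ (b ^^ c)) j]) (bdbl c j)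
  | AP.sub c i j e => nz2 i j (ob i fun a => ob j fun b =>
      sqB [bhalf i, bhalf j, cal (AP.sub (brw a b c) i j e),
        Stmt.ite (BTest.nz e) Stmt.skip (bdbl (a ^^ (b ^^ c)) j)]) (bdbl c e)
  | AP.dec i => Stmt.ite (BTest.nz i) (Stmt.ite (BTest.odd i) (sqB [bhalf i, bdbl false i])
      (sqB [bhalf i, cal (AP.dec i), bdbl true i])) Stmt.skip
  | AP.mul y x z w => Stmt.ite (BTest.nz y) (ob y fun b => sqB [bhalf y, cal (AP.mul y x z w),
      bdbl false z, if b then sqB [cal (AP.cpy x w), cal (AP.add false w z)] else Stmt.skip])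
      Stmt.skip
  | AP.dm x y q r v w e => Stmt.ite (BTest.nz x) (ob x fun b => sqB [bhalf x,
      cal (AP.dm x y q r v w e), bdbl b r, cal (AP.cpy r v), cal (AP.cpy y w),
      cal (AP.sub false w v e), Stmt.ite (BTest.nz e) (sqB [bhalf e, bdbl false q])
        (sqB [clr r, cal (AP.mov v r), bdbl true q])]) Stmt.skip

/-- Executions which change only the registers. -/
def Pc (x : List α) (W : ℕ) (body : F ⊕ AP ι → BStmt α ι (F ⊕ AP ι)) (d n : ℕ)
    (a : BStmt α ι (F ⊕ AP ι)) (s t : ι → ℕ) : Prop :=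
  ∀ q : ℕ × (ℕ → Bool), ExecT (bsem x W) body d n a (s, q) (t, q)

variable {x : List α} {W : ℕ} {body : F ⊕ AP ι → BStmt α ι (F ⊕ AP ι)}

namespace Pc

theorem mono {d d' n n' : ℕ} (hd : d ≤ d') (hn : n ≤ n') {a : BStmt α ι (F ⊕ AP ι)} {s t : ι → ℕ}
    (h : Pc x W body d n a s t) : Pc x W body d' n' a s t := fun q => (h q).mono hd hn

theorem cast {d n : ℕ} {a : BStmt α ι (F ⊕ AP ι)} {s t t' : ι → ℕ}
    (h : Pc x W body d n a s t) (e : t = t') : Pc x W body d n a s t' := e ▸ h

theorem skip {d n : ℕ} {s : ι → ℕ} : Pc x W body d (n + 1) Stmt.skip s s :=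
  fun _ => ExecT.skip _ _ _

theorem nil {d n : ℕ} {s : ι → ℕ} : Pc x W body d (n + 1) (sqB []) s s :=
  fun _ => ExecT.skip _ _ _

theorem cons {d n m : ℕ} {b : BStmt α ι (F ⊕ AP ι)} {l : List (BStmt α ι (F ⊕ AP ι))}
    {s t r : ι → ℕ} (h₁ : Pc x W body d n b s t) (h₂ : Pc x W body (d + 1) m (sqB l) t r) :
    Pc x W body (d + 1) (n + m + 1) (sqB (b :: l)) s r :=
  fun q => ExecT.seq _ _ _ _ _ _ _ _ (h₁ q) (h₂ q)

theorem half {d n : ℕ} {i : ι} {s : ι → ℕ} :
    Pc x W body d (n + 1) (bhalf i) s (upd s i (s i / 2)) :=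
  fun q => ExecT.prim (M := bsem x W) _ _ (BPrim.half i) (s, q) trivial

theorem dbl {d n : ℕ} {b : Bool} {i : ι} {s : ι → ℕ} (h : 2 * s i + b.toNat < W) :
    Pc x W body d (n + 1) (bdbl b i) s (upd s i (2 * s i + b.toNat)) :=
  fun q => ExecT.prim (M := bsem x W) _ _ (BPrim.dbl b i) (s, q) h

theorem halfs {d m : ℕ} {i : ι} {l : List (BStmt α ι (F ⊕ AP ι))} {s r : ι → ℕ} (v : ℕ)
    (h : s i / 2 = v) (h₂ : Pc x W body (d + 1) m (sqB l) (upd s i v) r) :
    Pc x W body (d + 1) (m + 2) (sqB (bhalf i :: l)) s r := by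
  subst h
  exact (cons (n := 1) (half (n := 0)) h₂).mono le_rfl (by omega)

theorem dbls {d m : ℕ} {b : Bool} {i : ι} {l : List (BStmt α ι (F ⊕ AP ι))} {s r : ι → ℕ} (v : ℕ)
    (h : 2 * s i + b.toNat = v) (hW : v < W)
    (h₂ : Pc x W body (d + 1) m (sqB l) (upd s i v) r) :
    Pc x W body (d + 1) (m + 2) (sqB (bdbl b i :: l)) s r := by
  subst h
  exact (cons (n := 1) (dbl (n := 0) hW) h₂).mono le_rfl (by omega)

theorem nzT {d n : ℕ} {i : ι} {a b : BStmt α ι (F ⊕ AP ι)} {s t : ι → ℕ} (h : s i ≠ 0)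
    (h₁ : Pc x W body d n a s t) : Pc x W body d (n + 1) (Stmt.ite (BTest.nz i) a b) s t :=
  fun q => ExecT.iteT (M := bsem x W) _ _ (BTest.nz i) _ _ (s, q) _ h (h₁ q)

theorem nzF {d n : ℕ} {i : ι} {a b : BStmt α ι (F ⊕ AP ι)} {s t : ι → ℕ} (h : s i = 0)
    (h₁ : Pc x W body d n b s t) : Pc x W body d (n + 1) (Stmt.ite (BTest.nz i) a b) s t :=
  fun q => ExecT.iteF (M := bsem x W) _ _ (BTest.nz i) _ _ (s, q) _ (not_not.2 h) (h₁ q)

theorem oddT {d n : ℕ} {i : ι} {a b : BStmt α ι (F ⊕ AP ι)} {s t : ι → ℕ} (h : s i % 2 = 1)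
    (h₁ : Pc x W body d n a s t) : Pc x W body d (n + 1) (Stmt.ite (BTest.odd i) a b) s t :=
  fun q => ExecT.iteT (M := bsem x W) _ _ (BTest.odd i) _ _ (s, q) _ h (h₁ q)

theorem oddF {d n : ℕ} {i : ι} {a b : BStmt α ι (F ⊕ AP ι)} {s t : ι → ℕ} (h : ¬s i % 2 = 1)
    (h₁ : Pc x W body d n b s t) : Pc x W body d (n + 1) (Stmt.ite (BTest.odd i) a b) s t :=
  fun q => ExecT.iteF (M := bsem x W) _ _ (BTest.odd i) _ _ (s, q) _ h (h₁ q)

theorem ob {d n : ℕ} {i : ι} {f : Bool → BStmt α ι (F ⊕ AP ι)} {s t : ι → ℕ}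
    (h : ∀ b : Bool, b.toNat = s i % 2 → Pc x W body d n (f b) s t) :
    Pc x W body d (n + 1) (NC.ob i f) s t := by
  by_cases h1 : s i % 2 = 1
  · exact oddT h1 (h true (by rw [h1]; rfl))
  · exact oddF h1 (h false (by simp only [Bool.toNat_false]; omega))

theorem nz2T {d n : ℕ} {i j : ι} {a b : BStmt α ι (F ⊕ AP ι)} {s t : ι → ℕ}
    (h : s i ≠ 0 ∨ s j ≠ 0) (h₁ : Pc x W body d n a s t) :
    Pc x W body d (n + 2) (nz2 i j a b) s t := by
  by_cases h2 : s i = 0
  · exact nzF h2 (nzT (by omega) h₁)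
  · exact (nzT h2 h₁).mono le_rfl (by omega)

theorem nz2F {d n : ℕ} {i j : ι} {a b : BStmt α ι (F ⊕ AP ι)} {s t : ι → ℕ}
    (h : s i = 0) (h' : s j = 0) (h₁ : Pc x W body d n b s t) :
    Pc x W body d (n + 2) (nz2 i j a b) s t := nzF h (nzF h' h₁)

theorem cal {d n : ℕ} {p : AP ι} (hb : body (Sum.inr p) = apb p) {s t : ι → ℕ}
    (h : Pc x W body d n (apb p) s t) : Pc x W body d (n + 1) (NC.cal p) s t :=
  fun q => ExecT.call _ _ _ _ _ (by rw [hb]; exact h q)

end Pc

theorem Bool.toNat_le_one' (b : Bool) : b.toNat ≤ 1 := by cases b <;> simp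

theorem maj_xor (a b c : Bool) :
    a.toNat + b.toNat + c.toNat = 2 * (maj a b c).toNat + (a ^^ (b ^^ c)).toNat := by
  cases a <;> cases b <;> cases c <;> rfl

theorem brw_xor (a b c : Bool) :
    2 * (brw a b c).toNat + b.toNat = a.toNat + c.toNat + (a ^^ (b ^^ c)).toNat := by
  cases a <;> cases b <;> cases c <;> rfl

/-- `i := 0`. -/
theorem pc_clr {i : ι} (ℓ : ℕ) : ∀ s : ι → ℕ, s i < 2 ^ ℓ →
    Pc x W body 1 (2 * ℓ + 1) (clr i) s (upd s i 0) := by
  induction ℓ with
  | zero =>
    intro s h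
    have h0 : s i = 0 := by simpa using h
    refine Pc.cast (t := s) (fun q => ExecT.loopF (M := bsem x W) _ _ (BTest.nz i) _ (s, q)
      (not_not.2 h0)) ?_
    rw [← h0, upd_eq_self]
  | succ ℓ ih =>
    intro s h
    by_cases h0 : s i = 0
    · refine Pc.mono le_rfl (by omega : 2 * ℓ + 1 ≤ _) (Pc.cast (t := s)
        (fun q => ExecT.loopF (M := bsem x W) _ _ (BTest.nz i) _ (s, q) (not_not.2 h0)) ?_)
      rw [← h0, upd_eq_self]
    · have h1 := ih (upd s i (s i / 2)) (by rw [upd_self]; rw [pow_succ] at h; omega)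
      rw [upd_upd] at h1
      intro q
      exact (ExecT.loopT (M := bsem x W) 0 1 _ (BTest.nz i) _ (s, q) _ _ h0
        (Pc.half (n := 0) q) (h1 q)).mono le_rfl (by omega)

variable (hb : ∀ p : AP ι, body (Sum.inr p) = apb p)
include hb

/-- `j := i`, `i := 0`, if `j = 0`. -/
theorem pc_mov {i j : ι} (hij : i ≠ j) (ℓ : ℕ) : ∀ s : ι → ℕ, s i < 2 ^ ℓ → s i < W → s j = 0 →
    Pc x W body ℓ (16 * ℓ + 16) (cal (AP.mov i j)) s (upd (upd s i 0) j (s i)) := by
  induction ℓ with
  | zero =>
    intro s h _ hj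
    have h0 : s i = 0 := by simpa using h
    refine (Pc.cal (hb _) (Pc.nzF h0 (Pc.skip (n := 13)))).cast ?_
    funext q
    by_cases h1 : q = j
    · rw [h1, upd_self, h0, hj]
    · rw [upd_ne h1]
      by_cases h2 : q = i
      · rw [h2, upd_self, h0]
      · rw [upd_ne h2]
  | succ ℓ ih =>
    intro s h hW hj
    by_cases h0 : s i = 0
    · refine Pc.mono (by omega) (by omega : 1 + 1 + 1 ≤ _) ((Pc.cal (hb _) (Pc.nzF h0 (Pc.skip
        (n := 0) (d := 0)))).cast ?_)
      funext q
      by_cases h1 : q = j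
      · rw [h1, upd_self, h0, hj]
      · rw [upd_ne h1]
        by_cases h2 : q = i
        · rw [h2, upd_self, h0]
        · rw [upd_ne h2]
    · refine Pc.mono le_rfl ?_ (Pc.cal (hb _) (Pc.nzT h0 (Pc.ob fun b hbi =>
        Pc.halfs (s i / 2) rfl (Pc.cons ((ih (upd s i (s i / 2)) ?_ ?_ ?_).cast
          (t' := upd (upd s i 0) j (s i / 2)) ?_) (Pc.dbls (s i) ?_ hW
            ((Pc.nil (n := 0)).cast ?_))))))
      · omega
      · rw [upd_self]; rw [pow_succ] at h; omega
      · rw [upd_self]; omega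
      · rw [upd_ne hij.symm]; exact hj
      · rw [upd_self, upd_upd]
      · rw [upd_self, hbi]; omega
      · rw [upd_upd]

/-- `j := i`, if `j = 0`. -/
theorem pc_cpy {i j : ι} (hij : i ≠ j) (ℓ : ℕ) : ∀ s : ι → ℕ, s i < 2 ^ ℓ → s i < W → s j = 0 →
    Pc x W body ℓ (16 * ℓ + 16) (cal (AP.cpy i j)) s (upd s j (s i)) := by
  induction ℓ with
  | zero =>
    intro s h _ hj
    have h0 : s i = 0 := by simpa using h
    refine (Pc.cal (hb _) (Pc.nzF h0 (Pc.skip (n := 13)))).cast ?_
    rw [h0, ← hj, upd_eq_self]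
  | succ ℓ ih =>
    intro s h hW hj
    by_cases h0 : s i = 0
    · refine Pc.mono (by omega) (by omega : 1 + 1 + 1 ≤ _) ((Pc.cal (hb _) (Pc.nzF h0 (Pc.skip
        (n := 0) (d := 0)))).cast ?_)
      rw [h0, ← hj, upd_eq_self]
    · refine Pc.mono le_rfl ?_ (Pc.cal (hb _) (Pc.nzT h0 (Pc.ob fun b hbi =>
        Pc.halfs (s i / 2) rfl (Pc.cons (ih (upd s i (s i / 2)) ?_ ?_ ?_)
          (Pc.dbls (s i) ?_ hW (Pc.dbls (s i) ?_ hW ((Pc.nil (n := 0)).cast ?_)))))))
      · omega
      · rw [upd_self]; rw [pow_succ] at h; omega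
      · rw [upd_self]; omega
      · rw [upd_ne hij.symm]; exact hj
      · rw [upd_self, upd_self, hbi]; omega
      · rw [upd_ne hij, upd_ne hij, upd_self, hbi]; omega
      · funext q
        by_cases h2 : q = i
        · rw [h2, upd_self, upd_ne hij]
        · rw [upd_ne h2]
          by_cases h1 : q = j
          · rw [h1, upd_self, upd_self]
          · rw [upd_ne h1, upd_ne h1, upd_ne h1, upd_ne h2]

/-- `j := i + j + c`, `i := 0`. -/
theorem pc_add {i j : ι} (hij : i ≠ j) (ℓ : ℕ) : ∀ (c : Bool) (s : ι → ℕ), s i < 2 ^ ℓ →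
    s j < 2 ^ ℓ → s i + s j + c.toNat < W →
    Pc x W body ℓ (16 * ℓ + 16) (cal (AP.add c i j)) s
      (upd (upd s i 0) j (s i + s j + c.toNat)) := by
  have base : ∀ (c : Bool) (s : ι → ℕ), s i = 0 → s j = 0 → s i + s j + c.toNat < W →
      Pc x W body 0 16 (cal (AP.add c i j)) s (upd (upd s i 0) j (s i + s j + c.toNat)) := by
    intro c s hi hj hW
    refine (Pc.cal (hb _) (Pc.nz2F hi hj (Pc.dbl (n := 12) ?_))).cast ?_
    · omega
    · funext q
      by_cases h1 : q = j
      · rw [h1, upd_self, upd_self, hi, hj]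
      · rw [upd_ne h1, upd_ne h1]
        by_cases h2 : q = i
        · rw [h2, upd_self, hi]
        · rw [upd_ne h2]
  induction ℓ with
  | zero =>
    intro c s hi hj hW
    exact base c s (by simpa using hi) (by simpa using hj) hW
  | succ ℓ ih =>
    intro c s hi hj hW
    by_cases h0 : s i ≠ 0 ∨ s j ≠ 0
    · refine Pc.mono le_rfl ?_ (Pc.cal (hb _) (Pc.nz2T h0 (Pc.ob fun a ha => Pc.ob fun b hb' =>
        Pc.halfs (s i / 2) rfl (Pc.halfs (s j / 2) ?_ (Pc.cons
          ((ih (maj a b c) (upd (upd s i (s i / 2)) j (s j / 2)) ?_ ?_ ?_).cast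
          (t' := upd (upd s i 0) j (s i / 2 + s j / 2 + (maj a b c).toNat)) ?_)
          (Pc.dbls (s i + s j + c.toNat) ?_ hW ((Pc.nil (n := 0)).cast ?_)))))))
      · omega
      · rw [upd_ne hij.symm]
      · rw [upd_ne hij, upd_self]; rw [pow_succ] at hi; omega
      · rw [upd_self]; rw [pow_succ] at hj; omega
      · rw [upd_ne hij, upd_self, upd_self]
        have := maj_xor a b c
        omega
      · rw [upd_ne hij, upd_self, upd_self]
        funext q
        by_cases h1 : q = j
        · rw [h1, upd_self, upd_self]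
        · rw [upd_ne h1, upd_ne h1]
          by_cases h2 : q = i
          · rw [h2, upd_self, upd_self]
          · rw [upd_ne h2, upd_ne h1, upd_ne h2, upd_ne h2]
      · rw [upd_self]
        have := maj_xor a b c
        omega
      · rw [upd_upd]
    · exact (base c s (by omega) (by omega) hW).mono (by omega) (by omega)

/-- `j := j - i - c`, `i := 0` if this is not negative; otherwise `j := 0`, `i := 0`, `e := 1`. -/
theorem pc_sub {i j e : ι} (hij : i ≠ j) (hie : i ≠ e) (hje : j ≠ e) (ℓ : ℕ) :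
    ∀ (c : Bool) (s : ι → ℕ), s i < 2 ^ ℓ → s j < 2 ^ ℓ → s j < W → 1 < W → s e = 0 →
    Pc x W body ℓ (16 * ℓ + 16) (cal (AP.sub c i j e)) s
      (upd (upd (upd s i 0) j (s j - (s i + c.toNat))) e (s i + c.toNat - s j |> min 1)) := by
  have base : ∀ (c : Bool) (s : ι → ℕ), s i = 0 → s j = 0 → 1 < W → s e = 0 →
      Pc x W body 0 16 (cal (AP.sub c i j e)) s
        (upd (upd (upd s i 0) j (s j - (s i + c.toNat))) e (s i + c.toNat - s j |> min 1)) := by
    intro c s hi hj hW he
    have hc := Bool.toNat_le_one' c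
    refine (Pc.cal (hb _) (Pc.nz2F hi hj (Pc.dbl (n := 12) ?_))).cast ?_
    · omega
    · funext q
      by_cases h3 : q = e
      · rw [h3, upd_self, upd_self, hi, hj, he]
        omega
      · rw [upd_ne h3, upd_ne h3]
        by_cases h1 : q = j
        · rw [h1, upd_self, hi, hj]
          omega
        · rw [upd_ne h1]
          by_cases h2 : q = i
          · rw [h2, upd_self, hi]
          · rw [upd_ne h2]
  induction ℓ with
  | zero =>
    intro c s hi hj _ hW he
    exact base c s (by simpa using hi) (by simpa using hj) hW he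
  | succ ℓ ih =>
    intro c s hi hj hjW hW he
    have hc := Bool.toNat_le_one' c
    by_cases h0 : s i ≠ 0 ∨ s j ≠ 0
    · refine Pc.mono le_rfl ?_ (Pc.cal (hb _) (Pc.nz2T h0 (Pc.ob fun a ha => Pc.ob fun b hb' =>
        Pc.halfs (s i / 2) rfl (Pc.halfs (s j / 2) ?_ (Pc.cons
          ((ih (brw a b c) (upd (upd s i (s i / 2)) j (s j / 2)) ?_ ?_ ?_ hW ?_).cast
          (t' := upd (upd (upd s i 0) j (s j / 2 - (s i / 2 + (brw a b c).toNat))) e
            (s i + c.toNat - s j |> min 1)) ?_)
          (Pc.cons (n := 2) (t := (upd (upd (upd s i 0) j (s j - (s i + c.toNat))) e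
            (s i + c.toNat - s j |> min 1))) ?_ (Pc.nil (n := 0))))))))
      · omega
      · rw [upd_ne hij.symm]
      · rw [upd_ne hij, upd_self]; rw [pow_succ] at hi; omega
      · rw [upd_self]; rw [pow_succ] at hj; omega
      · rw [upd_self]; omega
      · rw [upd_ne hje.symm, upd_ne hie.symm]; exact he
      · rw [upd_ne hij, upd_self, upd_self]
        have := brw_xor a b c
        have h4 := Bool.toNat_le_one' (a ^^ (b ^^ c))
        have h5 := Bool.toNat_le_one' (brw a b c)
        funext q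
        by_cases h3 : q = e
        · rw [h3, upd_self, upd_self]
          simp only [min_def]
          split_ifs <;> omega
        · rw [upd_ne h3, upd_ne h3]
          by_cases h1 : q = j
          · rw [h1, upd_self, upd_self]
          · rw [upd_ne h1, upd_ne h1]
            by_cases h2 : q = i
            · rw [h2, upd_self, upd_self]
            · rw [upd_ne h2, upd_ne h1, upd_ne h2, upd_ne h2]
      · have := brw_xor a b c
        have h4 := Bool.toNat_le_one' (a ^^ (b ^^ c))
        have h5 := Bool.toNat_le_one' (brw a b c)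
        by_cases h6 : s i + c.toNat ≤ s j
        · refine Pc.nzF ?_ ((Pc.dbl (n := 0) ?_).cast ?_)
          · rw [upd_self, show s i + c.toNat - s j = 0 by omega]
            rfl
          · rw [upd_ne hje, upd_self]
            omega
          · rw [upd_ne hje, upd_self]
            funext q
            by_cases h3 : q = j
            · rw [h3, upd_self, upd_ne hje, upd_self]
              omega
            · rw [upd_ne h3]
              by_cases h7 : q = e
              · rw [h7, upd_self, upd_self]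
              · rw [upd_ne h7, upd_ne h3, upd_ne h7, upd_ne h3]
        · refine Pc.nzT ?_ ((Pc.skip (n := 0)).cast ?_)
          · rw [upd_self]
            simp only [min_def]
            split_ifs <;> omega
          · congr 2
            omega
    · exact (base c s (by omega) (by omega) hW he).mono (by omega) (by omega)

/-- `i := i - 1`. -/
theorem pc_dec {i : ι} (ℓ : ℕ) : ∀ s : ι → ℕ, s i < 2 ^ ℓ → s i < W →
    Pc x W body (ℓ + 1) (16 * ℓ + 16) (cal (AP.dec i)) s (upd s i (s i - 1)) := by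
  induction ℓ with
  | zero =>
    intro s h _
    have h0 : s i = 0 := by simpa using h
    refine (Pc.cal (hb _) (Pc.nzF h0 (Pc.skip (n := 13)))).cast ?_
    rw [h0, Nat.zero_sub, ← h0, upd_eq_self]
  | succ ℓ ih =>
    intro s h hW
    by_cases h0 : s i = 0
    · refine Pc.mono (by omega) (by omega : 1 + 1 + 1 ≤ _) ((Pc.cal (hb _) (Pc.nzF h0 (Pc.skip
        (n := 0) (d := 0)))).cast ?_)
      rw [h0, Nat.zero_sub, ← h0, upd_eq_self]
    · by_cases h1 : s i % 2 = 1
      · refine Pc.mono (by omega) ?_ (Pc.cal (hb _) (Pc.nzT h0 (Pc.oddT h1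
          (Pc.halfs (d := 0) (s i / 2) rfl (Pc.dbls (s i - 1) ?_ ?_ ((Pc.nil (n := 0)).cast ?_))))))
        · omega
        · rw [upd_self, Bool.toNat_false]; omega
        · omega
        · rw [upd_upd]
      · refine Pc.mono le_rfl ?_ (Pc.cal (hb _) (Pc.nzT h0 (Pc.oddF h1
          (Pc.halfs (s i / 2) rfl (Pc.cons (ih (upd s i (s i / 2)) ?_ ?_) (Pc.dbls (s i - 1) ?_ ?_
            ((Pc.nil (n := 0)).cast ?_)))))))
        · omega
        · rw [upd_self]; rw [pow_succ] at h; omega
        · rw [upd_self]; omega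
        · rw [upd_self, upd_self, Bool.toNat_true]; omega
        · omega
        · rw [upd_upd, upd_upd]

end

end Pool.Agent.Lib.MP_9277c3_lc.NC
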