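import Pool.Agent.Lib.MP_9277c3_lc.NC.Ext

/-!
# Executions with a bound for the time
-/

namespace Pool.Agent.Lib.MP_9277c3_lc.NC

open CM

/-- Terminating executions; the first number bounds the depth of the control stack, the second one
the number of instructions, tests and calls. -/
inductive ExecT {P T F σ : Type} (M : Sem P T σ) (body : F → Stmt P T F) :
    ℕ → ℕ → Stmt P T F → σ → σ → Prop
  | skip (d n : ℕ) (s : σ) : ExecT M body d (n + 1) Stmt.skip s s
  | prim (d n : ℕ) (p : P) (s : σ) (h : M.pre p s) :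
      ExecT M body d (n + 1) (Stmt.prim p) s (M.act p s)
  | seq (d n m : ℕ) (a b : Stmt P T F) (s t u : σ) (h₁ : ExecT M body d n a s t)
      (h₂ : ExecT M body (d + 1) m b t u) : ExecT M body (d + 1) (n + m + 1) (Stmt.seq a b) s u
  | iteT (d n : ℕ) (t : T) (a b : Stmt P T F) (s u : σ) (h : M.test t s)
      (h₁ : ExecT M body d n a s u) : ExecT M body d (n + 1) (Stmt.ite t a b) s u
  | iteF (d n : ℕ) (t : T) (a b : Stmt P T F) (s u : σ) (h : ¬M.test t s)
      (h₁ : ExecT M body d n b s u) : ExecT M body d (n + 1) (Stmt.ite t a b) s u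
  | loopF (d n : ℕ) (t : T) (a : Stmt P T F) (s : σ) (h : ¬M.test t s) :
      ExecT M body d (n + 1) (Stmt.loop t a) s s
  | loopT (d n m : ℕ) (t : T) (a : Stmt P T F) (s u v : σ) (h : M.test t s)
      (h₁ : ExecT M body d n a s u) (h₂ : ExecT M body (d + 1) m (Stmt.loop t a) u v) :
      ExecT M body (d + 1) (n + m + 1) (Stmt.loop t a) s v
  | call (d n : ℕ) (f : F) (s u : σ) (h : ExecT M body d n (body f) s u) :
      ExecT M body d (n + 1) (Stmt.call f) s u

namespace ExecT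

variable {P T F σ : Type} {M : Sem P T σ} {body : F → Stmt P T F}

theorem mono {d d' n n' : ℕ} (hd : d ≤ d') (hn : n ≤ n') {a : Stmt P T F} {s t : σ}
    (h : ExecT M body d n a s t) : ExecT M body d' n' a s t := by
  induction h generalizing d' n' with
  | skip d n s =>
    obtain ⟨e, rfl⟩ : ∃ e, n' = e + 1 := ⟨n' - 1, by omega⟩
    exact ExecT.skip _ _ _
  | prim d n p s h =>
    obtain ⟨e, rfl⟩ : ∃ e, n' = e + 1 := ⟨n' - 1, by omega⟩
    exact ExecT.prim _ _ _ _ h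
  | seq d n m a b s t u _ _ ih₁ ih₂ =>
    obtain ⟨e, rfl⟩ : ∃ e, d' = e + 1 := ⟨d' - 1, by omega⟩
    obtain ⟨j, rfl⟩ : ∃ j, n' = n + j + 1 := ⟨n' - n - 1, by omega⟩
    exact ExecT.seq _ _ _ _ _ _ _ _ (ih₁ (by omega) le_rfl) (ih₂ hd (by omega))
  | iteT d n t a b s u h _ ih =>
    obtain ⟨e, rfl⟩ : ∃ e, n' = e + 1 := ⟨n' - 1, by omega⟩
    exact ExecT.iteT _ _ _ _ _ _ _ h (ih hd (by omega))
  | iteF d n t a b s u h _ ih =>
    obtain ⟨e, rfl⟩ : ∃ e, n' = e + 1 := ⟨n' - 1, by omega⟩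
    exact ExecT.iteF _ _ _ _ _ _ _ h (ih hd (by omega))
  | loopF d n t a s h =>
    obtain ⟨e, rfl⟩ : ∃ e, n' = e + 1 := ⟨n' - 1, by omega⟩
    exact ExecT.loopF _ _ _ _ _ h
  | loopT d n m t a s u v h _ _ ih₁ ih₂ =>
    obtain ⟨e, rfl⟩ : ∃ e, d' = e + 1 := ⟨d' - 1, by omega⟩
    obtain ⟨j, rfl⟩ : ∃ j, n' = n + j + 1 := ⟨n' - n - 1, by omega⟩
    exact ExecT.loopT _ _ _ _ _ _ _ _ h (ih₁ (by omega) le_rfl) (ih₂ hd (by omega))
  | call d n f s u _ ih =>
    obtain ⟨e, rfl⟩ : ∃ e, n' = e + 1 := ⟨n' - 1, by omega⟩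
    exact ExecT.call _ _ _ _ _ (ih hd (by omega))

/-- Forget the time. -/
theorem toExec {d n : ℕ} {a : Stmt P T F} {s t : σ} (h : ExecT M body d n a s t) :
    Exec M body d a s t := by
  induction h with
  | skip d n s => exact Exec.skip _ _
  | prim d n p s h => exact Exec.prim _ _ _ h
  | seq d n m a b s t u _ _ ih₁ ih₂ => exact Exec.seq _ _ _ _ _ _ ih₁ ih₂
  | iteT d n t a b s u h _ ih => exact Exec.iteT _ _ _ _ _ _ h ih
  | iteF d n t a b s u h _ ih => exact Exec.iteF _ _ _ _ _ _ h ih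
  | loopF d n t a s h => exact Exec.loopF _ _ _ _ h
  | loopT d n m t a s u v h _ _ ih₁ ih₂ => exact Exec.loopT _ _ _ _ _ _ h ih₁ ih₂
  | call d n f s u _ ih => exact Exec.call _ _ _ _ ih

theorem cast {d n : ℕ} {a : Stmt P T F} {s t t' : σ} (h : ExecT M body d n a s t) (e : t = t') :
    ExecT M body d n a s t' := e ▸ h

theorem det {d n d' n' : ℕ} {a : Stmt P T F} {s t t' : σ} (h : ExecT M body d n a s t)
    (h' : ExecT M body d' n' a s t') : t = t' := Exec.det h.toExec h'.toExec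

end ExecT

/-- Translation of programs, with other names for the procedures. -/
def trg {P T P' T' F F' : Type} (fp : P → Stmt P' T' F') (ft : T → T') (φ : F → F') :
    Stmt P T F → Stmt P' T' F'
  | Stmt.skip => Stmt.skip
  | Stmt.prim p => fp p
  | Stmt.seq a b => Stmt.seq (trg fp ft φ a) (trg fp ft φ b)
  | Stmt.ite t a b => Stmt.ite (ft t) (trg fp ft φ a) (trg fp ft φ b)
  | Stmt.loop t a => Stmt.loop (ft t) (trg fp ft φ a)
  | Stmt.call f => Stmt.call (φ f)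

/-- If the translations of the primitive instructions simulate them, then the translations of all
programs do. -/
theorem ExecT.trg {P T P' T' F F' σ σ' : Type} {M : Sem P T σ} {M' : Sem P' T' σ'}
    {body : F → Stmt P T F} {body' : F' → Stmt P' T' F'} {fp : P → Stmt P' T' F'} {ft : T → T'}
    {φ : F → F'} {R : σ → σ' → Prop} {c τ : ℕ} (hτ : 1 ≤ τ)
    (hb : ∀ f, body' (φ f) = NC.trg fp ft φ (body f))
    {G : P → Prop} (hG : ∀ f, (body f).all G)
    (hp : ∀ p s s', G p → M.pre p s → R s s' → ∃ t',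
      ExecT M' body' c τ (fp p) s' t' ∧ R (M.act p s) t')
    (ht : ∀ t s s', R s s' → (M'.test (ft t) s' ↔ M.test t s))
    {d n : ℕ} {a : Stmt P T F} {s t : σ} (h : ExecT M body d n a s t) :
    a.all G → ∀ s', R s s' → ∃ t',
      ExecT M' body' (d + c) (n * τ) (NC.trg fp ft φ a) s' t' ∧ R t t' := by
  induction h with
  | skip d n s =>
    exact fun _ s' hs => ⟨s', (ExecT.skip _ 0 _).mono le_rfl (by nlinarith), hs⟩
  | prim d n p s h =>
    intro ha s' hs
    obtain ⟨t', h1, h2⟩ := hp p s s' ha h hs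
    exact ⟨t', h1.mono (by omega) (by nlinarith), h2⟩
  | seq d n m a b s t u _ _ ih₁ ih₂ =>
    intro ha s' hs
    obtain ⟨t', h1, h2⟩ := ih₁ ha.1 s' hs
    obtain ⟨u', h3, h4⟩ := ih₂ ha.2 t' h2
    refine ⟨u', ?_, h4⟩
    rw [Nat.add_right_comm] at h3
    rw [Nat.add_right_comm d 1 c]
    exact (ExecT.seq _ _ _ _ _ _ _ _ h1 h3).mono le_rfl (by nlinarith)
  | iteT d n t a b s u h _ ih =>
    intro ha s' hs
    obtain ⟨u', h1, h2⟩ := ih ha.1 s' hs
    exact ⟨u', (ExecT.iteT _ _ _ _ _ _ _ ((ht t s s' hs).2 h) h1).mono le_rfl (by nlinarith), h2⟩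
  | iteF d n t a b s u h _ ih =>
    intro ha s' hs
    obtain ⟨u', h1, h2⟩ := ih ha.2 s' hs
    exact ⟨u', (ExecT.iteF _ _ _ _ _ _ _ (fun h' => h ((ht t s s' hs).1 h')) h1).mono le_rfl
      (by nlinarith), h2⟩
  | loopF d n t a s h =>
    intro _ s' hs
    exact ⟨s', (ExecT.loopF _ 0 _ _ _ (fun h' => h ((ht t s s' hs).1 h'))).mono le_rfl
      (by nlinarith), hs⟩
  | loopT d n m t a s u v h _ _ ih₁ ih₂ =>
    intro ha s' hs
    obtain ⟨u', h1, h2⟩ := ih₁ ha s' hs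
    obtain ⟨v', h3, h4⟩ := ih₂ ha u' h2
    refine ⟨v', ?_, h4⟩
    rw [Nat.add_right_comm] at h3
    rw [Nat.add_right_comm d 1 c]
    exact (ExecT.loopT _ _ _ _ _ _ _ _ ((ht t s s' hs).2 h) h1 h3).mono le_rfl (by nlinarith)
  | call d n f s u _ ih =>
    intro _ s' hs
    obtain ⟨u', h1, h2⟩ := ih (hG f) s' hs
    rw [← hb] at h1
    exact ⟨u', (ExecT.call _ _ _ _ _ h1).mono le_rfl (by nlinarith), h2⟩

end Pool.Agent.Lib.MP_9277c3_lc.NC
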