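import Pool.Agent.Lib.MP_9277c3_lc.NC.NTM
import Pool.Agent.Lib.MP_9277c3_lc.helper78.CM.Run

/-!
# Programs with assignments which read bits

`RunN x cc A body k a s u t v`: with the input `x` and the sequence of bits `u` the program `a`
transforms the state `s` into the state `t`, and `v` is the rest of the sequence of bits; all values
which are assigned are less than `A`, and at most `k` procedure calls are nested.

How to use this file: deterministic pieces are ordinary programs `AStmt R₀ F₀` over a small type `R₀`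
of registers with their own specification `RunA`; `ren ρ φ` renames their registers (by an injective
map `ρ : R₀ → R`) and procedures, and `RunA.ren` gives the specification in the large program.
-/

namespace Pool.Agent.Lib.MP_9277c3_lc.NC

open CM

/-- Programs with assignments which read bits. The primitive instruction `Sum.inl ⟨r, e⟩` is the
assignment `r := e`; the primitive instruction `Sum.inr r` writes the next bit to `r`. A test is a
register, it holds iff the register is not zero. -/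
abbrev NStmt (R F : Type) : Type := Stmt (Asg R ⊕ R) R F

section

variable {α R F : Type}

/-- An assignment. -/
abbrev asg (r : R) (e : Exp R) : NStmt R F := Stmt.prim (Sum.inl ⟨r, e⟩)

/-- Write the next bit to `r`. -/
abbrev flip (r : R) : NStmt R F := Stmt.prim (Sum.inr r)

/-- Executions. -/
inductive RunN (x : List α) (cc : Cell α → ℕ) (A : ℕ) (body : F → NStmt R F) :
    ℕ → NStmt R F → (R → ℕ) → (ℕ → Bool) → (R → ℕ) → (ℕ → Bool) → Prop
  | skip (k : ℕ) (s : R → ℕ) (u : ℕ → Bool) : RunN x cc A body k Stmt.skip s u s u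
  | asg (k : ℕ) (r : R) (e : Exp R) (s : R → ℕ) (u : ℕ → Bool) (h : e.eval x cc s < A) :
      RunN x cc A body k (asg r e) s u (upd s r (e.eval x cc s)) u
  | flip (k : ℕ) (r : R) (s : R → ℕ) (u : ℕ → Bool) :
      RunN x cc A body k (flip r) s u (upd s r (u 0).toNat) (shift u)
  | seq (k : ℕ) (a b : NStmt R F) (s t r : R → ℕ) (u v w : ℕ → Bool)
      (h₁ : RunN x cc A body k a s u t v) (h₂ : RunN x cc A body k b t v r w) :
      RunN x cc A body k (Stmt.seq a b) s u r w
  | iteT (k : ℕ) (q : R) (a b : NStmt R F) (s t : R → ℕ) (u v : ℕ → Bool) (h : s q ≠ 0)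
      (h₁ : RunN x cc A body k a s u t v) : RunN x cc A body k (Stmt.ite q a b) s u t v
  | iteF (k : ℕ) (q : R) (a b : NStmt R F) (s t : R → ℕ) (u v : ℕ → Bool) (h : s q = 0)
      (h₁ : RunN x cc A body k b s u t v) : RunN x cc A body k (Stmt.ite q a b) s u t v
  | loopF (k : ℕ) (q : R) (a : NStmt R F) (s : R → ℕ) (u : ℕ → Bool) (h : s q = 0) :
      RunN x cc A body k (Stmt.loop q a) s u s u
  | loopT (k : ℕ) (q : R) (a : NStmt R F) (s t r : R → ℕ) (u v w : ℕ → Bool) (h : s q ≠ 0)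
      (h₁ : RunN x cc A body k a s u t v) (h₂ : RunN x cc A body k (Stmt.loop q a) t v r w) :
      RunN x cc A body k (Stmt.loop q a) s u r w
  | call (k : ℕ) (f : F) (s t : R → ℕ) (u v : ℕ → Bool)
      (h : RunN x cc A body k (body f) s u t v) :
      RunN x cc A body (k + 1) (Stmt.call f) s u t v

variable {x : List α} {cc : Cell α → ℕ} {A : ℕ} {body : F → NStmt R F}

theorem RunN.mono {k k' : ℕ} (hk : k ≤ k') {a : NStmt R F} {s t : R → ℕ} {u v : ℕ → Bool}
    (h : RunN x cc A body k a s u t v) : RunN x cc A body k' a s u t v := by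
  induction h generalizing k' with
  | skip k s u => exact RunN.skip _ _ _
  | asg k r e s u h => exact RunN.asg _ _ _ _ _ h
  | flip k r s u => exact RunN.flip _ _ _ _
  | seq k a b s t r u v w _ _ ih₁ ih₂ => exact RunN.seq _ _ _ _ _ _ _ _ _ (ih₁ hk) (ih₂ hk)
  | iteT k q a b s t u v h _ ih => exact RunN.iteT _ _ _ _ _ _ _ _ h (ih hk)
  | iteF k q a b s t u v h _ ih => exact RunN.iteF _ _ _ _ _ _ _ _ h (ih hk)
  | loopF k q a s u h => exact RunN.loopF _ _ _ _ _ h
  | loopT k q a s t r u v w h _ _ ih₁ ih₂ =>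
    exact RunN.loopT _ _ _ _ _ _ _ _ _ h (ih₁ hk) (ih₂ hk)
  | call k f s t u v _ ih =>
    obtain ⟨k', rfl⟩ : ∃ j, k' = j + 1 := ⟨k' - 1, by omega⟩
    exact RunN.call _ _ _ _ _ _ (ih (by omega))

theorem RunN.mono_A {A' : ℕ} (hA : A ≤ A') {k : ℕ} {a : NStmt R F} {s t : R → ℕ}
    {u v : ℕ → Bool} (h : RunN x cc A body k a s u t v) : RunN x cc A' body k a s u t v := by
  induction h with
  | skip k s u => exact RunN.skip _ _ _
  | asg k r e s u h => exact RunN.asg _ _ _ _ _ (h.trans_le hA)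
  | flip k r s u => exact RunN.flip _ _ _ _
  | seq k a b s t r u v w _ _ ih₁ ih₂ => exact RunN.seq _ _ _ _ _ _ _ _ _ ih₁ ih₂
  | iteT k q a b s t u v h _ ih => exact RunN.iteT _ _ _ _ _ _ _ _ h ih
  | iteF k q a b s t u v h _ ih => exact RunN.iteF _ _ _ _ _ _ _ _ h ih
  | loopF k q a s u h => exact RunN.loopF _ _ _ _ _ h
  | loopT k q a s t r u v w h _ _ ih₁ ih₂ => exact RunN.loopT _ _ _ _ _ _ _ _ _ h ih₁ ih₂
  | call k f s t u v _ ih => exact RunN.call _ _ _ _ _ _ ih

theorem RunN.cast {k : ℕ} {a : NStmt R F} {s t t' : R → ℕ} {u v : ℕ → Bool}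
    (h : RunN x cc A body k a s u t v) (e : t = t') : RunN x cc A body k a s u t' v := e ▸ h

theorem RunN.congr_left {k : ℕ} {a : NStmt R F} {s s' t : R → ℕ} {u v : ℕ → Bool}
    (h : RunN x cc A body k a s u t v) (e : s' = s) : RunN x cc A body k a s' u t v := e ▸ h

/-- The result of a program is unique. -/
theorem RunN.det {k k' : ℕ} {a : NStmt R F} {s t t' : R → ℕ} {u v v' : ℕ → Bool}
    (h : RunN x cc A body k a s u t v) (h' : RunN x cc A body k' a s u t' v') :
    t = t' ∧ v = v' := by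
  induction h generalizing k' t' v' with
  | skip k s u => cases h'; exact ⟨rfl, rfl⟩
  | asg k r e s u h => cases h'; exact ⟨rfl, rfl⟩
  | flip k r s u => cases h'; exact ⟨rfl, rfl⟩
  | seq k a b s t r u v w _ _ ih₁ ih₂ =>
    cases h' with
    | seq _ _ _ _ _ _ _ _ _ h1 h2 =>
      obtain ⟨rfl, rfl⟩ := ih₁ h1
      exact ih₂ h2
  | iteT k q a b s t u v h _ ih =>
    cases h' with
    | iteT _ _ _ _ _ _ _ _ _ h1 => exact ih h1
    | iteF _ _ _ _ _ _ _ _ h0 _ => exact absurd h0 h
  | iteF k q a b s t u v h _ ih =>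
    cases h' with
    | iteT _ _ _ _ _ _ _ _ h0 _ => exact absurd h h0
    | iteF _ _ _ _ _ _ _ _ _ h1 => exact ih h1
  | loopF k q a s u h =>
    cases h' with
    | loopF => exact ⟨rfl, rfl⟩
    | loopT _ _ _ _ _ _ _ _ _ h0 => exact absurd h h0
  | loopT k q a s t r u v w h _ _ ih₁ ih₂ =>
    cases h' with
    | loopF _ _ _ _ _ h0 => exact absurd h0 h
    | loopT _ _ _ _ _ _ _ _ _ _ h1 h2 =>
      obtain ⟨rfl, rfl⟩ := ih₁ h1
      exact ih₂ h2
  | call k f s t u v _ ih =>
    cases h' with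
    | call _ _ _ _ _ _ h1 => exact ih h1

/-! ### Lists of instructions -/

/-- Sequential composition of a list of programs. -/
def sqN : List (NStmt R F) → NStmt R F
  | [] => Stmt.skip
  | b :: l => Stmt.seq b (sqN l)

/-- Sequential composition of a list of deterministic programs. -/
def sqA : List (AStmt R F) → AStmt R F
  | [] => Stmt.skip
  | b :: l => Stmt.seq b (sqA l)

theorem RunN.nil {k : ℕ} {s : R → ℕ} {u : ℕ → Bool} : RunN x cc A body k (sqN []) s u s u :=
  RunN.skip _ _ _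

theorem RunN.cons {k : ℕ} {b : NStmt R F} {l : List (NStmt R F)} {s t r : R → ℕ}
    {u v w : ℕ → Bool}
    (h₁ : RunN x cc A body k b s u t v) (h₂ : RunN x cc A body k (sqN l) t v r w) :
    RunN x cc A body k (sqN (b :: l)) s u r w := RunN.seq _ _ _ _ _ _ _ _ _ h₁ h₂

/-- The first instruction of a list is an assignment. -/
theorem RunN.set {k : ℕ} {q : R} {ex : Exp R} {l : List (NStmt R F)} {s t : R → ℕ}
    {u v : ℕ → Bool} (n : ℕ)
    (hn : ex.eval x cc s = n) (hA : n < A) (h₂ : RunN x cc A body k (sqN l) (upd s q n) u t v) :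
    RunN x cc A body k (sqN (NC.asg q ex :: l)) s u t v := by
  subst hn
  exact RunN.seq _ _ _ _ _ _ _ _ _ (RunN.asg _ _ _ _ _ hA) h₂

theorem RunN.flips {k : ℕ} {q : R} {l : List (NStmt R F)} {s t : R → ℕ}
    {u v : ℕ → Bool}
    (h₂ : RunN x cc A body k (sqN l) (upd s q (u 0).toNat) (shift u) t v) :
    RunN x cc A body k (sqN (NC.flip q :: l)) s u t v :=
  RunN.seq _ _ _ _ _ _ _ _ _ (RunN.flip _ _ _ _) h₂

/-- Execution of a loop, given by a sequence of states. -/
theorem RunN.seqLoop {k : ℕ} (ctr : R) (B : NStmt R F) (g : ℕ → R → ℕ) (w : ℕ → ℕ → Bool) (N : ℕ)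
    (h1 : ∀ n < N, g n ctr ≠ 0) (h2 : g N ctr = 0)
    (hB : ∀ n < N, RunN x cc A body k B (g n) (w n) (g (n + 1)) (w (n + 1))) :
    RunN x cc A body k (Stmt.loop ctr B) (g 0) (w 0) (g N) (w N) := by
  have key : ∀ j, j ≤ N → RunN x cc A body k (Stmt.loop ctr B) (g (N - j)) (w (N - j)) (g N)
      (w N) := by
    intro j
    induction j with
    | zero => exact fun _ => RunN.loopF _ _ _ _ _ h2
    | succ j ih =>
      intro hj
      refine RunN.loopT _ _ _ _ _ _ _ _ _ (h1 _ (by omega)) (hB _ (by omega)) ?_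
      rw [show N - (j + 1) + 1 = N - j by omega]
      exact ih (by omega)
  have := key N le_rfl
  rwa [Nat.sub_self] at this

end

/-! ### Deterministic programs, with other names for the registers and procedures -/

section

variable {α R₀ F₀ R F : Type} {x : List α} {cc : Cell α → ℕ} {A : ℕ}

theorem RunA.nil {body : F → AStmt R F} {k : ℕ} {s : R → ℕ} :
    RunA x cc A body k (sqA []) s s := RunA.skip _ _

theorem RunA.cons {body : F → AStmt R F} {k : ℕ} {b : AStmt R F} {l : List (AStmt R F)}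
    {s t u : R → ℕ}
    (h₁ : RunA x cc A body k b s t) (h₂ : RunA x cc A body k (sqA l) t u) :
    RunA x cc A body k (sqA (b :: l)) s u := RunA.seq _ _ _ _ _ _ h₁ h₂

/-- The first instruction of a list is an assignment. -/
theorem RunA.sets {body : F → AStmt R F} {k : ℕ} {q : R} {ex : Exp R} {l : List (AStmt R F)}
    {s u : R → ℕ} (n : ℕ)
    (hn : ex.eval x cc s = n) (hA : n < A) (h₂ : RunA x cc A body k (sqA l) (upd s q n) u) :
    RunA x cc A body k (sqA (CM.set q ex :: l)) s u := by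
  subst hn
  exact RunA.seq _ _ _ _ _ _ (RunA.asg _ _ _ _ hA) h₂

theorem RunA.mono_A {A' : ℕ} (hA : A ≤ A') {body : F → AStmt R F} {k : ℕ} {a : AStmt R F}
    {s t : R → ℕ}
    (h : RunA x cc A body k a s t) : RunA x cc A' body k a s t := by
  induction h with
  | skip k s => exact RunA.skip _ _
  | asg k r e s h => exact RunA.asg _ _ _ _ (h.trans_le hA)
  | seq k a b s t u _ _ ih₁ ih₂ => exact RunA.seq _ _ _ _ _ _ ih₁ ih₂
  | iteT k r a b s u h _ ih => exact RunA.iteT _ _ _ _ _ _ h ih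
  | iteF k r a b s u h _ ih => exact RunA.iteF _ _ _ _ _ _ h ih
  | loopF k r a s h => exact RunA.loopF _ _ _ _ h
  | loopT k r a s u v h _ _ ih₁ ih₂ => exact RunA.loopT _ _ _ _ _ _ h ih₁ ih₂
  | call k f s u _ ih => exact RunA.call _ _ _ _ ih

/-- Rename the registers of an expression. -/
def renE (ρ : R₀ → R) : Exp R₀ → Exp R
  | Exp.var r => Exp.var (ρ r)
  | Exp.lit k => Exp.lit k
  | Exp.add a b => Exp.add (renE ρ a) (renE ρ b)
  | Exp.sub a b => Exp.sub (renE ρ a) (renE ρ b)
  | Exp.mul a b => Exp.mul (renE ρ a) (renE ρ b)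
  | Exp.div a b => Exp.div (renE ρ a) (renE ρ b)
  | Exp.mod a b => Exp.mod (renE ρ a) (renE ρ b)
  | Exp.tab f k a => Exp.tab f k (renE ρ a)
  | Exp.inp a => Exp.inp (renE ρ a)

theorem eval_renE (ρ : R₀ → R) (x : List α) (cc : Cell α → ℕ) (s : R → ℕ) (e : Exp R₀) :
    (renE ρ e).eval x cc s = e.eval x cc (fun r => s (ρ r)) := by
  induction e with
  | var r => rfl
  | lit k => rfl
  | add a b ha hb => simp only [renE, Exp.eval, ha, hb]
  | sub a b ha hb => simp only [renE, Exp.eval, ha, hb]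
  | mul a b ha hb => simp only [renE, Exp.eval, ha, hb]
  | div a b ha hb => simp only [renE, Exp.eval, ha, hb]
  | mod a b ha hb => simp only [renE, Exp.eval, ha, hb]
  | tab f k a ha => simp only [renE, Exp.eval, ha]
  | inp a ha => simp only [renE, Exp.eval, ha]

/-- Rename the registers by `ρ` and the procedures by `φ`. -/
def ren (ρ : R₀ → R) (φ : F₀ → F) : AStmt R₀ F₀ → NStmt R F
  | Stmt.skip => Stmt.skip
  | Stmt.prim p => asg (ρ p.reg) (renE ρ p.exp)
  | Stmt.seq a b => Stmt.seq (ren ρ φ a) (ren ρ φ b)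
  | Stmt.ite q a b => Stmt.ite (ρ q) (ren ρ φ a) (ren ρ φ b)
  | Stmt.loop q a => Stmt.loop (ρ q) (ren ρ φ a)
  | Stmt.call f => Stmt.call (φ f)

open Classical in
/-- The state `s`, with the values `t` in the registers `ρ r`. -/
noncomputable def mrg (ρ : R₀ → R) (t : R₀ → ℕ) (s : R → ℕ) : R → ℕ :=
  fun q => if h : ∃ r, ρ r = q then t h.choose else s q

theorem mrg_apply {ρ : R₀ → R} (hρ : Function.Injective ρ) (t : R₀ → ℕ) (s : R → ℕ) (r : R₀) :
    mrg ρ t s (ρ r) = t r := by
  have h : ∃ r', ρ r' = ρ r := ⟨r, rfl⟩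
  rw [mrg, dif_pos h, hρ h.choose_spec]

theorem mrg_of_not {ρ : R₀ → R} (t : R₀ → ℕ) (s : R → ℕ) {q : R} (hq : ∀ r, ρ r ≠ q) :
    mrg ρ t s q = s q := by
  rw [mrg, dif_neg (by rintro ⟨r, hr⟩; exact hq r hr)]

theorem mrg_self {ρ : R₀ → R} (hρ : Function.Injective ρ) (s : R → ℕ) :
    mrg ρ (fun r => s (ρ r)) s = s := by
  funext q
  by_cases h : ∃ r, ρ r = q
  · obtain ⟨r, rfl⟩ := h
    rw [mrg_apply hρ]
  · rw [mrg_of_not _ _ fun r hr => h ⟨r, hr⟩]

theorem mrg_upd {ρ : R₀ → R} (hρ : Function.Injective ρ) (t : R₀ → ℕ) (s : R → ℕ) (r : R₀)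
    (n : ℕ) : mrg ρ (upd t r n) s = upd (mrg ρ t s) (ρ r) n := by
  funext q
  by_cases h : ∃ r', ρ r' = q
  · obtain ⟨r', rfl⟩ := h
    rw [mrg_apply hρ]
    by_cases h' : r' = r
    · subst h'
      rw [upd_self, upd_self]
    · rw [upd_ne h', upd_ne (fun h'' => h' (hρ h'')), mrg_apply hρ]
  · have h1 : ∀ r', ρ r' ≠ q := fun r' hr => h ⟨r', hr⟩
    rw [mrg_of_not _ _ h1, upd_ne (h1 r).symm, mrg_of_not _ _ h1]

/-- Deterministic programs with other names. -/
theorem RunA.ren {ρ : R₀ → R} {φ : F₀ → F} (hρ : Function.Injective ρ) {body₀ : F₀ → AStmt R₀ F₀}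
    {body : F → NStmt R F} (hb : ∀ f, body (φ f) = NC.ren ρ φ (body₀ f)) {k : ℕ} {a : AStmt R₀ F₀}
    {s t : R₀ → ℕ} (h : RunA x cc A body₀ k a s t) (s' : R → ℕ) (u : ℕ → Bool) :
    RunN x cc A body k (NC.ren ρ φ a) (mrg ρ s s') u (mrg ρ t s') u := by
  induction h with
  | skip k s => exact RunN.skip _ _ _
  | asg k r e s h =>
    have e1 : (renE ρ e).eval x cc (mrg ρ s s') = e.eval x cc s := by
      rw [eval_renE]
      congr 1
      funext r
      exact mrg_apply hρ _ _ _
    have h1 := RunN.asg (body := body) (x := x) (cc := cc) (A := A) k (ρ r) (renE ρ e)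
      (mrg ρ s s') u (by rw [e1]; exact h)
    rw [e1, ← mrg_upd hρ] at h1
    exact h1
  | seq k a b s t u _ _ ih₁ ih₂ => exact RunN.seq _ _ _ _ _ _ _ _ _ ih₁ ih₂
  | iteT k r a b s u h _ ih =>
    exact RunN.iteT _ _ _ _ _ _ _ _ (by rw [mrg_apply hρ]; exact h) ih
  | iteF k r a b s u h _ ih =>
    exact RunN.iteF _ _ _ _ _ _ _ _ (by rw [mrg_apply hρ]; exact h) ih
  | loopF k r a s h => exact RunN.loopF _ _ _ _ _ (by rw [mrg_apply hρ]; exact h)
  | loopT k r a s u v h _ _ ih₁ ih₂ =>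
    exact RunN.loopT _ _ _ _ _ _ _ _ _ (by rw [mrg_apply hρ]; exact h) ih₁ ih₂
  | call k f s u _ ih =>
    refine RunN.call _ _ _ _ _ _ ?_
    rw [hb]
    exact ih

/-- Deterministic programs with other names; the state of the large program is given. -/
theorem RunA.ren' {ρ : R₀ → R} {φ : F₀ → F} (hρ : Function.Injective ρ) {body₀ : F₀ → AStmt R₀ F₀}
    {body : F → NStmt R F} (hb : ∀ f, body (φ f) = NC.ren ρ φ (body₀ f)) {k : ℕ} {a : AStmt R₀ F₀}
    {s : R → ℕ} {t : R₀ → ℕ} (h : RunA x cc A body₀ k a (fun r => s (ρ r)) t) (u : ℕ → Bool) :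
    RunN x cc A body k (NC.ren ρ φ a) s u (mrg ρ t s) u := by
  have h1 := RunA.ren hρ hb h s u
  rwa [mrg_self hρ] at h1

/-- A deterministic program, as a program which can read bits. -/
abbrev lft (a : AStmt R F) : NStmt R F := ren id id a

/-- Deterministic programs are programs. -/
theorem RunA.lft {body₀ : F → AStmt R F} {body : F → NStmt R F}
    (hb : ∀ f, body f = NC.lft (body₀ f)) {k : ℕ} {a : AStmt R F}
    {s t : R → ℕ} (h : RunA x cc A body₀ k a s t) (u : ℕ → Bool) :
    RunN x cc A body k (NC.lft a) s u t u := by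
  have h1 := RunA.ren' (ρ := id) (φ := id) Function.injective_id hb (s := s) h u
  have e : mrg id t s = t := by
    funext q
    exact mrg_apply Function.injective_id t s q
  rwa [e] at h1

/-- Rename the registers by `ρ` and the procedures by `φ`, in deterministic programs. -/
def renA (ρ : R₀ → R) (φ : F₀ → F) : AStmt R₀ F₀ → AStmt R F
  | Stmt.skip => Stmt.skip
  | Stmt.prim p => CM.set (ρ p.reg) (renE ρ p.exp)
  | Stmt.seq a b => Stmt.seq (renA ρ φ a) (renA ρ φ b)
  | Stmt.ite q a b => Stmt.ite (ρ q) (renA ρ φ a) (renA ρ φ b)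
  | Stmt.loop q a => Stmt.loop (ρ q) (renA ρ φ a)
  | Stmt.call f => Stmt.call (φ f)

/-- Deterministic programs with other names. -/
theorem RunA.renA {ρ : R₀ → R} {φ : F₀ → F} (hρ : Function.Injective ρ)
    {body₀ : F₀ → AStmt R₀ F₀} {body : F → AStmt R F}
    (hb : ∀ f, body (φ f) = NC.renA ρ φ (body₀ f)) {k : ℕ} {a : AStmt R₀ F₀}
    {s t : R₀ → ℕ} (h : RunA x cc A body₀ k a s t) (s' : R → ℕ) :
    RunA x cc A body k (NC.renA ρ φ a) (mrg ρ s s') (mrg ρ t s') := by
  induction h with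
  | skip k s => exact RunA.skip _ _
  | asg k r e s h =>
    have e1 : (renE ρ e).eval x cc (mrg ρ s s') = e.eval x cc s := by
      rw [eval_renE]
      congr 1
      funext r
      exact mrg_apply hρ _ _ _
    have h1 := RunA.asg (body := body) (x := x) (cc := cc) (A := A) k (ρ r) (renE ρ e)
      (mrg ρ s s') (by rw [e1]; exact h)
    rw [e1, ← mrg_upd hρ] at h1
    exact h1
  | seq k a b s t u _ _ ih₁ ih₂ => exact RunA.seq _ _ _ _ _ _ ih₁ ih₂
  | iteT k r a b s u h _ ih =>
    exact RunA.iteT _ _ _ _ _ _ (by rw [mrg_apply hρ]; exact h) ih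
  | iteF k r a b s u h _ ih =>
    exact RunA.iteF _ _ _ _ _ _ (by rw [mrg_apply hρ]; exact h) ih
  | loopF k r a s h => exact RunA.loopF _ _ _ _ (by rw [mrg_apply hρ]; exact h)
  | loopT k r a s u v h _ _ ih₁ ih₂ =>
    exact RunA.loopT _ _ _ _ _ _ (by rw [mrg_apply hρ]; exact h) ih₁ ih₂
  | call k f s u _ ih =>
    refine RunA.call _ _ _ _ ?_
    rw [hb]
    exact ih

/-- Deterministic programs with other names; the state of the large program is given. -/
theorem RunA.renA' {ρ : R₀ → R} {φ : F₀ → F} (hρ : Function.Injective ρ)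
    {body₀ : F₀ → AStmt R₀ F₀} {body : F → AStmt R F}
    (hb : ∀ f, body (φ f) = NC.renA ρ φ (body₀ f)) {k : ℕ} {a : AStmt R₀ F₀}
    {s : R → ℕ} {t : R₀ → ℕ} (h : RunA x cc A body₀ k a (fun r => s (ρ r)) t) :
    RunA x cc A body k (NC.renA ρ φ a) s (mrg ρ t s) := by
  have h1 := RunA.renA hρ hb h s
  rwa [mrg_self hρ] at h1

end

end Pool.Agent.Lib.MP_9277c3_lc.NC
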