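import Pool.Agent.Lib.MP_9277c3_lc.NC.Ext
import Pool.Agent.Lib.MP_9277c3_lc.helper78.CM.Compile
import Pool.Agent.Lib.MP_9277c3_lc.NC.Lang

section
/-!
# The nondeterministic Turing machine which executes a program with stacks
-/
namespace Pool.Agent.Lib.MP_9277c3_lc.NC

open CM Classical

theorem step_some {α : Type} (A : BM α) (x : List α) (c c' : A.Cfg)
    (r : A.State × Bool × Move × (A.Tape → A.Sym × Move))
    (h : A.next c.state (c.bits 0) (cell x c.pos) c.read = some r) (h1 : c'.state = r.1)
    (h2 : c'.pos = r.2.2.1.apply x.length c.pos)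
    (h3 : ∀ j, c'.head j = NTM.wmove (r.2.2.2 j).2 (c.head j))
    (h4 : ∀ j, c'.tape j = Function.update (c.tape j) (c.head j) (r.2.2.2 j).1)
    (h5 : c'.bits = if r.2.1 then shift c.bits else c.bits) :
    A.step x c = some c' := by
  obtain ⟨q, p, H, T, u⟩ := c'
  simp only at h1 h2 h3 h4 h5
  subst h1 h2 h5
  obtain rfl : H = _ := funext h3
  obtain rfl : T = _ := funext h4
  unfold BM.step
  rw [h]
  rfl

section

variable {α ι Γ F : Type}

/-- Programs with stacks which read bits. -/
abbrev GStmt (α ι Γ F : Type) : Type := Stmt (SPrim ι Γ ⊕ Unit) (STest α ι Γ ⊕ Unit) F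

variable (body : F → GStmt α ι Γ F) (a : GStmt α ι Γ F)

/-- The symbols of the machine. -/
abbrev GSym : Type := Option (Γ ⊕ closure body a)

/-- The operation on the control stack. -/
noncomputable def cop (tst : STest α ι Γ ⊕ Unit → Prop) : closure body a → Op (closure body a)
  | ⟨Stmt.skip, _⟩ => Op.pop
  | ⟨Stmt.prim _, _⟩ => Op.pop
  | ⟨Stmt.seq p q, h⟩ =>
    Op.repl2 ⟨q, closure_subs h (by simp [Stmt.subs, Stmt.mem_subs])⟩
      ⟨p, closure_subs h (by simp [Stmt.subs, Stmt.mem_subs])⟩
  | ⟨Stmt.ite t p q, h⟩ =>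
    Op.repl (if tst t then ⟨p, closure_subs h (by simp [Stmt.subs, Stmt.mem_subs])⟩
      else ⟨q, closure_subs h (by simp [Stmt.subs, Stmt.mem_subs])⟩)
  | ⟨Stmt.loop t p, h⟩ =>
    if tst t then Op.push ⟨p, closure_subs h (by simp [Stmt.subs, Stmt.mem_subs])⟩ else Op.pop
  | ⟨Stmt.call f, _⟩ => Op.repl ⟨body f, closure_body body a f⟩

/-- The operation on the data stacks. -/
noncomputable def dop : GStmt α ι Γ F → ι → Op Γ
  | Stmt.prim (Sum.inl (SPrim.push j g)), i => if i = j then Op.push g else Op.keep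
  | Stmt.prim (Sum.inl (SPrim.pop j)), i => if i = j then Op.pop else Op.keep
  | _, _ => Op.keep

/-- The move of the input head. -/
def gop : GStmt α ι Γ F → Move
  | Stmt.prim (Sum.inl (SPrim.go m)) => m
  | _ => Move.stay

/-- Whether the machine goes to the next bit. -/
def bop : GStmt α ι Γ F → Bool
  | Stmt.prim (Sum.inr _) => true
  | _ => false

/-- The operations on all tapes. -/
noncomputable def oops (tst : STest α ι Γ ⊕ Unit → Prop) (c : closure body a) :
    Option ι → Op (GSym body a)
  | none => (cop body a tst c).map fun c => some (Sum.inr c)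
  | some i => (dop c.1 i).map fun g => some (Sum.inl g)

/-- The value of a test, given what the heads see. -/
def rtest (b : Bool) (cl : Cell α) (r : Option ι → GSym body a) : STest α ι Γ ⊕ Unit → Prop
  | Sum.inl (STest.top i g) => r (some i) = some (Sum.inl g)
  | Sum.inl (STest.ne i) => r (some i) ≠ none
  | Sum.inl (STest.cell p) => p cl
  | Sum.inr _ => b = true

/-- The program is put on the control stack. -/
def initW : Option ι → Option (GSym body a)
  | none => some (some (Sum.inr ⟨a, Or.inl a.mem_subs⟩))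
  | some _ => none

/-- The first move. -/
def initM : Option ι → Move
  | none => Move.right
  | some _ => Move.stay

/-- The transition function. -/
noncomputable def cnext : Option (Option (Option ι → Option (GSym body a))) → Bool → Cell α →
    (Option ι → GSym body a) → Option (Option (Option (Option ι → Option (GSym body a))) ×
      Bool × Move × (Option ι → GSym body a × Move))
  | none, _, _, r => some (some (some (initW body a)), true, Move.stay, fun j => (r j, initM j))
  | some (some w), _, _, r =>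
    some (some none, false, Move.stay, fun j => ((w j).getD (r j), Move.stay))
  | some none, b, cl, r => match r none with
    | some (Sum.inr c) => some (some (some fun j => (oops body a (rtest body a b cl r) c j).pend),
        bop c.1, gop c.1, fun j => ((oops body a (rtest body a b cl r) c j).wr none (r j),
          (oops body a (rtest body a b cl r) c j).mv none (r j)))
    | _ => none

/-- The machine which executes the program `a` and accepts iff the stack `out` is not empty at the
end. -/
noncomputable def cmach [Finite ι] [Finite Γ] [Finite F] (out : ι) : BM α where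
  State := Option (Option (Option ι → Option (GSym body a)))
  Tape := Option ι
  Sym := GSym body a
  finite_state := by
    have : Finite (closure body a) := finite_closure body a
    infer_instance
  finite_tape := inferInstance
  finite_sym := by
    have : Finite (closure body a) := finite_closure body a
    infer_instance
  blank := none
  start := none
  accept := fun _ r => r (some out) ≠ none
  next := cnext body a

variable [Finite ι] [Finite Γ] [Finite F] (out : ι)

/-- What the configuration must look like: the contents of the stacks are `L`. -/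
structure Rep (q : Option (Option (Option ι → Option (GSym body a)))) (pos : ℕ)
    (L : Option ι → List (GSym body a)) (u : ℕ → Bool) (c : (cmach body a out).Cfg) : Prop where
  state : c.state = q
  pos : c.pos = pos
  head : ∀ j, c.head j = (L j).length
  tape : ∀ j, c.tape j = tapeOf none (L j)
  bits : c.bits = u

variable {body a out}

/-- Two steps of the machine. -/
theorem two_steps {x : List α} {pos : ℕ} {L : Option ι → List (GSym body a)} {u : ℕ → Bool}
    {c : (cmach body a out).Cfg} (hc : Rep body a out (some none) pos L u c)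
    (hL : ∀ j, ∀ s ∈ L j, s ≠ none) (k : closure body a) (κ : List (GSym body a))
    (hk : L none = some (Sum.inr k) :: κ) (tst : STest α ι Γ ⊕ Unit → Prop)
    (htst : tst = rtest body a (u 0) (cell x pos) c.read) :
    ∃ c₁ c₂, (cmach body a out).step x c = some c₁ ∧ (cmach body a out).step x c₁ = some c₂ ∧
      c₁.head = c₂.head ∧
      Rep body a out (some none) ((gop k.1).apply x.length pos)
        (fun j => (oops body a tst k j).eff (L j)) (if bop k.1 then shift u else u) c₂ := by
  have hread : ∀ j, c.read j = tapeOf none (L j) (L j).length := by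
    intro j
    unfold BM.Cfg.read
    rw [hc.tape, hc.head]
  have hr0 : c.read none = some (Sum.inr k) := by
    rw [hread, hk, tapeOf, List.length_cons, Function.update_self]
  have hn1 : cnext body a (some none) (u 0) (cell x pos) c.read =
      some (some (some fun j => (oops body a tst k j).pend), bop k.1,
        gop k.1, fun j => ((oops body a tst k j).wr none (c.read j),
          (oops body a tst k j).mv none (c.read j))) := by
    rw [htst]
    simp only [cnext, hr0]
  let c₁ : (cmach body a out).Cfg :=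
    { state := some (some fun j => (oops body a tst k j).pend)
      pos := (gop k.1).apply x.length pos
      head := fun j => NTM.wmove ((oops body a tst k j).mv none (c.read j)) (c.head j)
      tape := fun j => Function.update (c.tape j) (c.head j)
        ((oops body a tst k j).wr none (c.read j))
      bits := if bop k.1 then shift u else u }
  have h1 : (cmach body a out).step x c = some c₁ := by
    unfold BM.step
    have e1 : (cmach body a out).next c.state (c.bits 0) (cell x c.pos) c.read =
        cnext body a (some none) (u 0) (cell x pos) c.read := by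
      rw [hc.state, hc.pos, hc.bits]
      rfl
    rw [e1, hn1, hc.pos, hc.bits]
    rfl
  let c₂ : (cmach body a out).Cfg :=
    { state := some none
      pos := (gop k.1).apply x.length pos
      head := c₁.head
      tape := fun j => Function.update (c₁.tape j) (c₁.head j)
        (((oops body a tst k j).pend).getD (c₁.read j))
      bits := if bop k.1 then shift u else u }
  have h2 : (cmach body a out).step x c₁ = some c₂ := rfl
  refine ⟨c₁, c₂, h1, h2, rfl, ?_⟩
  have wm : ∀ m i, NTM.wmove m i = TM.wmove m i := by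
    intro m i
    cases m <;> rfl
  have hcor : ∀ j, TM.wmove ((oops body a tst k j).mv none (tapeOf none (L j) (L j).length))
      (L j).length = ((oops body a tst k j).eff (L j)).length ∧ _ := fun j =>
    (oops body a tst k j).correct none (L j) (hL j) (by
      intro hneed hnil
      cases j with
      | none => rw [hk] at hnil; exact absurd hnil (by simp)
      | some i =>
        have h3 : ∀ s : GStmt α ι Γ F, ¬((dop s i).map
            (fun g => (some (Sum.inl g) : GSym body a))).needs := by
          intro s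
          unfold dop
          split
          · split_ifs <;> exact id
          · split_ifs <;> exact id
          · exact id
        exact h3 _ hneed)
  constructor
  · rfl
  · rfl
  · intro j
    change NTM.wmove ((oops body a tst k j).mv none (c.read j)) (c.head j) = _
    rw [wm, hread, hc.head, (hcor j).1]
  · intro j
    change Function.update (c₁.tape j) (c₁.head j) (((oops body a tst k j).pend).getD
      (c₁.tape j (c₁.head j))) = _
    refine (getD_pend (oops body a tst k j) (c₁.tape j) (c₁.head j)).trans ?_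
    have h4 := (hcor j).2
    have h5 : c₁.tape j = Function.update (tapeOf none (L j)) (L j).length
        ((oops body a tst k j).wr none (tapeOf none (L j) (L j).length)) := by
      change Function.update (c.tape j) (c.head j) ((oops body a tst k j).wr none (c.read j)) = _
      rw [hread j, hc.tape j, hc.head j]
      rfl
    have h6 : c₁.head j = TM.wmove ((oops body a tst k j).mv none
        (tapeOf none (L j) (L j).length)) (L j).length := by
      change NTM.wmove ((oops body a tst k j).mv none (c.read j)) (c.head j) = _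
      rw [wm, hread j, hc.head j]
    rw [h5, h6]
    exact h4
  · rfl

variable (body a) in
/-- The contents of the tapes. -/
def conts (κ : List (closure body a)) (s : (ι → List Γ) × ℕ) : Option ι → List (GSym body a)
  | none => κ.map fun c => some (Sum.inr c)
  | some i => (s.1 i).map fun g => some (Sum.inl g)

omit [Finite ι] [Finite Γ] [Finite F] in
theorem conts_ne (κ : List (closure body a)) (s : (ι → List Γ) × ℕ) (j : Option ι) :
    ∀ u ∈ conts body a κ s j, u ≠ none := by
  intro u hu
  cases j with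
  | none =>
    simp only [conts, List.mem_map] at hu
    obtain ⟨c, _, rfl⟩ := hu
    simp
  | some i =>
    simp only [conts, List.mem_map] at hu
    obtain ⟨c, _, rfl⟩ := hu
    simp

theorem rtest_iff {x : List α} {m : ℕ} {κ : List (closure body a)} {s : (ι → List Γ) × ℕ}
    {u : ℕ → Bool}
    {c : (cmach body a out).Cfg} (hc : Rep body a out (some none) s.2 (conts body a κ s) u c)
    (t : STest α ι Γ ⊕ Unit) :
    rtest body a (u 0) (cell x s.2) c.read t ↔ (ext (ssem x m)).test t (s, u) := by
  have hread : ∀ i, c.read (some i) = tapeOf none (conts body a κ s (some i))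
      (conts body a κ s (some i)).length := by
    intro i
    unfold BM.Cfg.read
    rw [hc.tape, hc.head]
  have h : ∀ i, c.read (some i) = (s.1 i).head?.map fun g => Sum.inl g := by
    intro i
    rw [hread]
    cases h : s.1 i with
    | nil => simp [conts, h, tapeOf]
    | cons g l =>
      simp only [conts, h, List.map_cons, tapeOf, List.length_cons, Function.update_self,
        List.head?_cons, Option.map_some]
  rcases t with t | t
  · cases t with
    | top i g =>
      simp only [rtest, ext, ssem, h]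
      cases (s.1 i).head? <;> simp
    | ne i =>
      simp only [rtest, ext, ssem, h]
      cases s.1 i <;> simp
    | cell c => simp only [rtest, ext, ssem]
  · rfl

/-- Runs all of whose configurations satisfy a condition. -/
inductive Run {A : BM α} (x : List α) (B : A.Cfg → Prop) : A.Cfg → A.Cfg → Prop
  | refl (c : A.Cfg) (h : B c) : Run x B c c
  | head (c c' c'' : A.Cfg) (h : B c) (h' : A.step x c = some c') (h'' : Run x B c' c'') :
      Run x B c c''

theorem Run.trans {A : BM α} {x : List α} {B : A.Cfg → Prop} {c c' c'' : A.Cfg}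
    (h : Run x B c c') (h' : Run x B c' c'') : Run x B c c'' := by
  induction h with
  | refl => exact h'
  | head c d e h1 h2 _ ih => exact Run.head _ _ _ h1 h2 (ih h')

/-- The condition on the space. -/
def Fits (A : BM α) (b : ℕ) (c : A.Cfg) : Prop := ∀ j, c.head j ≤ b

/-- The programs on the control stack. -/
theorem exec_run {x : List α} {m : ℕ} {d : ℕ} {p : GStmt α ι Γ F}
    {s t : ((ι → List Γ) × ℕ) × (ℕ → Bool)}
    (h : Exec (ext (ssem x m)) body d p s t) : ∀ (hp : p ∈ closure body a)
      (κ : List (closure body a))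
      (c : (cmach body a out).Cfg), (∀ i, (s.1.1 i).length ≤ m) →
      Rep body a out (some none) s.1.2 (conts body a (⟨p, hp⟩ :: κ) s.1) s.2 c →
      ∃ c', Run x (Fits (cmach body a out) (max m (κ.length + d + 1))) c c' ∧
        Rep body a out (some none) t.1.2 (conts body a κ t.1) t.2 c' ∧
        (∀ i, (t.1.1 i).length ≤ m) := by
  -- one step of the control
  have key : ∀ (p : GStmt α ι Γ F) (hp : p ∈ closure body a) (κ : List (closure body a))
      (s : ((ι → List Γ) × ℕ) × (ℕ → Bool)) (c : (cmach body a out).Cfg) (b : ℕ)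
      (s' : ((ι → List Γ) × ℕ) × (ℕ → Bool))
      (κ' : List (closure body a)),
      Rep body a out (some none) s.1.2 (conts body a (⟨p, hp⟩ :: κ) s.1) s.2 c →
      (∀ i, (s.1.1 i).length ≤ b) → κ.length + 1 ≤ b → (∀ i, (s'.1.1 i).length ≤ b) →
      κ'.length ≤ b →
      (cop body a ((ext (ssem x m)).test · s) ⟨p, hp⟩).eff (⟨p, hp⟩ :: κ) = κ' →
      (∀ i, (dop p i).eff (s.1.1 i) = s'.1.1 i) → (gop p).apply x.length s.1.2 = s'.1.2 →
      (if bop p then shift s.2 else s.2) = s'.2 →
      ∃ c', Run x (Fits (cmach body a out) b) c c' ∧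
        Rep body a out (some none) s'.1.2 (conts body a κ' s'.1) s'.2 c' := by
    intro p hp κ s c b s' κ' hc hs hκ hs' hκ' e1 e2 e3 e4
    have htst : ((ext (ssem x m)).test · s) = rtest body a (s.2 0) (cell x s.1.2) c.read := by
      funext t
      exact propext (rtest_iff hc t).symm
    obtain ⟨c₁, c₂, h1, h2, h3, h4⟩ := two_steps hc (conts_ne _ _) ⟨p, hp⟩
      (κ.map fun c => some (Sum.inr c)) rfl _ htst
    have h5 : Rep body a out (some none) s'.1.2 (conts body a κ' s'.1) s'.2 c₂ := by
      have h6 : (fun j => (oops body a ((ext (ssem x m)).test · s) ⟨p, hp⟩ j).eff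
          (conts body a (⟨p, hp⟩ :: κ) s.1 j)) = conts body a κ' s'.1 := by
        funext j
        cases j with
        | none =>
          change (Op.map _ _).eff (List.map _ _) = _
          rw [Op.eff_map, e1]
          rfl
        | some i =>
          change (Op.map _ _).eff (List.map _ _) = _
          rw [Op.eff_map, e2]
          rfl
      rw [h6] at h4
      change Rep body a out (some none) ((gop p).apply x.length s.1.2) _
        (if bop p then shift s.2 else s.2) c₂ at h4
      rw [e3, e4] at h4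
      exact h4
    have fit : ∀ (κ : List (closure body a)) (s : ((ι → List Γ) × ℕ) × (ℕ → Bool))
        (c : (cmach body a out).Cfg),
        Rep body a out (some none) s.1.2 (conts body a κ s.1) s.2 c → κ.length ≤ b →
        (∀ i, (s.1.1 i).length ≤ b) → Fits (cmach body a out) b c := by
      intro κ s c hc h1 h2 j
      rw [hc.head]
      cases j with
      | none => simpa [conts] using h1
      | some i => simpa [conts] using h2 i
    have f0 := fit (⟨p, hp⟩ :: κ) s c hc (by simpa using hκ) hs
    have f2 := fit κ' s' c₂ h5 hκ' hs'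
    have f1 : Fits (cmach body a out) b c₁ := by
      intro j
      rw [h3]
      exact f2 j
    exact ⟨c₂, Run.head _ _ _ f0 h1 (Run.head _ _ _ f1 h2 (Run.refl _ f2)), h5⟩
  induction h with
  | skip d s =>
    intro hp κ c hs hc
    obtain ⟨c', h1, h2⟩ := key _ hp κ s c (max m (κ.length + d + 1)) s κ hc
      (fun i => (hs i).trans (le_max_left _ _)) (le_max_of_le_right (by omega))
      (fun i => (hs i).trans (le_max_left _ _)) (le_max_of_le_right (by omega)) rfl
      (fun i => rfl) rfl rfl
    exact ⟨c', h1, h2, hs⟩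
  | prim d q s h =>
    intro hp κ c hs hc
    have hs' : ∀ i, (((ext (ssem x m)).act q s).1.1 i).length ≤ m := by
      intro i
      rcases q with q | q
      · cases q with
        | push j g =>
          simp only [ext, ssem]
          by_cases hi : i = j
          · subst hi
            rw [upd_self, List.length_cons]
            exact h
          · rw [upd_ne hi]
            exact hs i
        | pop j =>
          simp only [ext, ssem]
          by_cases hi : i = j
          · subst hi
            rw [upd_self, List.length_tail]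
            have := hs i
            omega
          · rw [upd_ne hi]
            exact hs i
        | go mv => exact hs i
      · exact hs i
    obtain ⟨c', h1, h2⟩ := key _ hp κ s c (max m (κ.length + d + 1)) ((ext (ssem x m)).act q s) κ hc
      (fun i => (hs i).trans (le_max_left _ _)) (le_max_of_le_right (by omega))
      (fun i => (hs' i).trans (le_max_left _ _)) (le_max_of_le_right (by omega)) rfl
      (by
        intro i
        rcases q with q | q
        · cases q with
          | push j g =>
            simp only [ext, ssem, dop]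
            by_cases hi : i = j
            · subst hi
              simp [Op.eff, upd_self]
            · simp [Op.eff, hi, upd_ne]
          | pop j =>
            simp only [ext, ssem, dop]
            by_cases hi : i = j
            · subst hi
              simp [Op.eff, upd_self]
            · simp [Op.eff, hi, upd_ne]
          | go mv => rfl
        · rfl)
      (by
        rcases q with q | q
        · cases q with
          | push j g => rfl
          | pop j => rfl
          | go mv => rfl
        · rfl)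
      (by
        rcases q with q | q
        · cases q <;> rfl
        · rfl)
    exact ⟨c', h1, h2, hs'⟩
  | seq d p q s t u _ _ ih₁ ih₂ =>
    intro hp κ c hs hc
    have hp1 : p ∈ closure body a := closure_subs hp (by simp [Stmt.subs, Stmt.mem_subs])
    have hq1 : q ∈ closure body a := closure_subs hp (by simp [Stmt.subs, Stmt.mem_subs])
    obtain ⟨c₁, h1, h2⟩ := key _ hp κ s c (max m (κ.length + (d + 1) + 1)) s
      (⟨p, hp1⟩ :: ⟨q, hq1⟩ :: κ) hc
      (fun i => (hs i).trans (le_max_left _ _)) (le_max_of_le_right (by omega))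
      (fun i => (hs i).trans (le_max_left _ _))
      (le_max_of_le_right (by simp only [List.length_cons]; omega)) rfl (fun i => rfl) rfl rfl
    obtain ⟨c₂, h3, h4, h5⟩ := ih₁ hp1 (⟨q, hq1⟩ :: κ) c₁ hs h2
    obtain ⟨c₃, h6, h7, h8⟩ := ih₂ hq1 κ c₂ h5 h4
    refine ⟨c₃, (h1.trans ?_).trans h6, h7, h8⟩
    rw [List.length_cons, show κ.length + 1 + d + 1 = κ.length + (d + 1) + 1 by omega] at h3
    exact h3
  | iteT d t p q s u h _ ih =>
    intro hp κ c hs hc
    have hp1 : p ∈ closure body a := closure_subs hp (by simp [Stmt.subs, Stmt.mem_subs])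
    obtain ⟨c₁, h1, h2⟩ := key _ hp κ s c (max m (κ.length + d + 1)) s
      (⟨p, hp1⟩ :: κ) hc
      (fun i => (hs i).trans (le_max_left _ _)) (le_max_of_le_right (by omega))
      (fun i => (hs i).trans (le_max_left _ _))
      (le_max_of_le_right (by simp only [List.length_cons]; omega)) (by
        simp only [cop, h, if_true, Op.eff, List.tail_cons]) (fun i => rfl) rfl rfl
    obtain ⟨c₂, h3, h4, h5⟩ := ih hp1 κ c₁ hs h2
    exact ⟨c₂, h1.trans h3, h4, h5⟩
  | iteF d t p q s u h _ ih =>
    intro hp κ c hs hc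
    have hq1 : q ∈ closure body a := closure_subs hp (by simp [Stmt.subs, Stmt.mem_subs])
    obtain ⟨c₁, h1, h2⟩ := key _ hp κ s c (max m (κ.length + d + 1)) s
      (⟨q, hq1⟩ :: κ) hc
      (fun i => (hs i).trans (le_max_left _ _)) (le_max_of_le_right (by omega))
      (fun i => (hs i).trans (le_max_left _ _))
      (le_max_of_le_right (by simp only [List.length_cons]; omega)) (by
        simp only [cop, h, if_false, Op.eff, List.tail_cons]) (fun i => rfl) rfl rfl
    obtain ⟨c₂, h3, h4, h5⟩ := ih hq1 κ c₁ hs h2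
    exact ⟨c₂, h1.trans h3, h4, h5⟩
  | loopF d t p s h =>
    intro hp κ c hs hc
    obtain ⟨c₁, h1, h2⟩ := key _ hp κ s c (max m (κ.length + d + 1)) s κ hc
      (fun i => (hs i).trans (le_max_left _ _)) (le_max_of_le_right (by omega))
      (fun i => (hs i).trans (le_max_left _ _)) (le_max_of_le_right (by omega)) (by
        simp only [cop, h, if_false, Op.eff, List.tail_cons]) (fun i => rfl) rfl rfl
    exact ⟨c₁, h1, h2, hs⟩
  | loopT d t p s u v h _ _ ih₁ ih₂ =>
    intro hp κ c hs hc
    have hp1 : p ∈ closure body a := closure_subs hp (by simp [Stmt.subs, Stmt.mem_subs])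
    obtain ⟨c₁, h1, h2⟩ := key _ hp κ s c (max m (κ.length + (d + 1) + 1)) s
      (⟨p, hp1⟩ :: ⟨_, hp⟩ :: κ) hc
      (fun i => (hs i).trans (le_max_left _ _)) (le_max_of_le_right (by omega))
      (fun i => (hs i).trans (le_max_left _ _))
      (le_max_of_le_right (by simp only [List.length_cons]; omega)) (by
        simp only [cop, h, if_true, Op.eff]) (fun i => rfl) rfl rfl
    obtain ⟨c₂, h3, h4, h5⟩ := ih₁ hp1 (⟨_, hp⟩ :: κ) c₁ hs h2
    obtain ⟨c₃, h6, h7, h8⟩ := ih₂ hp κ c₂ h5 h4
    refine ⟨c₃, (h1.trans ?_).trans h6, h7, h8⟩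
    rw [List.length_cons, show κ.length + 1 + d + 1 = κ.length + (d + 1) + 1 by omega] at h3
    exact h3
  | call d f s u _ ih =>
    intro hp κ c hs hc
    obtain ⟨c₁, h1, h2⟩ := key _ hp κ s c (max m (κ.length + d + 1)) s
      (⟨body f, closure_body body a f⟩ :: κ) hc
      (fun i => (hs i).trans (le_max_left _ _)) (le_max_of_le_right (by omega))
      (fun i => (hs i).trans (le_max_left _ _))
      (le_max_of_le_right (by simp only [List.length_cons]; omega)) rfl (fun i => rfl) rfl rfl
    obtain ⟨c₂, h3, h4, h5⟩ := ih (closure_body body a f) κ c₁ hs h2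
    exact ⟨c₂, h1.trans h3, h4, h5⟩

/-- All configurations reached are on a run which ends in a halting configuration. -/
theorem reach_run {A : BM α} {x : List α} {w : ℕ → Bool} {B : A.Cfg → Prop} {e : A.Cfg}
    (h : Run x B (A.init w) e) (he : A.step x e = none) {c : A.Cfg} (hc : A.Reach x w c) :
    Run x B c e := by
  induction hc with
  | start => exact h
  | step c c' _ h' ih =>
    cases ih with
    | refl _ h1 => rw [he] at h'; exact absurd h' (by simp)
    | head _ d _ h1 h2 h3 =>
      rw [h2, Option.some.injEq] at h'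
      subst h'
      exact h3

theorem Run.fits {A : BM α} {x : List α} {B : A.Cfg → Prop} {c e : A.Cfg} (h : Run x B c e) :
    B c := by
  cases h with
  | refl _ h1 => exact h1
  | head _ _ _ h1 _ _ => exact h1

theorem Run.reach {A : BM α} {x : List α} {w : ℕ → Bool} {B : A.Cfg → Prop} {c e : A.Cfg}
    (h : Run x B c e) : A.Reach x w c → A.Reach x w e := by
  induction h with
  | refl => exact id
  | head c d e h1 h2 _ ih => exact fun hc => ih (BM.Reach.step _ _ hc h2)

/-- The run of the machine for the sequence of bits `w`. -/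
theorem run_cmach {x : List α} {m d : ℕ} {w : ℕ → Bool} {t : ((ι → List Γ) × ℕ) × (ℕ → Bool)}
    (h1 : Exec (ext (ssem x m)) body d a ((fun _ => [], 0), shift w) t) :
    ∃ e : (cmach body a out).Cfg,
      Run x (Fits (cmach body a out) (max m (d + 1))) ((cmach body a out).init w) e ∧
      (cmach body a out).step x e = none ∧
      ((cmach body a out).accept e.state e.read ↔ t.1.1 out ≠ []) ∧ e.bits = t.2 := by
  set B := Fits (cmach body a out) (max m (d + 1)) with hB
  have ha : a ∈ closure body a := Or.inl a.mem_subs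
  -- the first two steps
  let c₀ : (cmach body a out).Cfg := (cmach body a out).init w
  let c₁ : (cmach body a out).Cfg :=
    { state := some (some (initW body a))
      pos := 0
      head := fun j => NTM.wmove (initM j) 0
      tape := fun _ _ => none
      bits := shift w }
  let c₂ : (cmach body a out).Cfg :=
    { state := some none
      pos := 0
      head := c₁.head
      tape := fun j => tapeOf none (conts body a [⟨a, ha⟩] (fun _ => [], 0) j)
      bits := shift w }
  have s1 : (cmach body a out).step x c₀ = some c₁ :=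
    step_some _ x c₀ c₁ (some (some (initW body a)), true, Move.stay, fun j => (none, initM j)) rfl
      rfl rfl (fun _ => rfl) (fun j => (Function.update_eq_self (c₀.head j) (c₀.tape j)).symm) rfl
  have s2 : (cmach body a out).step x c₁ = some c₂ := by
    refine step_some _ x c₁ c₂ (some none, false, Move.stay,
      fun j => ((initW body a j).getD none, Move.stay)) rfl rfl rfl (fun _ => rfl) ?_ rfl
    intro j
    cases j with
    | none => rfl
    | some i => exact (Function.update_eq_self (c₁.head (some i)) (c₁.tape (some i))).symm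
  have hrep : Rep body a out (some none) 0 (conts body a [⟨a, ha⟩] (fun _ => [], 0)) (shift w)
      c₂ := by
    constructor
    · rfl
    · rfl
    · intro j
      cases j <;> rfl
    · intro j
      rfl
    · rfl
  obtain ⟨e, g1, g2, g3⟩ := exec_run h1 ha [] c₂ (fun _ => Nat.zero_le _) hrep
  rw [List.length_nil, Nat.zero_add] at g1
  have f0 : B c₀ := fun j => Nat.zero_le _
  have f1 : B c₁ := by
    intro j
    cases j with
    | none => exact le_max_of_le_right (by change 1 ≤ _; omega)
    | some i => exact Nat.zero_le _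
  have hhalt : (cmach body a out).step x e = none := by
    unfold BM.step
    have e0 : e.read none = none := by
      unfold BM.Cfg.read
      rw [g2.tape, g2.head]
      rfl
    have e1 : (cmach body a out).next e.state (e.bits 0) (cell x e.pos) e.read = none := by
      rw [g2.state]
      change cnext body a (some none) _ _ _ = none
      simp only [cnext, e0]
    rw [e1]
    rfl
  refine ⟨e, Run.head _ _ _ f0 s1 (Run.head _ _ _ f1 s2 g1), hhalt, ?_, g2.bits⟩
  change e.read (some out) ≠ none ↔ _
  have e2 : e.read (some out) = (t.1.1 out).head?.map fun g => Sum.inl g := by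
    unfold BM.Cfg.read
    rw [g2.tape, g2.head]
    cases h : t.1.1 out with
    | nil => simp [conts, h, tapeOf]
    | cons g l =>
      simp only [conts, h, List.map_cons, tapeOf, List.length_cons, Function.update_self,
        List.head?_cons, Option.map_some]
  rw [e2]
  cases t.1.1 out <;> simp

end

/-- The rest of the bits does not change in the last steps. -/
theorem run_cmach_bits {α ι Γ F : Type} [Finite ι] [Finite Γ] [Finite F]
    {body : F → GStmt α ι Γ F} {a : GStmt α ι Γ F} {out : ι}
    {x : List α} {m d : ℕ} {w : ℕ → Bool} {t : ((ι → List Γ) × ℕ) × (ℕ → Bool)}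
    (h1 : Exec (ext (ssem x m)) body d a ((fun _ => [], 0), shift w) t)
    {e : (cmach body a out).Cfg}
    (he : (cmach body a out).Reach x w e) (hs : (cmach body a out).step x e = none) :
    e.bits = t.2 ∧ ((cmach body a out).accept e.state e.read ↔ t.1.1 out ≠ []) ∧
      ∀ j, e.head j ≤ max m (d + 1) := by
  obtain ⟨e', g1, g2, g3, g4⟩ := run_cmach (out := out) h1
  have h4 := reach_run g1 g2 he
  cases h4 with
  | refl _ h5 => exact ⟨g4, g3, h5⟩
  | head _ _ _ _ h5 => rw [hs] at h5; exact absurd h5 (by simp)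

/-- A program with stacks which terminates on all inputs for all sequences of bits is executed by a
nondeterministic Turing machine whose heads stay below the height of the stacks and the depth of the
execution. -/
theorem exists_NTM {α ι Γ F : Type} [Finite ι] [Finite Γ] [Finite F]
    (body : F → GStmt α ι Γ F) (a : GStmt α ι Γ F) (out : ι) (L : List α → Prop) (m d : ℕ → ℕ)
    (h : ∀ (x : List α) (u : ℕ → Bool), ∃ t, Exec (ext (ssem x (m x.length))) body (d x.length) a
      ((fun _ => [], 0), u) t)
    (hL1 : ∀ (x : List α) (u : ℕ → Bool) (t : ((ι → List Γ) × ℕ) × (ℕ → Bool)),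
      Exec (ext (ssem x (m x.length))) body (d x.length) a ((fun _ => [], 0), u) t →
        t.1.1 out ≠ [] → L x)
    (hL2 : ∀ x : List α, L x → ∃ (u : ℕ → Bool) (t : ((ι → List Γ) × ℕ) × (ℕ → Bool)),
      Exec (ext (ssem x (m x.length))) body (d x.length) a ((fun _ => [], 0), u) t ∧
        t.1.1 out ≠ [] ∧ t.2 = fun _ => false) :
    ∃ A : NTM α, (A.AcceptsIn L fun n => max (m n) (d n + 1) + 1) ∧
      ((∀ (x : List α) (u u' : ℕ → Bool) (t t' : ((ι → List Γ) × ℕ) × (ℕ → Bool)),
        Exec (ext (ssem x (m x.length))) body (d x.length) a ((fun _ => [], 0), u) t →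
        Exec (ext (ssem x (m x.length))) body (d x.length) a ((fun _ => [], 0), u') t' →
        t.1.1 out ≠ [] → t'.1.1 out ≠ [] → t.2 = (fun _ => false) → t'.2 = (fun _ => false) →
        u = u') → A.Unambiguous) := by
  refine ⟨(cmach body a out).toNTM, fun x => ⟨⟨fun hx => ?_, fun hx => ?_⟩, ?_, ?_⟩,
    fun hU x n f n' f' h1 h2 => ?_⟩
  · obtain ⟨w, c, h0, h1, h2, h3⟩ := BM.of_accepts _ hx
    obtain ⟨t, ht⟩ := h x (shift w)
    exact hL1 x _ t ht ((run_cmach_bits ht h1 h2).2.1.1 h3)
  · obtain ⟨u, t, ht, h1, h2⟩ := hL2 x hx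
    obtain ⟨e, g1, g2, g3, g4⟩ := run_cmach (out := out) (w := consB false u) ht
    refine BM.accepts_of _ (w := consB false u) rfl (g1.reach BM.Reach.start) g2 (g3.2 h1) ?_
    rw [g4, h2]
  · refine BM.no_inf _ fun w _ => ?_
    obtain ⟨t, ht⟩ := h x (shift w)
    obtain ⟨e, g1, g2, g3⟩ := run_cmach (out := out) ht
    exact ⟨e, g1.reach BM.Reach.start, g2⟩
  · rw [BM.spaceOn_iff]
    intro w c h0 h1 j
    obtain ⟨t, ht⟩ := h x (shift w)
    obtain ⟨e, g1, g2, g3⟩ := run_cmach (out := out) ht
    exact Nat.lt_succ_of_le ((reach_run g1 g2 h1).fits j)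
  · refine BM.unamb _ (fun w w' c c' h3 h4 h5 h6 h7 h8 h9 h10 h11 h12 => ?_) n f n' f' h1 h2
    obtain ⟨t, ht⟩ := h x (shift w)
    obtain ⟨t', ht'⟩ := h x (shift w')
    obtain ⟨a1, a2, -⟩ := run_cmach_bits ht h5 h7
    obtain ⟨b1, b2, -⟩ := run_cmach_bits ht' h6 h8
    have h13 := hU x _ _ t t' ht ht' (a2.1 h9) (b2.1 h10) (a1.symm.trans h11) (b1.symm.trans h12)
    rw [← consB_shift w, ← consB_shift w', h13, h3, h4]

end Pool.Agent.Lib.MP_9277c3_lc.NC
end

section
/-!
# Programs which read bits are executed by nondeterministic Turing machines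
-/
namespace Pool.Agent.Lib.MP_9277c3_lc.NC

open CM

theorem all_true {P T F : Type} (a : Stmt P T F) : a.all fun _ => True := by
  induction a with
  | skip => exact trivial
  | prim p => exact trivial
  | seq a b iha ihb => exact ⟨iha, ihb⟩
  | ite t a b iha ihb => exact ⟨iha, ihb⟩
  | loop t a ih => exact ih
  | call f => exact trivial

/-! ### From counters to stacks -/

/-- Programs with counters which read bits, as programs with stacks which read bits. -/
def toS {α ι F : Type} (a : Stmt (CPrim ι ⊕ Unit) (CTest α ι ⊕ Unit) F) :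
    GStmt α (Option ι) Bool F :=
  a.tr (fpx (trC (F := Empty))) (Sum.map trT id)

theorem exec_counter {α ι F : Type} {x : List α} {m d : ℕ}
    {body : F → Stmt (CPrim ι ⊕ Unit) (CTest α ι ⊕ Unit) F}
    {a : Stmt (CPrim ι ⊕ Unit) (CTest α ι ⊕ Unit) F} {s t : ((ι → ℕ) × ℕ) × (ℕ → Bool)}
    (h : Exec (ext (csem x (2 ^ m))) body d a s t)
    (hs : ∀ i, s.1.1 i < 2 ^ m) :
    ∀ s', RC s.1 s' → ∃ t', Exec (ext (ssem x (m + 1))) (fun f => toS (body f)) (d + 5)
      (toS a) (s', s.2) (t', t.2) ∧ RC t.1 t' := by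
  intro s' hs'
  -- all counters are small
  let R : (ι → ℕ) × ℕ → (Option ι → List Bool) × ℕ → Prop :=
    fun s s' => RC s s' ∧ ∀ i, s.1 i < 2 ^ m
  have hlen : ∀ n, n < 2 ^ m → n.bits.length < m + 1 := by
    intro n hn
    rw [Nat.size_eq_bits_len]
    exact Nat.lt_succ_of_le (Nat.size_le.2 hn)
  have hp : ∀ p s s', (csem (α := α) x (2 ^ m)).pre p s → R s s' → ∃ t',
      Exec (ssem x (m + 1)) (fun f : Empty => f.elim) 5 (trC (α := α) p) s' t' ∧
      R ((csem x (2 ^ m)).act p s) t' := by
    rintro p s s' hpre ⟨⟨h1, h2, h3⟩, h4⟩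
    cases p with
    | inc i =>
      refine ⟨_, exec_incS (some i) none (by simp) s' h2 (by rw [h3]; exact hlen _ (h4 i)), ?_, ?_⟩
      · refine ⟨h1, ?_, ?_⟩
        · simp only
          rw [upd_ne (by simp), h2]
        · intro j
          simp only [csem]
          by_cases hj : j = i
          · subst hj
            rw [upd_self, upd_self, h3, linc_bits]
          · rw [upd_ne (by simpa using hj), upd_ne hj, h3]
      · intro j
        simp only [csem]
        by_cases hj : j = i
        · subst hj
          rw [upd_self]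
          exact hpre
        · rw [upd_ne hj]
          exact h4 j
    | dec i =>
      refine ⟨_, exec_decS (some i) none (by simp) s' h2 (s.1 i) (h3 i)
        (by rw [h3]; exact hlen _ (h4 i)), ?_, ?_⟩
      · refine ⟨h1, ?_, ?_⟩
        · simp only
          rw [upd_ne (by simp), h2]
        · intro j
          simp only [csem]
          by_cases hj : j = i
          · subst hj
            rw [upd_self, upd_self, h3, ldec_bits]
          · rw [upd_ne (by simpa using hj), upd_ne hj, h3]
      · intro j
        simp only [csem]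
        by_cases hj : j = i
        · subst hj
          rw [upd_self]
          have := h4 j
          omega
        · rw [upd_ne hj]
          exact h4 j
    | go mv =>
      refine ⟨_, Exec.prim _ _ _ trivial, ⟨?_, h2, h3⟩, h4⟩
      simp only [csem, ssem, h1]
  have ht : ∀ t s s', R s s' → ((ssem x (m + 1)).test (trT t) s' ↔ (csem x (2 ^ m)).test t s) := by
    rintro t s s' ⟨⟨h1, h2, h3⟩, h4⟩
    cases t with
    | nz i =>
      simp only [trT, ssem, csem, h3]
      constructor
      · intro h h0
        rw [h0] at h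
        exact h (by simp)
      · exact bits_ne_nil
    | cell c => simp only [trT, ssem, csem, h1]
  obtain ⟨t', h1, h2⟩ := exec_tr_ext (R := R) hp ht h s' ⟨hs', hs⟩
  exact ⟨t', h1, h2.1⟩

/-! ### From assignments to counters -/

/-- The semantics of programs with assignments which read bits; all values are less than `W`. -/
noncomputable def nsem {α R : Type} (x : List α) (cc : Cell α → ℕ) (W : ℕ) :
    Sem (Asg R ⊕ R) R ((R → ℕ) × (ℕ → Bool)) where
  act p s := match p with
    | Sum.inl p => (upd s.1 p.reg (p.exp.eval x cc s.1), s.2)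
    | Sum.inr r => (upd s.1 r (s.2 0).toNat, shift s.2)
  pre p s := match p with
    | Sum.inl p => p.exp.ok x cc W s.1
    | Sum.inr _ => True
  test r s := s.1 r ≠ 0

/-- The translation of an instruction. -/
def trN {α R F : Type} (cc : Cell α → ℕ) (l : List (Cell α)) (K : ℕ) :
    Asg R ⊕ R → Stmt (CPrim (R ⊕ Fin (K + 1)) ⊕ Unit) (CTest α (R ⊕ Fin (K + 1)) ⊕ Unit) F
  | Sum.inl p => lift0 (trA cc l K p)
  | Sum.inr r => Stmt.seq (lift0 (clr (Sum.inl r)))
      (Stmt.seq (Stmt.ite (Sum.inr ()) (Stmt.prim (Sum.inl (CPrim.inc (Sum.inl r)))) Stmt.skip)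
        (Stmt.prim (Sum.inr ())))

/-- The translation of a test. -/
def trQ (α : Type) {R : Type} (K : ℕ) (r : R) : CTest α (R ⊕ Fin (K + 1)) ⊕ Unit :=
  Sum.inl (trR α K r)

/-- A condition on the assignments. -/
def okP {R : Type} (G : Exp R → Prop) : Asg R ⊕ R → Prop
  | Sum.inl p => G p.exp
  | Sum.inr _ => True

theorem exec_asg {α R F : Type} (cc : Cell α → ℕ) (l : List (Cell α)) (hl : ∀ c, c ∈ l)
    {B D K : ℕ} (hB : ∀ c, cc c ≤ B) {body : F → NStmt R F} {a : NStmt R F}
    (hK : ∀ f, (body f).all (okP fun e => e.ht + 3 ≤ K ∧ e.cd B ≤ D))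
    (ha : a.all (okP fun e => e.ht + 3 ≤ K ∧ e.cd B ≤ D))
    {x : List α} {W d : ℕ} (hW : 1 < W) {s t : (R → ℕ) × (ℕ → Bool)}
    (h : Exec (nsem x cc W) body d a s t)
    (hs : ∀ r, s.1 r < W) :
    ∃ t' : (R ⊕ Fin (K + 1) → ℕ) × ℕ, Exec (ext (csem x W))
      (fun f => (body f).tr (trN cc l K) (trQ α K)) (d + (D + 4)) (a.tr (trN cc l K) (trQ α K))
      ((Sum.elim s.1 fun _ => 0, 0), s.2) (t', t.2) ∧ (∀ r, t'.1 (Sum.inl r) = t.1 r) := by
  let R' : (R → ℕ) × (ℕ → Bool) → ((R ⊕ Fin (K + 1) → ℕ) × ℕ) × (ℕ → Bool) → Prop :=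
    fun s s' => (∀ r, s'.1.1 (Sum.inl r) = s.1 r) ∧ (∀ j, s'.1.1 (Sum.inr j) = 0) ∧
      (∀ r, s.1 r < W) ∧ s'.2 = s.2
  have hp : ∀ (p : Asg R ⊕ R) s s', (okP fun e => e.ht + 3 ≤ K ∧ e.cd B ≤ D) p →
      (nsem x cc W).pre p s → R' s s' → ∃ t', Exec (ext (csem x W))
        (fun f => (body f).tr (trN cc l K) (trQ α K)) (D + 4) (trN cc l K p) s' t' ∧
        R' ((nsem x cc W).act p s) t' := by
    rintro (⟨r, e⟩ | r) ⟨s, u⟩ ⟨s', u'⟩ hg hpre ⟨h1, h2, h3, h3'⟩
    · obtain ⟨hK1, hD1⟩ := hg
      simp only at h1 h2 h3 h3'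
      subst h3'
      obtain ⟨p, h4⟩ := comp_spec (body := fun f : Empty => f.elim) hB hl e 0 s' s
        (by simpa using hK1) hpre h1 (fun j _ _ => h2 _)
      have h5 := h2 ⟨0 % (K + 1), Nat.mod_lt _ (Nat.succ_pos _)⟩
      have hlt : e.eval x cc s < W := Exp.ok.lt hpre
      refine ⟨(_, u'), exec_lift0 (M := csem x W) (Exec.seq (D + 3) _ _ _ _ _
        (h4.mono (by simp only at hD1; omega))
        (Exec.seq (D + 3) _ _ _ _ _ ((exec_clr (Sum.inl r) _).mono (by omega))
          ((exec_mov (tm R K 0) (Sum.inl r) (inl_ne_tm K).symm _ ?_).mono (by omega)))) u',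
        ?_, ?_, ?_, rfl⟩
      · simp only [upd_self, upd_ne (inl_ne_tm K).symm]
        omega
      · intro r'
        by_cases hr : r' = r
        · subst hr
          simp only [nsem, upd_self, upd_ne (inl_ne_tm K).symm]
          rfl
        · have hr' : (Sum.inl r' : R ⊕ Fin (K + 1)) ≠ Sum.inl r := by simpa using hr
          simp only [nsem, upd_ne hr', upd_ne hr, upd_ne (inl_ne_tm K), h1]
      · intro j
        have hj : (Sum.inr j : R ⊕ Fin (K + 1)) ≠ Sum.inl r := by simp
        by_cases hj' : (Sum.inr j : R ⊕ Fin (K + 1)) = tm R K 0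
        · rw [hj'] at hj ⊢
          simp only [upd_ne hj, upd_self]
        · simp only [upd_ne hj, upd_ne hj', h2]
      · intro r'
        by_cases hr : r' = r
        · subst hr
          simp only [nsem, upd_self]
          exact hlt
        · simp only [nsem, upd_ne hr]
          exact h3 r'
    · simp only at h1 h2 h3 h3'
      subst h3'
      have g1 := exec_lift0 (F := F) (body := fun f => (body f).tr (trN cc l K) (trQ α K))
        (exec_clr (x := x) (W := W) (body := fun f : Empty => f.elim) (Sum.inl r) s') u'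
      have g2 : Exec (ext (csem x W)) (fun f => (body f).tr (trN cc l K) (trQ α K)) 0
          (Stmt.ite (Sum.inr ()) (Stmt.prim (Sum.inl (CPrim.inc (Sum.inl r)))) Stmt.skip)
          ((upd s'.1 (Sum.inl r) 0, s'.2), u')
          ((upd s'.1 (Sum.inl r) (u' 0).toNat, s'.2), u') := by
        cases hu : u' 0 with
        | true =>
          refine Exec.iteT (M := ext (csem x W)) _ (Sum.inr ()) _ _ _ _ hu ?_
          refine (Exec.prim (M := ext (csem x W)) _ (Sum.inl (CPrim.inc (Sum.inl r))) _ ?_).cast ?_
          · simp only [ext, csem, upd_self]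
            omega
          · simp only [ext, csem, upd_self, upd_upd]
            rfl
        | false =>
          refine Exec.iteF (M := ext (csem x W)) _ (Sum.inr ()) _ _ _ _ ?_ (Exec.skip _ _)
          simp only [ext]
          rw [hu]
          simp
      have g3 := Exec.prim (M := ext (csem x W))
        (body := fun f => (body f).tr (trN cc l K) (trQ α K)) 0 (Sum.inr ())
        ((upd s'.1 (Sum.inl r) (u' 0).toNat, s'.2), u') trivial
      refine ⟨_, Exec.seq (D + 3) _ _ _ _ _ (g1.mono (by omega)) (Exec.seq (D + 2 + 1) _ _ _ _ _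
        (g2.mono (by omega)) (g3.mono (by omega))), ?_, ?_, ?_, rfl⟩
      · intro r'
        by_cases hr : r' = r
        · subst hr
          simp only [nsem, ext, upd_self]
        · have hr' : (Sum.inl r' : R ⊕ Fin (K + 1)) ≠ Sum.inl r := by simpa using hr
          simp only [nsem, ext, upd_ne hr', upd_ne hr, h1]
      · intro j
        have hj : (Sum.inr j : R ⊕ Fin (K + 1)) ≠ Sum.inl r := by simp
        simp only [ext, upd_ne hj, h2]
      · intro r'
        by_cases hr : r' = r
        · subst hr
          simp only [nsem, upd_self]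
          cases u' 0 <;> simp <;> omega
        · simp only [nsem, upd_ne hr]
          exact h3 r'
  have ht : ∀ t s s', R' s s' → ((ext (csem x W)).test (trQ α K t) s' ↔
      (nsem x cc W).test t s) := by
    rintro t s s' ⟨h1, h2, h3⟩
    simp only [ext, trQ, csem, nsem, h1, trR]
  obtain ⟨⟨t', v'⟩, h1, h2⟩ := Exec.tr (R := R') (ft := trQ α K) hK hp ht h ha
    ((Sum.elim s.1 fun _ => 0, 0), s.2) ⟨fun _ => rfl, fun _ => rfl, hs, rfl⟩
  obtain ⟨h3, -, -, h4⟩ := h2
  simp only at h4
  subst h4
  exact ⟨t', h1, h3⟩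

theorem exists_bound {R F : Type} (f : Exp R → ℕ) (a : NStmt R F) :
    ∃ D, a.all (okP fun e => f e ≤ D) := by
  obtain ⟨D, hD⟩ := Stmt.exists_bound (fun p : Asg R ⊕ R => match p with
    | Sum.inl p => f p.exp
    | Sum.inr _ => 0) a
  refine ⟨D, Stmt.all_mono (fun p hp => ?_) a hD⟩
  rcases p with p | p
  · exact hp
  · exact trivial

theorem exists_bound_all {R F : Type} [Finite F] (f : Exp R → ℕ) (body : F → NStmt R F)
    (a : NStmt R F) : ∃ D, (∀ g, (body g).all (okP fun e => f e ≤ D)) ∧
      a.all (okP fun e => f e ≤ D) := by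
  obtain ⟨D, hD, hD'⟩ := Stmt.exists_bound_all (fun p : Asg R ⊕ R => match p with
    | Sum.inl p => f p.exp
    | Sum.inr _ => 0) body a
  have key : ∀ p : Asg R ⊕ R, (match p with
    | Sum.inl p => f p.exp
    | Sum.inr _ => 0) ≤ D → okP (fun e => f e ≤ D) p := by
    intro p hp
    rcases p with p | p
    · exact hp
    · exact trivial
  exact ⟨D, fun g => Stmt.all_mono key _ (hD g), Stmt.all_mono key _ hD'⟩

theorem cells_bound {α : Type} [Finite α] (cc : Cell α → ℕ) : ∃ B, ∀ c, cc c ≤ B := by
  obtain ⟨l, hl⟩ := exists_cells α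
  refine ⟨l.foldr (fun c b => max (cc c) b) 0, fun c => ?_⟩
  have : ∀ (l : List (Cell α)), c ∈ l → cc c ≤ l.foldr (fun c b => max (cc c) b) 0 := by
    intro l
    induction l with
    | nil => intro h; exact absurd h (by simp)
    | cons e l ih =>
      intro h
      rw [List.foldr_cons]
      rcases List.mem_cons.1 h with rfl | h
      · exact le_max_left _ _
      · exact le_max_of_le_right (ih h)
  exact this l (hl c)

/-- A program with assignments which reads bits, and which terminates on all inputs for all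
sequences of bits, is executed by a nondeterministic Turing machine. Its space is bounded by the
length of the numbers and by the depth of the execution. -/
theorem exists_NTM_of_program {α R F : Type} [Finite α] [Finite R] [Finite F] (cc : Cell α → ℕ)
    (body : F → NStmt R F) (a : NStmt R F) (out : R) :
    ∃ c : ℕ, ∀ (L : List α → Prop) (m d : ℕ → ℕ), (∀ n, 1 ≤ m n) →
      (∀ (x : List α) (u : ℕ → Bool), ∃ t,
        Exec (nsem x cc (2 ^ m x.length)) body (d x.length) a (fun _ => 0, u) t) →
      (∀ x u t, Exec (nsem x cc (2 ^ m x.length)) body (d x.length) a (fun _ => 0, u) t →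
        t.1 out ≠ 0 → L x) →
      (∀ x, L x → ∃ u t,
        Exec (nsem x cc (2 ^ m x.length)) body (d x.length) a (fun _ => 0, u) t ∧ t.1 out ≠ 0 ∧
          t.2 = fun _ => false) →
      ∃ A : NTM α, (A.AcceptsIn L fun n => m n + d n + c) ∧
        ((∀ x u u' t t',
          Exec (nsem x cc (2 ^ m x.length)) body (d x.length) a (fun _ => 0, u) t →
          Exec (nsem x cc (2 ^ m x.length)) body (d x.length) a (fun _ => 0, u') t' →
          t.1 out ≠ 0 → t'.1 out ≠ 0 → t.2 = (fun _ => false) → t'.2 = (fun _ => false) →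
          u = u') → A.Unambiguous) := by
  obtain ⟨l, hl⟩ := exists_cells α
  obtain ⟨B, hB⟩ := cells_bound cc
  obtain ⟨D, hD1, hD2⟩ := exists_bound_all (fun e : Exp R => max (e.ht + 3) (e.cd B)) body a
  have conv : ∀ p : Asg R ⊕ R, (okP fun e => max (e.ht + 3) (e.cd B) ≤ D) p →
      (okP fun e => e.ht + 3 ≤ D ∧ e.cd B ≤ D) p := fun p h => by
    rcases p with p | p
    · exact ⟨(le_max_left _ _).trans h, (le_max_right _ _).trans h⟩
    · exact trivial
  have hG := fun f => Stmt.all_mono conv (body f) (hD1 f)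
  have hGa := Stmt.all_mono conv a hD2
  refine ⟨D + 12, fun L m d hm h hL1 hL2 => ?_⟩
  have tr1 : ∀ (x : List α) (u : ℕ → Bool) (t : (R → ℕ) × (ℕ → Bool)),
      Exec (nsem x cc (2 ^ m x.length)) body (d x.length) a (fun _ => 0, u) t →
      ∃ t' : ((Option (R ⊕ Fin (D + 1)) → List Bool) × ℕ) × (ℕ → Bool),
        Exec (ext (ssem x (m x.length + 1)))
          (fun f => toS ((body f).tr (trN cc l D) (trQ α D))) (d x.length + (D + 4) + 5)
          (toS (a.tr (trN cc l D) (trQ α D))) ((fun _ => [], 0), u) t' ∧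
        (t'.1.1 (some (Sum.inl out)) ≠ [] ↔ t.1 out ≠ 0) ∧ t'.2 = t.2 := by
    intro x u t h1
    have hW : 1 < 2 ^ m x.length := Nat.one_lt_two_pow (by have := hm x.length; omega)
    obtain ⟨t', h3, h4⟩ := exec_asg cc l hl hB hG hGa hW h1 (fun _ => by simp)
    obtain ⟨t'', h5, h6⟩ := exec_counter h3 (fun i => by
      cases i <;> simp) (fun _ => [], 0) ⟨rfl, rfl, fun i => by cases i <;> simp⟩
    refine ⟨(t'', t.2), h5, ?_, rfl⟩
    rw [h6.2.2, h4]
    constructor
    · intro h7 h8
      rw [h8] at h7
      exact h7 (by simp)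
    · exact bits_ne_nil
  have tr2 : ∀ (x : List α) (u : ℕ → Bool)
      (t' : ((Option (R ⊕ Fin (D + 1)) → List Bool) × ℕ) × (ℕ → Bool)),
      Exec (ext (ssem x (m x.length + 1)))
          (fun f => toS ((body f).tr (trN cc l D) (trQ α D))) (d x.length + (D + 4) + 5)
          (toS (a.tr (trN cc l D) (trQ α D))) ((fun _ => [], 0), u) t' →
      ∃ t, Exec (nsem x cc (2 ^ m x.length)) body (d x.length) a (fun _ => 0, u) t ∧
        (t'.1.1 (some (Sum.inl out)) ≠ [] ↔ t.1 out ≠ 0) ∧ t'.2 = t.2 := by
    intro x u t' h3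
    obtain ⟨t, ht⟩ := h x u
    obtain ⟨t'', h5, h6, h7⟩ := tr1 x u t ht
    have hdet : t' = t'' := Exec.det h3 h5
    subst hdet
    exact ⟨t, ht, h6, h7⟩
  have key := exists_NTM (α := α) (fun f => toS ((body f).tr (trN cc l D) (trQ α D)))
    (toS (a.tr (trN cc l D) (trQ α D))) (some (Sum.inl out)) L (fun n => m n + 1)
    (fun n => d n + (D + 4) + 5) (fun x u => by
      obtain ⟨t, ht⟩ := h x u
      obtain ⟨t', h1, -⟩ := tr1 x u t ht
      exact ⟨t', h1⟩) (fun x u t' h1 h2 => by
      obtain ⟨t, h3, h4, -⟩ := tr2 x u t' h1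
      exact hL1 x u t h3 (h4.1 h2)) (fun x hx => by
      obtain ⟨u, t, h1, h2, h3⟩ := hL2 x hx
      obtain ⟨t', h4, h5, h6⟩ := tr1 x u t h1
      exact ⟨u, t', h4, h5.2 h2, h6.trans h3⟩)
  obtain ⟨A, hA, hA'⟩ := key
  refine ⟨A, fun x => ⟨(hA x).1, (hA x).2.1, fun c hc j => ?_⟩, fun hU => hA' ?_⟩
  · have h1 := (hA x).2.2 c hc j
    simp only at h1 ⊢
    refine h1.trans_le ?_
    rw [max_add_add_right, ← Nat.succ_eq_add_one]
    omega
  · intro x u u' t t' h1 h2 h3 h4 h5 h6
    obtain ⟨r, g1, g2, g3⟩ := tr2 x u t h1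
    obtain ⟨r', g1', g2', g3'⟩ := tr2 x u' t' h2
    exact hU x u u' r r' g1 g1' (g2.1 h3) (g2'.1 h4) (g3.symm.trans h5) (g3'.symm.trans h6)

/-! ### From `RunN` to machines -/

section

variable {α R F : Type} {x : List α} {cc : Cell α → ℕ} {A : ℕ} {body : F → NStmt R F}

theorem RunN.toExec {B D c : ℕ} (hB : ∀ c, cc c ≤ B) (hA : 2 ≤ A)
    (hbody : ∀ f, (body f).nd ≤ c ∧ (body f).all (okP fun e => e.deg B ≤ D)) {k : ℕ}
    {a : NStmt R F} {s t : R → ℕ} {u v : ℕ → Bool} (h : RunN x cc A body k a s u t v) :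
    a.nd ≤ c → (a.all (okP fun e => e.deg B ≤ D)) → (∀ r, s r < A) → ∀ W, A ^ D ≤ W →
    Exec (nsem x cc W) body (k * c + a.nd) a (s, u) (t, v) ∧ ∀ r, t r < A := by
  have hA0 : 0 < A := by omega
  induction h with
  | skip k s u => exact fun _ _ hs W _ => ⟨Exec.skip _ _, hs⟩
  | asg k r e s u h =>
    intro _ hD hs W hW
    refine ⟨Exec.prim (M := nsem x cc W) _ (Sum.inl ⟨r, e⟩) (s, u) ?_, fun r' => ?_⟩
    · exact Exp.ok_of_deg hB hA hs e W ((Nat.pow_le_pow_right hA0 hD).trans hW)
    · by_cases h1 : r' = r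
      · rw [h1, upd_self]; exact h
      · rw [upd_ne h1]; exact hs r'
  | flip k r s u =>
    intro _ hD hs W hW
    refine ⟨Exec.prim (M := nsem x cc W) _ (Sum.inr r) (s, u) trivial, fun r' => ?_⟩
    by_cases h1 : r' = r
    · rw [h1, upd_self]
      cases u 0 <;> simp <;> omega
    · rw [upd_ne h1]; exact hs r'
  | seq k a b s t r u v w _ _ ih₁ ih₂ =>
    intro hc hD hs W hW
    simp only [Stmt.nd] at hc ⊢
    obtain ⟨h1, h2⟩ := ih₁ (by omega) hD.1 hs W hW
    obtain ⟨h3, h4⟩ := ih₂ (by omega) hD.2 h2 W hW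
    refine ⟨?_, h4⟩
    rw [← Nat.add_assoc]
    exact Exec.seq _ _ _ _ _ _ (h1.mono (by omega)) (h3.mono (by omega))
  | iteT k q a b s t u v h _ ih =>
    intro hc hD hs W hW
    simp only [Stmt.nd] at hc ⊢
    obtain ⟨h1, h2⟩ := ih (by omega) hD.1 hs W hW
    exact ⟨Exec.iteT _ _ _ _ _ _ h (h1.mono (by omega)), h2⟩
  | iteF k q a b s t u v h _ ih =>
    intro hc hD hs W hW
    simp only [Stmt.nd] at hc ⊢
    obtain ⟨h1, h2⟩ := ih (by omega) hD.2 hs W hW
    exact ⟨Exec.iteF _ _ _ _ _ _ (not_not.2 h) (h1.mono (by omega)), h2⟩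
  | loopF k q a s u h => exact fun _ _ hs W _ => ⟨Exec.loopF _ _ _ _ (not_not.2 h), hs⟩
  | loopT k q a s t r u v w h _ _ ih₁ ih₂ =>
    intro hc hD hs W hW
    obtain ⟨h1, h2⟩ := ih₁ (by simp only [Stmt.nd] at hc; omega) hD hs W hW
    obtain ⟨h3, h4⟩ := ih₂ hc hD h2 W hW
    exact ⟨Exec.loopT _ _ _ _ _ _ h h1 h3, h4⟩
  | call k f s t u v _ ih =>
    intro _ _ hs W hW
    obtain ⟨h1, h2⟩ := ih (hbody f).1 (hbody f).2 hs W hW
    refine ⟨Exec.call _ _ _ _ (h1.mono ?_), h2⟩
    have := (hbody f).1
    simp only [Stmt.nd, Nat.add_mul, Nat.one_mul]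
    omega

/-- Some bits in front of a sequence of bits. -/
def app (l : List Bool) (u : ℕ → Bool) : ℕ → Bool := l.foldr consB u

theorem app_append (l l' : List Bool) (u : ℕ → Bool) : app (l ++ l') u = app l (app l' u) := by
  simp [app]

/-- A run does not depend on the bits which are not read. -/
theorem RunN.rest {k : ℕ} {a : NStmt R F} {s t : R → ℕ} {u v : ℕ → Bool}
    (h : RunN x cc A body k a s u t v) :
    ∃ l, u = app l v ∧ ∀ v', RunN x cc A body k a s (app l v') t v' := by
  induction h with
  | skip k s u => exact ⟨[], rfl, fun v' => RunN.skip _ _ _⟩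
  | asg k r e s u h => exact ⟨[], rfl, fun v' => RunN.asg _ _ _ _ _ h⟩
  | flip k r s u => exact ⟨[u 0], (consB_shift u).symm, fun v' => RunN.flip k r s (consB (u 0) v')⟩
  | seq k a b s t r u v w _ _ ih₁ ih₂ =>
    obtain ⟨l₁, h1, h2⟩ := ih₁
    obtain ⟨l₂, h3, h4⟩ := ih₂
    refine ⟨l₁ ++ l₂, ?_, fun v' => ?_⟩
    · rw [app_append, ← h3, h1]
    · rw [app_append]
      exact RunN.seq _ _ _ _ _ _ _ _ _ (h2 _) (h4 _)
  | iteT k q a b s t u v h _ ih =>
    obtain ⟨l, h1, h2⟩ := ih
    exact ⟨l, h1, fun v' => RunN.iteT _ _ _ _ _ _ _ _ h (h2 v')⟩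
  | iteF k q a b s t u v h _ ih =>
    obtain ⟨l, h1, h2⟩ := ih
    exact ⟨l, h1, fun v' => RunN.iteF _ _ _ _ _ _ _ _ h (h2 v')⟩
  | loopF k q a s u h => exact ⟨[], rfl, fun v' => RunN.loopF _ _ _ _ _ h⟩
  | loopT k q a s t r u v w h _ _ ih₁ ih₂ =>
    obtain ⟨l₁, h1, h2⟩ := ih₁
    obtain ⟨l₂, h3, h4⟩ := ih₂
    refine ⟨l₁ ++ l₂, ?_, fun v' => ?_⟩
    · rw [app_append, ← h3, h1]
    · rw [app_append]
      exact RunN.loopT _ _ _ _ _ _ _ _ _ h (h2 _) (h4 _)
  | call k f s t u v _ ih =>
    obtain ⟨l, h1, h2⟩ := ih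
    exact ⟨l, h1, fun v' => RunN.call _ _ _ _ _ _ (h2 v')⟩

/-- **Programs which read bits are executed by nondeterministic Turing machines.** -/
theorem exists_UNTM_of_run {α R F : Type} [Finite α] [Finite R] [Finite F] (cc : Cell α → ℕ)
    (body : F → NStmt R F) (a : NStmt R F) (out : R) :
    ∃ c : ℕ, ∀ (L : List α → Prop) (A k : ℕ → ℕ), (∀ n, 2 ≤ A n) →
      (∀ (x : List α) (u : ℕ → Bool), ∃ t v,
        RunN x cc (A x.length) body (k x.length) a (fun _ => 0) u t v) →
      (∀ x : List α, L x ↔ ∃ u t v,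
        RunN x cc (A x.length) body (k x.length) a (fun _ => 0) u t v ∧ t out ≠ 0) →
      ∃ M : NTM α, (M.AcceptsIn L fun n => c * (Nat.log 2 (A n) + k n + 1)) ∧
        ((∀ (x : List α) (u u' : ℕ → Bool) (t t' : R → ℕ),
          RunN x cc (A x.length) body (k x.length) a (fun _ => 0) u t (fun _ => false) →
          RunN x cc (A x.length) body (k x.length) a (fun _ => 0) u' t' (fun _ => false) →
          t out ≠ 0 → t' out ≠ 0 → u = u') → M.Unambiguous) := by
  obtain ⟨B, hB⟩ := cells_bound cc
  obtain ⟨D, hD1, hD2⟩ := exists_bound_all (fun e : Exp R => e.deg B) body a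
  obtain ⟨c₁, hc₁⟩ := (Set.finite_range fun f => (body f).nd).bddAbove
  set c₂ := max c₁ a.nd with hc₂
  obtain ⟨c, hc⟩ := exists_NTM_of_program cc body a out
  refine ⟨2 * (D + 1) + c₂ + c + 1, fun L A k hA h hL => ?_⟩
  have tr1 : ∀ (x : List α) (u : ℕ → Bool) t v,
      RunN x cc (A x.length) body (k x.length) a (fun _ => 0) u t v →
      Exec (nsem x cc (2 ^ ((Nat.log 2 (A x.length) + 1) * (D + 1)))) body
        (k x.length * c₂ + a.nd) a (fun _ => 0, u) (t, v) := fun x u t v ht => by
    refine (ht.toExec hB (hA _) (c := c₂) (D := D) (fun f => ⟨?_, hD1 f⟩) (le_max_right _ _) hD2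
      (fun _ => by have := hA x.length; omega) _ ?_).1
    · exact (hc₁ ⟨f, rfl⟩).trans (le_max_left _ _)
    · rw [pow_mul]
      refine (Nat.pow_le_pow_right (by have := hA x.length; omega) (Nat.le_succ D)).trans ?_
      exact Nat.pow_le_pow_left (Nat.lt_pow_succ_log_self (by norm_num) _).le _
  have tr2 : ∀ (x : List α) (u : ℕ → Bool) (t' : (R → ℕ) × (ℕ → Bool)),
      Exec (nsem x cc (2 ^ ((Nat.log 2 (A x.length) + 1) * (D + 1)))) body
        (k x.length * c₂ + a.nd) a (fun _ => 0, u) t' →
      RunN x cc (A x.length) body (k x.length) a (fun _ => 0) u t'.1 t'.2 := fun x u t' h3 => by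
    obtain ⟨t, v, ht⟩ := h x u
    have hdet : t' = (t, v) := Exec.det h3 (tr1 x u t v ht)
    rw [hdet]
    exact ht
  obtain ⟨M, hM, hM'⟩ := hc L (fun n => (Nat.log 2 (A n) + 1) * (D + 1))
    (fun n => k n * c₂ + a.nd)
    (fun n => Nat.one_le_iff_ne_zero.2 (by positivity)) (fun x u => by
      obtain ⟨t, v, h1⟩ := h x u
      exact ⟨_, tr1 x u t v h1⟩) (fun x u t h1 h2 => by
      rw [hL]
      exact ⟨u, t.1, t.2, tr2 x u t h1, h2⟩) (fun x hx => by
      obtain ⟨u, t, v, h1, h2⟩ := (hL x).1 hx
      obtain ⟨l, -, h3⟩ := h1.rest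
      exact ⟨_, (t, fun _ => false), tr1 x _ t _ (h3 fun _ => false), h2, rfl⟩)
  refine ⟨M, fun x => ⟨(hM x).1, (hM x).2.1, fun c' hc' j => ((hM x).2.2 c' hc' j).trans_le ?_⟩,
    fun hU => hM' ?_⟩
  · have h1 : a.nd ≤ c₂ := le_max_right _ _
    simp only
    nlinarith [Nat.zero_le (Nat.log 2 (A x.length) * D), Nat.zero_le (Nat.log 2 (A x.length) * c₂),
      Nat.zero_le (Nat.log 2 (A x.length) * c), Nat.zero_le (k x.length * D),
      Nat.zero_le (k x.length * c), Nat.zero_le (k x.length), Nat.zero_le (Nat.log 2 (A x.length))]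
  · rintro x u u' ⟨t, v⟩ ⟨t', v'⟩ h1 h2 h3 h4 h5 h6
    simp only at h3 h4 h5 h6
    subst h5 h6
    exact hU x u u' t t' (tr2 x u _ h1) (tr2 x u' _ h2) h3 h4

/-- **Programs which read bits are executed by nondeterministic Turing machines.** -/
theorem exists_NTM_of_run {α R F : Type} [Finite α] [Finite R] [Finite F] (cc : Cell α → ℕ)
    (body : F → NStmt R F) (a : NStmt R F) (out : R) :
    ∃ c : ℕ, ∀ (L : List α → Prop) (A k : ℕ → ℕ), (∀ n, 2 ≤ A n) →
      (∀ (x : List α) (u : ℕ → Bool), ∃ t v,
        RunN x cc (A x.length) body (k x.length) a (fun _ => 0) u t v) →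
      (∀ x : List α, L x ↔ ∃ u t v,
        RunN x cc (A x.length) body (k x.length) a (fun _ => 0) u t v ∧ t out ≠ 0) →
      ∃ M : NTM α, M.AcceptsIn L fun n => c * (Nat.log 2 (A n) + k n + 1) := by
  obtain ⟨c, hc⟩ := exists_UNTM_of_run cc body a out
  refine ⟨c, fun L A k hA h hL => ?_⟩
  obtain ⟨M, hM, -⟩ := hc L A k hA h hL
  exact ⟨M, hM⟩

end

end Pool.Agent.Lib.MP_9277c3_lc.NC
end

section
/-!
# Guessing a number

The program `guess out rN i b` writes a number which is less than the value `N` of the register `rN`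
to the register `out`; it reads `Nat.size (N - 1)` bits. If `N` is a power of two, then sequences of
bits correspond to pairs of a number and a sequence of bits.
-/
namespace Pool.Agent.Lib.MP_9277c3_lc.NC

open CM

/-- The number with the binary digits `u 0, ..., u (k - 1)`, first the highest one. -/
def gb : ℕ → (ℕ → Bool) → ℕ
  | 0, _ => 0
  | k + 1, u => 2 * gb k u + (u k).toNat

/-- The sequence without its first `k` bits. -/
def sh (k : ℕ) (u : ℕ → Bool) : ℕ → Bool := fun j => u (j + k)

theorem sh_zero (u : ℕ → Bool) : sh 0 u = u := rfl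

theorem sh_succ (k : ℕ) (u : ℕ → Bool) : sh (k + 1) u = shift (sh k u) := by
  funext j
  simp only [sh, shift]
  congr 1
  omega

theorem gb_lt (k : ℕ) (u : ℕ → Bool) : gb k u < 2 ^ k := by
  induction k with
  | zero => simp [gb]
  | succ k ih =>
    rw [gb, pow_succ]
    cases u k <;> simp <;> omega

theorem gb_surj (k : ℕ) : ∀ v < 2 ^ k, ∀ g : ℕ → Bool, ∃ u, gb k u = v ∧ sh k u = g := by
  induction k with
  | zero =>
    intro v hv g
    rw [pow_zero, Nat.lt_one_iff] at hv
    exact ⟨g, hv.symm, rfl⟩
  | succ k ih =>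
    intro v hv g
    rw [pow_succ] at hv
    obtain ⟨u, h1, h2⟩ := ih (v / 2) (by omega) (consB (decide (v % 2 = 1)) g)
    refine ⟨u, ?_, ?_⟩
    · have h3 : u k = decide (v % 2 = 1) := by
        have h4 := congrFun h2 0
        simpa [sh] using h4
      rw [gb, h1, h3]
      rcases Nat.mod_two_eq_zero_or_one v with h | h <;> simp [h] <;> omega
    · rw [sh_succ, h2]
      rfl

theorem gb_inj (k : ℕ) : ∀ u u' : ℕ → Bool, gb k u = gb k u' → sh k u = sh k u' → u = u' := by
  induction k with
  | zero => exact fun u u' _ h => h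
  | succ k ih =>
    intro u u' h1 h2
    have h3 : u k = u' k := by
      simp only [gb] at h1
      cases h4 : u k <;> cases h5 : u' k <;> rw [h4, h5] at h1 <;> simp at h1 ⊢ <;> omega
    refine ih u u' ?_ ?_
    · simp only [gb, h3] at h1
      omega
    · rw [sh_succ, sh_succ] at h2
      funext j
      cases j with
      | zero => simpa [sh] using h3
      | succ j => exact congrFun h2 j

/-- The number which is guessed. -/
def gval (N : ℕ) (u : ℕ → Bool) : ℕ :=
  if gb (Nat.size (N - 1)) u < N then gb (Nat.size (N - 1)) u else 0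

/-- The rest of the bits. -/
def grest (N : ℕ) (u : ℕ → Bool) : ℕ → Bool := sh (Nat.size (N - 1)) u

theorem gval_lt {N : ℕ} (hN : 0 < N) (u : ℕ → Bool) : gval N u < N := by
  unfold gval
  split_ifs with h
  · exact h
  · exact hN

/-- All numbers can be guessed. -/
theorem guess_surj {N v : ℕ} (hv : v < N) (g : ℕ → Bool) : ∃ u, gval N u = v ∧ grest N u = g := by
  have h1 : v < 2 ^ Nat.size (N - 1) := by
    have := Nat.lt_size_self (N - 1)
    omega
  obtain ⟨u, h2, h3⟩ := gb_surj _ v h1 g
  refine ⟨u, ?_, h3⟩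
  rw [gval, h2, if_pos hv]

/-- If `N` is a power of two, then the bits are determined by the number and the rest. -/
theorem guess_inj {k : ℕ} {u u' : ℕ → Bool} (h1 : gval (2 ^ k) u = gval (2 ^ k) u')
    (h2 : grest (2 ^ k) u = grest (2 ^ k) u') : u = u' := by
  have h3 : Nat.size (2 ^ k - 1) = k := by
    rcases Nat.eq_zero_or_pos k with rfl | hk
    · simp
    · refine le_antisymm (Nat.size_le.2 (by have := Nat.two_pow_pos k; omega)) ?_
      by_contra h
      have h4 := Nat.size_le.1 (show Nat.size (2 ^ k - 1) ≤ k - 1 by omega)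
      have h5 : 2 ^ k = 2 * 2 ^ (k - 1) := by
        rw [← pow_succ', show k - 1 + 1 = k by omega]
      have := Nat.two_pow_pos (k - 1)
      omega
  rw [gval, gval, h3, if_pos (gb_lt _ _), if_pos (gb_lt _ _)] at h1
  rw [grest, grest, h3] at h2
  exact gb_inj k u u' h1 h2

section

variable {α R F : Type} {x : List α} {cc : Cell α → ℕ} {A : ℕ} {body : F → NStmt R F}

/-- Write a number which is less than the number in `rN` to `out`; `i` and `b` are auxiliary
registers. -/
def guess (out rN i b : R) : NStmt R F :=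
  sqN [asg out 0, asg i (Exp.var rN - 1),
    Stmt.loop i (sqN [flip b, asg out (2 * Exp.var out + Exp.var b), asg i (Exp.var i / 2)]),
    asg b 0, asg out (Exp.var out * (1 - (Exp.var out + 1 - Exp.var rN)))]

theorem run_guess {out rN i b : R} (h1 : out ≠ rN) (h2 : out ≠ i) (h3 : out ≠ b) (h4 : rN ≠ i)
    (h5 : rN ≠ b) (h6 : i ≠ b) {s : R → ℕ} (hi : s i = 0) (hb : s b = 0) (hA : 2 * s rN ≤ A)
    (hN : 0 < s rN) (k : ℕ) (u : ℕ → Bool) :
    RunN x cc A body k (guess out rN i b) s u (upd s out (gval (s rN) u)) (grest (s rN) u) := by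
  set N := s rN with hNdef
  set L := Nat.size (N - 1) with hL
  have hpow : 2 ^ L ≤ A := by
    rcases Nat.eq_zero_or_pos (N - 1) with h0 | h0
    · rw [hL, h0, Nat.size_zero, pow_zero]
      omega
    · have h7 : ¬Nat.size (N - 1) ≤ L - 1 := by
        have : 0 < Nat.size (N - 1) := Nat.size_pos.2 h0
        omega
      rw [Nat.size_le, not_lt] at h7
      have h8 : 0 < L := Nat.size_pos.2 h0
      have h9 : 2 ^ L = 2 * 2 ^ (L - 1) := by
        rw [← pow_succ', show L - 1 + 1 = L by omega]
      omega
  -- the states in the loop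
  let g : ℕ → R → ℕ := fun n => upd (upd (upd s out (gb n u)) i ((N - 1) / 2 ^ n)) b
    (if n = 0 then 0 else (u (n - 1)).toNat)
  have hloop := RunN.seqLoop (x := x) (cc := cc) (A := A) (body := body) (k := k) i
    (sqN [flip b, asg out (2 * Exp.var out + Exp.var b), asg i (Exp.var i / 2)]) g
    (fun n => sh n u) L (fun n hn => by
      simp only [g, upd_ne h6, upd_self]
      intro h0
      rw [Nat.div_eq_zero_iff] at h0
      rcases h0 with h0 | h0
      · exact absurd h0 (by positivity)
      · have := Nat.size_le.2 h0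
        omega) (by
      simp only [g, upd_ne h6, upd_self]
      exact Nat.div_eq_of_lt (Nat.lt_size_self _)) (fun n hn => by
      have hg := gb_lt (n + 1) u
      have hle : 2 ^ (n + 1) ≤ 2 ^ L := Nat.pow_le_pow_right (by norm_num) hn
      rw [sh_succ]
      refine RunN.flips (RunN.set (gb (n + 1) u) ?_ (by omega) (RunN.set ((N - 1) / 2 ^ (n + 1)) ?_
        ?_ ((RunN.nil).cast ?_)))
      · simp only [eval_add, eval_mul, eval_ofNat, eval_var, g, upd_self, upd_ne h3, upd_ne h2,
          gb, sh, Nat.zero_add]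
      · simp only [eval_div, eval_ofNat, eval_var, g, upd_self, upd_ne h3, upd_ne h2.symm,
          upd_ne h6]
        rw [Nat.div_div_eq_div_mul, ← pow_succ]
      · have := Nat.div_le_self (N - 1) (2 ^ (n + 1))
        omega
      · funext q
        simp only [g, Nat.add_sub_cancel, if_neg (Nat.succ_ne_zero n), sh, Nat.zero_add]
        by_cases q1 : q = i
        · subst q1
          simp only [upd_self, upd_ne h6]
        · by_cases q2 : q = out
          · subst q2
            simp only [upd_ne q1, upd_self, upd_ne h3]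
          · by_cases q3 : q = b
            · subst q3
              simp only [upd_ne q1, upd_ne q2, upd_self]
            · simp only [upd_ne q1, upd_ne q2, upd_ne q3])
  refine RunN.set 0 rfl (by omega) (RunN.set (N - 1) ?_ (by omega) (RunN.cons
    (hloop.congr_left ?_) (RunN.set 0 rfl (by omega) (RunN.set (gval N u) ?_ ?_
      ((RunN.nil).cast ?_)))))
  · simp only [eval_sub, eval_var, eval_one, upd_ne h1.symm]
    exact congrArg (· - 1) hNdef.symm
  · funext q
    simp only [g, gb, pow_zero, Nat.div_one, if_true]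
    by_cases q3 : q = b
    · subst q3
      simp only [upd_self, upd_ne h6.symm, upd_ne h3.symm, hb]
    · simp only [upd_ne q3]
  · have e1 : ∀ w, (upd (g L) b w) out = gb L u := by
      intro w
      simp only [g, upd_ne h3, upd_ne h2, upd_self]
    have e2 : ∀ w, (upd (g L) b w) rN = N := by
      intro w
      simp only [g, upd_ne h5, upd_ne h4, upd_ne h1.symm]
      exact hNdef.symm
    simp only [eval_mul, eval_sub, eval_add, eval_var, eval_one, e1, e2, gval]
    rw [← hL]
    split_ifs with h
    · rw [show gb L u + 1 - N = 0 by omega, Nat.sub_zero, Nat.mul_one]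
    · rw [show 1 - (gb L u + 1 - N) = 0 by omega, Nat.mul_zero]
  · have := gval_lt hN u
    omega
  · funext q
    by_cases q2 : q = out
    · subst q2
      simp only [upd_self]
    · by_cases q3 : q = b
      · subst q3
        simp only [upd_ne q2, upd_self, hb]
      · by_cases q1 : q = i
        · subst q1
          simp only [upd_ne q2, upd_ne q3, g, upd_self, hi]
          exact Nat.div_eq_of_lt (Nat.lt_size_self _)
        · simp only [upd_ne q2, upd_ne q3, g, upd_ne q1]

end

end Pool.Agent.Lib.MP_9277c3_lc.NC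
end

section
/-!
# Programs which read bits, with a bound for the time

`RunT x cc A body k n a s u t v` is `RunN x cc A body k a s u t v`, and moreover at most `n`
instructions, tests and calls are executed.

`RunA.time`: a deterministic program without procedure calls all of whose values are less than `A`
needs at most `tb (A ^ Nat.card R) a` steps; nothing has to be proved about its time.
-/
namespace Pool.Agent.Lib.MP_9277c3_lc.NC

open CM

section

variable {α R F : Type}

/-- Executions with a bound for the time. -/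
inductive RunT (x : List α) (cc : Cell α → ℕ) (A : ℕ) (body : F → NStmt R F) :
    ℕ → ℕ → NStmt R F → (R → ℕ) → (ℕ → Bool) → (R → ℕ) → (ℕ → Bool) → Prop
  | skip (k n : ℕ) (s : R → ℕ) (u : ℕ → Bool) : RunT x cc A body k (n + 1) Stmt.skip s u s u
  | asg (k n : ℕ) (r : R) (e : Exp R) (s : R → ℕ) (u : ℕ → Bool) (h : e.eval x cc s < A) :
      RunT x cc A body k (n + 1) (asg r e) s u (upd s r (e.eval x cc s)) u
  | flip (k n : ℕ) (r : R) (s : R → ℕ) (u : ℕ → Bool) :
      RunT x cc A body k (n + 1) (flip r) s u (upd s r (u 0).toNat) (shift u)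
  | seq (k n m : ℕ) (a b : NStmt R F) (s t r : R → ℕ) (u v w : ℕ → Bool)
      (h₁ : RunT x cc A body k n a s u t v) (h₂ : RunT x cc A body k m b t v r w) :
      RunT x cc A body k (n + m + 1) (Stmt.seq a b) s u r w
  | iteT (k n : ℕ) (q : R) (a b : NStmt R F) (s t : R → ℕ) (u v : ℕ → Bool) (h : s q ≠ 0)
      (h₁ : RunT x cc A body k n a s u t v) :
      RunT x cc A body k (n + 1) (Stmt.ite q a b) s u t v
  | iteF (k n : ℕ) (q : R) (a b : NStmt R F) (s t : R → ℕ) (u v : ℕ → Bool) (h : s q = 0)
      (h₁ : RunT x cc A body k n b s u t v) :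
      RunT x cc A body k (n + 1) (Stmt.ite q a b) s u t v
  | loopF (k n : ℕ) (q : R) (a : NStmt R F) (s : R → ℕ) (u : ℕ → Bool) (h : s q = 0) :
      RunT x cc A body k (n + 1) (Stmt.loop q a) s u s u
  | loopT (k n m : ℕ) (q : R) (a : NStmt R F) (s t r : R → ℕ) (u v w : ℕ → Bool) (h : s q ≠ 0)
      (h₁ : RunT x cc A body k n a s u t v) (h₂ : RunT x cc A body k m (Stmt.loop q a) t v r w) :
      RunT x cc A body k (n + m + 1) (Stmt.loop q a) s u r w
  | call (k n : ℕ) (f : F) (s t : R → ℕ) (u v : ℕ → Bool)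
      (h : RunT x cc A body k n (body f) s u t v) :
      RunT x cc A body (k + 1) (n + 1) (Stmt.call f) s u t v

variable {x : List α} {cc : Cell α → ℕ} {A : ℕ} {body : F → NStmt R F}

/-- Forget the time. -/
theorem RunT.toN {k n : ℕ} {a : NStmt R F} {s t : R → ℕ} {u v : ℕ → Bool}
    (h : RunT x cc A body k n a s u t v) : RunN x cc A body k a s u t v := by
  induction h with
  | skip k n s u => exact RunN.skip _ _ _
  | asg k n r e s u h => exact RunN.asg _ _ _ _ _ h
  | flip k n r s u => exact RunN.flip _ _ _ _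
  | seq k n m a b s t r u v w _ _ ih₁ ih₂ => exact RunN.seq _ _ _ _ _ _ _ _ _ ih₁ ih₂
  | iteT k n q a b s t u v h _ ih => exact RunN.iteT _ _ _ _ _ _ _ _ h ih
  | iteF k n q a b s t u v h _ ih => exact RunN.iteF _ _ _ _ _ _ _ _ h ih
  | loopF k n q a s u h => exact RunN.loopF _ _ _ _ _ h
  | loopT k n m q a s t r u v w h _ _ ih₁ ih₂ => exact RunN.loopT _ _ _ _ _ _ _ _ _ h ih₁ ih₂
  | call k n f s t u v _ ih => exact RunN.call _ _ _ _ _ _ ih

/-- Larger bounds. -/
theorem RunT.mono {A' k k' n n' : ℕ} (hk : k ≤ k') (hn : n ≤ n') (hA : A ≤ A') {a : NStmt R F}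
    {s t : R → ℕ} {u v : ℕ → Bool} (h : RunT x cc A body k n a s u t v) :
    RunT x cc A' body k' n' a s u t v := by
  induction h generalizing k' n' with
  | skip k n s u =>
    obtain ⟨m, rfl⟩ : ∃ j, n' = j + 1 := ⟨n' - 1, by omega⟩
    exact RunT.skip _ _ _ _
  | asg k n r e s u h =>
    obtain ⟨m, rfl⟩ : ∃ j, n' = j + 1 := ⟨n' - 1, by omega⟩
    exact RunT.asg _ _ _ _ _ _ (h.trans_le hA)
  | flip k n r s u =>
    obtain ⟨m, rfl⟩ : ∃ j, n' = j + 1 := ⟨n' - 1, by omega⟩
    exact RunT.flip _ _ _ _ _
  | seq k n m a b s t r u v w _ _ ih₁ ih₂ =>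
    obtain ⟨j, rfl⟩ : ∃ j, n' = n + j + 1 := ⟨n' - n - 1, by omega⟩
    exact RunT.seq _ _ _ _ _ _ _ _ _ _ _ (ih₁ hk le_rfl) (ih₂ hk (by omega))
  | iteT k n q a b s t u v h _ ih =>
    obtain ⟨m, rfl⟩ : ∃ j, n' = j + 1 := ⟨n' - 1, by omega⟩
    exact RunT.iteT _ _ _ _ _ _ _ _ _ h (ih hk (by omega))
  | iteF k n q a b s t u v h _ ih =>
    obtain ⟨m, rfl⟩ : ∃ j, n' = j + 1 := ⟨n' - 1, by omega⟩
    exact RunT.iteF _ _ _ _ _ _ _ _ _ h (ih hk (by omega))
  | loopF k n q a s u h =>
    obtain ⟨m, rfl⟩ : ∃ j, n' = j + 1 := ⟨n' - 1, by omega⟩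
    exact RunT.loopF _ _ _ _ _ _ h
  | loopT k n m q a s t r u v w h _ _ ih₁ ih₂ =>
    obtain ⟨j, rfl⟩ : ∃ j, n' = n + j + 1 := ⟨n' - n - 1, by omega⟩
    exact RunT.loopT _ _ _ _ _ _ _ _ _ _ _ h (ih₁ hk le_rfl) (ih₂ hk (by omega))
  | call k n f s t u v _ ih =>
    obtain ⟨k', rfl⟩ : ∃ j, k' = j + 1 := ⟨k' - 1, by omega⟩
    obtain ⟨m, rfl⟩ : ∃ j, n' = j + 1 := ⟨n' - 1, by omega⟩
    exact RunT.call _ _ _ _ _ _ _ (ih (by omega) (by omega))

theorem RunT.cast {k n : ℕ} {a : NStmt R F} {s t t' : R → ℕ} {u v : ℕ → Bool}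
    (h : RunT x cc A body k n a s u t v) (e : t = t') : RunT x cc A body k n a s u t' v := e ▸ h

theorem RunT.congr_left {k n : ℕ} {a : NStmt R F} {s s' t : R → ℕ} {u v : ℕ → Bool}
    (h : RunT x cc A body k n a s u t v) (e : s' = s) : RunT x cc A body k n a s' u t v := e ▸ h

/-- Every execution has a time. -/
theorem RunN.exists_time {k : ℕ} {a : NStmt R F} {s t : R → ℕ} {u v : ℕ → Bool}
    (h : RunN x cc A body k a s u t v) : ∃ n, RunT x cc A body k n a s u t v := by
  induction h with
  | skip k s u => exact ⟨1, RunT.skip _ _ _ _⟩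
  | asg k r e s u h => exact ⟨1, RunT.asg _ _ _ _ _ _ h⟩
  | flip k r s u => exact ⟨1, RunT.flip _ _ _ _ _⟩
  | seq k a b s t r u v w _ _ ih₁ ih₂ =>
    obtain ⟨n, h₁⟩ := ih₁
    obtain ⟨m, h₂⟩ := ih₂
    exact ⟨_, RunT.seq _ _ _ _ _ _ _ _ _ _ _ h₁ h₂⟩
  | iteT k q a b s t u v h _ ih =>
    obtain ⟨n, h₁⟩ := ih
    exact ⟨_, RunT.iteT _ _ _ _ _ _ _ _ _ h h₁⟩
  | iteF k q a b s t u v h _ ih =>
    obtain ⟨n, h₁⟩ := ih
    exact ⟨_, RunT.iteF _ _ _ _ _ _ _ _ _ h h₁⟩
  | loopF k q a s u h => exact ⟨1, RunT.loopF _ _ _ _ _ _ h⟩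
  | loopT k q a s t r u v w h _ _ ih₁ ih₂ =>
    obtain ⟨n, h₁⟩ := ih₁
    obtain ⟨m, h₂⟩ := ih₂
    exact ⟨_, RunT.loopT _ _ _ _ _ _ _ _ _ _ _ h h₁ h₂⟩
  | call k f s t u v _ ih =>
    obtain ⟨n, h₁⟩ := ih
    exact ⟨_, RunT.call _ _ _ _ _ _ _ h₁⟩

/-- A run does not depend on the bits which are not read. -/
theorem RunT.rest {k n : ℕ} {a : NStmt R F} {s t : R → ℕ} {u v : ℕ → Bool}
    (h : RunT x cc A body k n a s u t v) :
    ∃ l, u = app l v ∧ ∀ v', RunT x cc A body k n a s (app l v') t v' := by
  induction h with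
  | skip k n s u => exact ⟨[], rfl, fun v' => RunT.skip _ _ _ _⟩
  | asg k n r e s u h => exact ⟨[], rfl, fun v' => RunT.asg _ _ _ _ _ _ h⟩
  | flip k n r s u =>
    exact ⟨[u 0], (consB_shift u).symm, fun v' => RunT.flip k n r s (consB (u 0) v')⟩
  | seq k n m a b s t r u v w _ _ ih₁ ih₂ =>
    obtain ⟨l₁, h1, h2⟩ := ih₁
    obtain ⟨l₂, h3, h4⟩ := ih₂
    refine ⟨l₁ ++ l₂, ?_, fun v' => ?_⟩
    · rw [app_append, ← h3, h1]
    · rw [app_append]
      exact RunT.seq _ _ _ _ _ _ _ _ _ _ _ (h2 _) (h4 _)
  | iteT k n q a b s t u v h _ ih =>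
    obtain ⟨l, h1, h2⟩ := ih
    exact ⟨l, h1, fun v' => RunT.iteT _ _ _ _ _ _ _ _ _ h (h2 v')⟩
  | iteF k n q a b s t u v h _ ih =>
    obtain ⟨l, h1, h2⟩ := ih
    exact ⟨l, h1, fun v' => RunT.iteF _ _ _ _ _ _ _ _ _ h (h2 v')⟩
  | loopF k n q a s u h => exact ⟨[], rfl, fun v' => RunT.loopF _ _ _ _ _ _ h⟩
  | loopT k n m q a s t r u v w h _ _ ih₁ ih₂ =>
    obtain ⟨l₁, h1, h2⟩ := ih₁
    obtain ⟨l₂, h3, h4⟩ := ih₂
    refine ⟨l₁ ++ l₂, ?_, fun v' => ?_⟩
    · rw [app_append, ← h3, h1]
    · rw [app_append]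
      exact RunT.loopT _ _ _ _ _ _ _ _ _ _ _ h (h2 _) (h4 _)
  | call k n f s t u v _ ih =>
    obtain ⟨l, h1, h2⟩ := ih
    exact ⟨l, h1, fun v' => RunT.call _ _ _ _ _ _ _ (h2 v')⟩

/-! ### Lists of instructions -/

theorem RunT.nil {k n : ℕ} {s : R → ℕ} {u : ℕ → Bool} :
    RunT x cc A body k (n + 1) (sqN []) s u s u :=
  RunT.skip _ _ _ _

theorem RunT.cons {k n m N : ℕ} {b : NStmt R F} {l : List (NStmt R F)} {s t r : R → ℕ}
    {u v w : ℕ → Bool}
    (h₁ : RunT x cc A body k n b s u t v) (h₂ : RunT x cc A body k m (sqN l) t v r w)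
    (hN : n + m + 1 ≤ N) :
    RunT x cc A body k N (sqN (b :: l)) s u r w :=
  (RunT.seq _ _ _ _ _ _ _ _ _ _ _ h₁ h₂).mono le_rfl hN le_rfl

/-- The first instruction of a list is an assignment: two more units of time. -/
theorem RunT.set {k n : ℕ} {q : R} {ex : Exp R} {l : List (NStmt R F)} {s t : R → ℕ}
    {u v : ℕ → Bool} (c : ℕ)
    (hn : ex.eval x cc s = c) (hA : c < A) (h₂ : RunT x cc A body k n (sqN l) (upd s q c) u t v) :
    RunT x cc A body k (n + 2) (sqN (NC.asg q ex :: l)) s u t v := by
  subst hn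
  exact (RunT.seq k 1 n _ _ _ _ _ _ _ _ (RunT.asg _ 0 _ _ _ _ hA) h₂).mono le_rfl (by omega) le_rfl

theorem RunT.flips {k n : ℕ} {q : R} {l : List (NStmt R F)} {s t : R → ℕ}
    {u v : ℕ → Bool}
    (h₂ : RunT x cc A body k n (sqN l) (upd s q (u 0).toNat) (shift u) t v) :
    RunT x cc A body k (n + 2) (sqN (NC.flip q :: l)) s u t v :=
  (RunT.seq k 1 n _ _ _ _ _ _ _ _ (RunT.flip _ 0 _ _ _) h₂).mono le_rfl (by omega) le_rfl

/-- Execution of a loop, given by a sequence of states; each round needs the time `c`. -/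
theorem RunT.seqLoop {k c : ℕ} (ctr : R) (B : NStmt R F) (g : ℕ → R → ℕ) (w : ℕ → ℕ → Bool) (N : ℕ)
    (h1 : ∀ n < N, g n ctr ≠ 0) (h2 : g N ctr = 0)
    (hB : ∀ n < N, RunT x cc A body k c B (g n) (w n) (g (n + 1)) (w (n + 1))) :
    RunT x cc A body k (N * (c + 1) + 1) (Stmt.loop ctr B) (g 0) (w 0) (g N) (w N) := by
  have key : ∀ j, j ≤ N → RunT x cc A body k (j * (c + 1) + 1) (Stmt.loop ctr B) (g (N - j))
      (w (N - j)) (g N) (w N) := by
    intro j
    induction j with
    | zero => exact fun _ => RunT.loopF _ _ _ _ _ _ h2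
    | succ j ih =>
      intro hj
      have h3 := ih (by omega)
      rw [show N - j = N - (j + 1) + 1 by omega] at h3
      exact (RunT.loopT _ _ _ _ _ _ _ _ _ _ _ (h1 _ (by omega)) (hB _ (by omega)) h3).mono le_rfl
        (by rw [Nat.add_mul]; omega) le_rfl
  have := key N le_rfl
  rwa [Nat.sub_self] at this

end

/-! ### Deterministic programs without calls -/

section

variable {α R₀ F₀ R F : Type} {x : List α} {cc : Cell α → ℕ} {A : ℕ}

/-- The program has no procedure calls. -/
def nocall {P T F : Type} : Stmt P T F → Prop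
  | Stmt.skip => True
  | Stmt.prim _ => True
  | Stmt.seq a b => nocall a ∧ nocall b
  | Stmt.ite _ a b => nocall a ∧ nocall b
  | Stmt.loop _ a => nocall a
  | Stmt.call _ => False

theorem nocall_empty {P T : Type} (a : Stmt P T Empty) : nocall a := by
  induction a with
  | skip => exact trivial
  | prim p => exact trivial
  | seq a b ha hb => exact ⟨ha, hb⟩
  | ite t a b ha hb => exact ⟨ha, hb⟩
  | loop t a ha => exact ha
  | call f => exact f.elim

/-- A bound for the time of a program without calls, if each loop makes at most `Q` rounds. -/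
def tb {P T F : Type} (Q : ℕ) : Stmt P T F → ℕ
  | Stmt.skip => 1
  | Stmt.prim _ => 1
  | Stmt.seq a b => tb Q a + tb Q b + 1
  | Stmt.ite _ a b => tb Q a + tb Q b + 1
  | Stmt.loop _ a => Q * (tb Q a + 1) + 1
  | Stmt.call _ => 0

/-- The bound is a polynomial in `Q`. -/
theorem tb_le {P T F : Type} (a : Stmt P T F) : ∃ c, ∀ Q, tb Q a ≤ c * (Q + 1) ^ c := by
  induction a with
  | skip => exact ⟨1, fun Q => by simp [tb]⟩
  | prim p => exact ⟨1, fun Q => by simp [tb]⟩
  | seq a b ha hb =>
    obtain ⟨c, hc⟩ := ha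
    obtain ⟨d, hd⟩ := hb
    refine ⟨c + d + 1, fun Q => ?_⟩
    have h1 := hc Q
    have h2 := hd Q
    have h3 : (Q + 1) ^ c ≤ (Q + 1) ^ (c + d + 1) := Nat.pow_le_pow_right (by omega) (by omega)
    have h4 : (Q + 1) ^ d ≤ (Q + 1) ^ (c + d + 1) := Nat.pow_le_pow_right (by omega) (by omega)
    have h5 : 1 ≤ (Q + 1) ^ (c + d + 1) := Nat.one_le_pow _ _ (by omega)
    simp only [tb]
    nlinarith [Nat.mul_le_mul_left c h3, Nat.mul_le_mul_left d h4]
  | ite t a b ha hb =>
    obtain ⟨c, hc⟩ := ha
    obtain ⟨d, hd⟩ := hb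
    refine ⟨c + d + 1, fun Q => ?_⟩
    have h1 := hc Q
    have h2 := hd Q
    have h3 : (Q + 1) ^ c ≤ (Q + 1) ^ (c + d + 1) := Nat.pow_le_pow_right (by omega) (by omega)
    have h4 : (Q + 1) ^ d ≤ (Q + 1) ^ (c + d + 1) := Nat.pow_le_pow_right (by omega) (by omega)
    have h5 : 1 ≤ (Q + 1) ^ (c + d + 1) := Nat.one_le_pow _ _ (by omega)
    simp only [tb]
    nlinarith [Nat.mul_le_mul_left c h3, Nat.mul_le_mul_left d h4]
  | loop t a ha =>
    obtain ⟨c, hc⟩ := ha
    refine ⟨c + 2, fun Q => ?_⟩
    have h1 := hc Q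
    have h3 : (Q + 1) ^ (c + 2) = (Q + 1) * (Q + 1) ^ (c + 1) := by ring
    have h4 : (Q + 1) ^ c ≤ (Q + 1) ^ (c + 1) := Nat.pow_le_pow_right (by omega) (by omega)
    have h5 : 1 ≤ (Q + 1) ^ (c + 1) := Nat.one_le_pow _ _ (by omega)
    simp only [tb]
    have h6 : tb Q a ≤ c * (Q + 1) ^ (c + 1) := h1.trans (Nat.mul_le_mul_left c h4)
    calc Q * (tb Q a + 1) + 1 ≤ (Q + 1) * (tb Q a + 1) := by nlinarith
      _ ≤ (Q + 1) * (c * (Q + 1) ^ (c + 1) + 2 * (Q + 1) ^ (c + 1)) := by
          refine Nat.mul_le_mul_left _ ?_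
          omega
      _ = (c + 2) * (Q + 1) ^ (c + 2) := by rw [h3]; ring
  | call f => exact ⟨0, fun Q => by simp [tb]⟩

theorem RunA.lt {body : F → AStmt R F} {k : ℕ} {a : AStmt R F} {s t : R → ℕ}
    (h : RunA x cc A body k a s t) : (∀ r, s r < A) → ∀ r, t r < A := by
  induction h with
  | skip k s => exact id
  | asg k r e s h =>
    intro hs r'
    by_cases h1 : r' = r
    · rw [h1, upd_self]; exact h
    · rw [upd_ne h1]; exact hs r'
  | seq k a b s t u _ _ ih₁ ih₂ => exact fun hs => ih₂ (ih₁ hs)
  | iteT k r a b s u h _ ih => exact ih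
  | iteF k r a b s u h _ ih => exact ih
  | loopF k r a s h => exact id
  | loopT k r a s u v h _ _ ih₁ ih₂ => exact fun hs => ih₂ (ih₁ hs)
  | call k f s u _ ih => exact ih

theorem RunA.det {body : F → AStmt R F} {k k' : ℕ} {a : AStmt R F} {s t t' : R → ℕ}
    (h : RunA x cc A body k a s t) (h' : RunA x cc A body k' a s t') : t = t' := by
  induction h generalizing k' t' with
  | skip k s => cases h'; rfl
  | asg k r e s h => cases h'; rfl
  | seq k a b s t u _ _ ih₁ ih₂ =>
    cases h' with
    | seq _ _ _ _ _ _ h1 h2 =>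
      obtain rfl := ih₁ h1
      exact ih₂ h2
  | iteT k r a b s u h _ ih =>
    cases h' with
    | iteT _ _ _ _ _ _ _ h1 => exact ih h1
    | iteF _ _ _ _ _ _ h0 _ => exact absurd h0 h
  | iteF k r a b s u h _ ih =>
    cases h' with
    | iteT _ _ _ _ _ _ h0 _ => exact absurd h h0
    | iteF _ _ _ _ _ _ _ h1 => exact ih h1
  | loopF k r a s h =>
    cases h' with
    | loopF => rfl
    | loopT _ _ _ _ _ _ h0 => exact absurd h h0
  | loopT k r a s u v h _ _ ih₁ ih₂ =>
    cases h' with
    | loopF _ _ _ _ h0 => exact absurd h0 h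
    | loopT _ _ _ _ _ _ _ h1 h2 =>
      obtain rfl := ih₁ h1
      exact ih₂ h2
  | call k f s u _ ih =>
    cases h' with
    | call _ _ _ _ h1 => exact ih h1

/-- The rounds of a loop. -/
theorem RunA.rounds {body : F → AStmt R F} {k : ℕ} {q : R} {a b : AStmt R F} {s t : R → ℕ}
    (h : RunA x cc A body k b s t) (hb : b = Stmt.loop q a) :
    ∃ (N : ℕ) (g : ℕ → R → ℕ), g 0 = s ∧ g N = t ∧ g N q = 0 ∧
      ∀ i < N, g i q ≠ 0 ∧ RunA x cc A body k a (g i) (g (i + 1)) := by
  induction h with
  | skip k s => exact absurd hb (by simp)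
  | asg k r e s h => exact absurd hb (by simp)
  | seq k a b s t u _ _ ih₁ ih₂ => exact absurd hb (by simp)
  | iteT k r a b s u h _ ih => exact absurd hb (by simp)
  | iteF k r a b s u h _ ih => exact absurd hb (by simp)
  | loopF k r a s h =>
    simp only [Stmt.loop.injEq] at hb
    obtain ⟨rfl, rfl⟩ := hb
    exact ⟨0, fun _ => s, rfl, rfl, h, fun i hi => absurd hi (Nat.not_lt_zero _)⟩
  | loopT k r a s u v h h₁ _ _ ih₂ =>
    obtain ⟨N, g, g0, gN, gq, hg⟩ := ih₂ hb
    simp only [Stmt.loop.injEq] at hb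
    obtain ⟨rfl, rfl⟩ := hb
    refine ⟨N + 1, fun i => match i with
      | 0 => s
      | i + 1 => g i, rfl, gN, gq, fun i hi => ?_⟩
    cases i with
    | zero => exact ⟨h, by rw [← g0] at h₁; exact h₁⟩
    | succ i => exact hg i (by omega)
  | call k f s u _ ih => exact absurd hb (by simp)

/-- The number of rounds of a loop is less than the number of states. -/
theorem RunA.card_rounds [Finite R] {body : F → AStmt R F} {k : ℕ} {q : R} {a : AStmt R F}
    {N : ℕ} {g : ℕ → R → ℕ} (h0 : ∀ r, g 0 r < A) (hN : g N q = 0)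
    (hg : ∀ i < N, g i q ≠ 0 ∧ RunA x cc A body k a (g i) (g (i + 1))) :
    N ≤ A ^ Nat.card R := by
  have hlt : ∀ i ≤ N, ∀ r, g i r < A := by
    intro i
    induction i with
    | zero => exact fun _ => h0
    | succ i ih => exact fun hi => RunA.lt (hg i (by omega)).2 (ih (by omega))
  have hinj : ∀ i j, i < j → j ≤ N → g i ≠ g j := by
    intro i j hij hj heq
    have key : ∀ d, j + d ≤ N → g (i + d) = g (j + d) := by
      intro d
      induction d with
      | zero => exact fun _ => heq
      | succ d ih =>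
        intro hd
        have h1 := (hg (i + d) (by omega)).2
        have h2 := (hg (j + d) (by omega)).2
        rw [ih (by omega)] at h1
        exact RunA.det h1 h2
    have h1 := key (N - j) (by omega)
    rw [show j + (N - j) = N by omega] at h1
    have h2 := (hg (i + (N - j)) (by omega)).1
    rw [h1] at h2
    exact h2 hN
  have : Fintype R := Fintype.ofFinite R
  classical
  have h1 := Fintype.card_le_of_injective
    (fun (i : Fin N) => (fun r => (⟨g i r, hlt i (by omega) r⟩ : Fin A)) : Fin N → R → Fin A) (by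
      intro i j hij
      by_contra hne
      have h2 : g i = g j := by
        funext r
        have := congrFun hij r
        simpa using this
      rcases Nat.lt_or_ge i.1 j.1 with h3 | h3
      · exact hinj i j h3 (by omega) h2
      · exact hinj j i (lt_of_le_of_ne h3 (fun h => hne (Fin.ext h.symm))) (by omega) h2.symm)
  rw [Fintype.card_fin, Fintype.card_fun, Fintype.card_fin] at h1
  rwa [Nat.card_eq_fintype_card]

/-- **The time of a deterministic program without calls** is bounded by `tb Q`, where `Q` is the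
number of states. -/
theorem RunA.time [Finite R₀] {ρ : R₀ → R} {φ : F₀ → F} (hρ : Function.Injective ρ)
    {body₀ : F₀ → AStmt R₀ F₀} {body : F → NStmt R F} (a : AStmt R₀ F₀) (ha : nocall a) :
    ∀ {k : ℕ} (k' : ℕ) {s t : R₀ → ℕ}, RunA x cc A body₀ k a s t → (∀ r, s r < A) →
    ∀ (s' : R → ℕ) (u : ℕ → Bool),
    RunT x cc A body k' (tb (A ^ Nat.card R₀) a) (NC.ren ρ φ a) (mrg ρ s s') u (mrg ρ t s') u := by
  induction a with
  | skip =>
    intro k k' s t h hs s' u
    cases h
    exact RunT.skip _ 0 _ _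
  | prim p =>
    intro k k' s t h hs s' u
    cases h with
    | asg _ r e _ h =>
      have e1 : (renE ρ e).eval x cc (mrg ρ s s') = e.eval x cc s := by
        rw [eval_renE]
        congr 1
        funext r
        exact mrg_apply hρ _ _ _
      have h1 := RunT.asg (body := body) (x := x) (cc := cc) (A := A) k' 0 (ρ r) (renE ρ e)
        (mrg ρ s s') u (by rw [e1]; exact h)
      rw [e1, ← mrg_upd hρ] at h1
      exact h1
  | seq a b iha ihb =>
    intro k k' s t h hs s' u
    cases h with
    | seq _ _ _ _ r _ h1 h2 =>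
      exact RunT.seq _ _ _ _ _ _ _ _ _ _ _ (iha ha.1 k' h1 hs s' u)
        (ihb ha.2 k' h2 (RunA.lt h1 hs) s' u)
  | ite q a b iha ihb =>
    intro k k' s t h hs s' u
    cases h with
    | iteT _ _ _ _ _ _ h0 h1 =>
      exact (RunT.iteT _ _ _ _ _ _ _ _ _ (by rw [mrg_apply hρ]; exact h0)
        (iha ha.1 k' h1 hs s' u)).mono le_rfl (by simp only [tb]; omega) le_rfl
    | iteF _ _ _ _ _ _ h0 h1 =>
      exact (RunT.iteF _ _ _ _ _ _ _ _ _ (by rw [mrg_apply hρ]; exact h0)
        (ihb ha.2 k' h1 hs s' u)).mono le_rfl (by simp only [tb]; omega) le_rfl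
  | loop q a iha =>
    intro k k' s t h hs s' u
    obtain ⟨N, g, g0, gN, gq, hg⟩ := RunA.rounds h rfl
    have hcard := RunA.card_rounds (by rw [g0]; exact hs) gq hg
    have hlt : ∀ i ≤ N, ∀ r, g i r < A := by
      intro i
      induction i with
      | zero => rw [g0]; exact fun _ => hs
      | succ i ih => exact fun hi => RunA.lt (hg i (by omega)).2 (ih (by omega))
    have h1 := RunT.seqLoop (x := x) (cc := cc) (A := A) (body := body) (k := k')
      (c := tb (A ^ Nat.card R₀) a) (ρ q) (NC.ren ρ φ a) (fun i => mrg ρ (g i) s') (fun _ => u) N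
      (fun n hn => by simp only [mrg_apply hρ]; exact (hg n hn).1)
      (by simp only [mrg_apply hρ]; exact gq)
      (fun n hn => iha ha k' (hg n hn).2 (hlt n hn.le) s' u)
    simp only [g0, gN] at h1
    refine h1.mono le_rfl ?_ le_rfl
    simp only [tb]
    have := Nat.mul_le_mul_right (tb (A ^ Nat.card R₀) a + 1) hcard
    omega
  | call f => exact ha.elim

/-- The same, if the state of the large program is given. -/
theorem RunA.time' [Finite R₀] {ρ : R₀ → R} {φ : F₀ → F} (hρ : Function.Injective ρ)
    {body₀ : F₀ → AStmt R₀ F₀} {body : F → NStmt R F} {a : AStmt R₀ F₀} (ha : nocall a)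
    {k : ℕ} (k' : ℕ) {s : R → ℕ} {t : R₀ → ℕ} (h : RunA x cc A body₀ k a (fun r => s (ρ r)) t)
    (hs : ∀ r, s (ρ r) < A) (u : ℕ → Bool) :
    RunT x cc A body k' (tb (A ^ Nat.card R₀) a) (NC.ren ρ φ a) s u (mrg ρ t s) u := by
  have h1 := RunA.time (body := body) (φ := φ) hρ a ha k' h hs s u
  rwa [mrg_self hρ] at h1

end

/-! ### The guess -/

section

variable {α R F : Type} {x : List α} {cc : Cell α → ℕ} {A : ℕ} {body : F → NStmt R F}

/-- The time of the guess. -/
theorem run_guessT {out rN i b : R} (h1 : out ≠ rN) (h2 : out ≠ i) (h3 : out ≠ b) (h4 : rN ≠ i)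
    (h5 : rN ≠ b) (h6 : i ≠ b) {s : R → ℕ} (hi : s i = 0) (hb : s b = 0) (hA : 2 * s rN ≤ A)
    (hN : 0 < s rN) (k : ℕ) (u : ℕ → Bool) :
    RunT x cc A body k (8 * Nat.size (s rN - 1) + 11) (guess out rN i b) s u
      (upd s out (gval (s rN) u)) (grest (s rN) u) := by
  set N := s rN with hNdef
  set L := Nat.size (N - 1) with hL
  have hpow : 2 ^ L ≤ A := by
    rcases Nat.eq_zero_or_pos (N - 1) with h0 | h0
    · rw [hL, h0, Nat.size_zero, pow_zero]
      omega
    · have h7 : ¬Nat.size (N - 1) ≤ L - 1 := by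
        have : 0 < Nat.size (N - 1) := Nat.size_pos.2 h0
        omega
      rw [Nat.size_le, not_lt] at h7
      have h8 : 0 < L := Nat.size_pos.2 h0
      have h9 : 2 ^ L = 2 * 2 ^ (L - 1) := by
        rw [← pow_succ', show L - 1 + 1 = L by omega]
      omega
  -- the states in the loop
  let g : ℕ → R → ℕ := fun n => upd (upd (upd s out (gb n u)) i ((N - 1) / 2 ^ n)) b
    (if n = 0 then 0 else (u (n - 1)).toNat)
  have hloop := RunT.seqLoop (x := x) (cc := cc) (A := A) (body := body) (k := k) (c := 7) i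
    (sqN [flip b, asg out (2 * Exp.var out + Exp.var b), asg i (Exp.var i / 2)]) g
    (fun n => sh n u) L (fun n hn => by
      simp only [g, upd_ne h6, upd_self]
      intro h0
      rw [Nat.div_eq_zero_iff] at h0
      rcases h0 with h0 | h0
      · exact absurd h0 (by positivity)
      · have := Nat.size_le.2 h0
        omega) (by
      simp only [g, upd_ne h6, upd_self]
      exact Nat.div_eq_of_lt (Nat.lt_size_self _)) (fun n hn => by
      have hg := gb_lt (n + 1) u
      have hle : 2 ^ (n + 1) ≤ 2 ^ L := Nat.pow_le_pow_right (by norm_num) hn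
      rw [sh_succ]
      refine RunT.flips (RunT.set (gb (n + 1) u) ?_ (by omega) (RunT.set ((N - 1) / 2 ^ (n + 1)) ?_
        ?_ ((RunT.nil (n := 0)).cast ?_)))
      · simp only [eval_add, eval_mul, eval_ofNat, eval_var, g, upd_self, upd_ne h3, upd_ne h2,
          gb, sh, Nat.zero_add]
      · simp only [eval_div, eval_ofNat, eval_var, g, upd_self, upd_ne h3, upd_ne h2.symm,
          upd_ne h6]
        rw [Nat.div_div_eq_div_mul, ← pow_succ]
      · have := Nat.div_le_self (N - 1) (2 ^ (n + 1))
        omega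
      · funext q
        simp only [g, Nat.add_sub_cancel, if_neg (Nat.succ_ne_zero n), sh, Nat.zero_add]
        by_cases q1 : q = i
        · subst q1
          simp only [upd_self, upd_ne h6]
        · by_cases q2 : q = out
          · subst q2
            simp only [upd_ne q1, upd_self, upd_ne h3]
          · by_cases q3 : q = b
            · subst q3
              simp only [upd_ne q1, upd_ne q2, upd_self]
            · simp only [upd_ne q1, upd_ne q2, upd_ne q3])
  have hmain : RunT x cc A body k (L * (7 + 1) + 1 + (2 + 2 + 1) + 1 + 2 + 2) (guess out rN i b) s u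
      (upd s out (gval N u)) (grest N u) := by
    refine RunT.set 0 rfl (by omega) (RunT.set (N - 1) ?_ (by omega) (RunT.cons
      (hloop.congr_left ?_) (RunT.set 0 rfl (by omega) (RunT.set (gval N u) ?_ ?_
        ((RunT.nil (n := 0)).cast ?_))) (by omega)))
    · simp only [eval_sub, eval_var, eval_one, upd_ne h1.symm]
      exact congrArg (· - 1) hNdef.symm
    · funext q
      simp only [g, gb, pow_zero, Nat.div_one, if_true]
      by_cases q3 : q = b
      · subst q3
        simp only [upd_self, upd_ne h6.symm, upd_ne h3.symm, hb]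
      · simp only [upd_ne q3]
    · have e1 : ∀ w, (upd (g L) b w) out = gb L u := by
        intro w
        simp only [g, upd_ne h3, upd_ne h2, upd_self]
      have e2 : ∀ w, (upd (g L) b w) rN = N := by
        intro w
        simp only [g, upd_ne h5, upd_ne h4, upd_ne h1.symm]
        exact hNdef.symm
      simp only [eval_mul, eval_sub, eval_add, eval_var, eval_one, e1, e2, gval]
      rw [← hL]
      split_ifs with h
      · rw [show gb L u + 1 - N = 0 by omega, Nat.sub_zero, Nat.mul_one]
      · rw [show 1 - (gb L u + 1 - N) = 0 by omega, Nat.mul_zero]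
    · have := gval_lt hN u
      omega
    · funext q
      by_cases q2 : q = out
      · subst q2
        simp only [upd_self]
      · by_cases q3 : q = b
        · subst q3
          simp only [upd_ne q2, upd_self, hb]
        · by_cases q1 : q = i
          · subst q1
            simp only [upd_ne q2, upd_ne q3, g, upd_self, hi]
            exact Nat.div_eq_of_lt (Nat.lt_size_self _)
          · simp only [upd_ne q2, upd_ne q3, g, upd_ne q1]
  exact hmain.mono le_rfl (by omega) le_rfl

end

end Pool.Agent.Lib.MP_9277c3_lc.NC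
end
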