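import Pool.Agent.Lib.MP_9277c3_lc.NC.TimeIn
import Pool.Agent.Lib.MP_9277c3_lc.NC.ExecT
import Pool.Agent.Lib.MP_9277c3_lc.NC.Time

/-!
# The time of the machine which executes a program with stacks
-/

namespace Pool.Agent.Lib.MP_9277c3_lc.NC

open CM Classical

section

variable {α ι Γ F : Type} {body : F → GStmt α ι Γ F} {a : GStmt α ι Γ F}
variable [Finite ι] [Finite Γ] [Finite F] {out : ι}

/-- At most `n` steps. -/
inductive Steps {A : BM α} (x : List α) : ℕ → A.Cfg → A.Cfg → Prop
  | refl (n : ℕ) (c : A.Cfg) : Steps x n c c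
  | head (n : ℕ) (c c' c'' : A.Cfg) (h' : A.step x c = some c') (h'' : Steps x n c' c'') :
      Steps x (n + 1) c c''

theorem Steps.mono {A : BM α} {x : List α} {n n' : ℕ} (hn : n ≤ n') {c c' : A.Cfg}
    (h : Steps x n c c') : Steps x n' c c' := by
  induction h generalizing n' with
  | refl => exact Steps.refl _ _
  | head n c d e h1 _ ih =>
    obtain ⟨k, rfl⟩ : ∃ k, n' = k + 1 := ⟨n' - 1, by omega⟩
    exact Steps.head _ _ _ _ h1 (ih (by omega))

theorem Steps.trans {A : BM α} {x : List α} {n n' : ℕ} {c c' c'' : A.Cfg}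
    (h : Steps x n c c') (h' : Steps x n' c' c'') : Steps x (n + n') c c'' := by
  induction h with
  | refl n => exact h'.mono (by omega)
  | head n c d e h1 _ ih =>
    exact (Steps.head _ _ _ _ h1 (ih h')).mono (by omega)

/-- A path from a configuration from which the machine halts after at most `n` steps has at most
`n` steps. -/
theorem Steps.path {A : BM α} {x : List α} {n : ℕ} {c e : A.Cfg} (h : Steps x n c e)
    (he : A.step x e = none) : ∀ (m : ℕ) (g : ℕ → A.Cfg), g 0 = c →
      (∀ i < m, A.step x (g i) = some (g (i + 1))) → m ≤ n := by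
  induction h with
  | refl n c =>
    intro m g h0 hg
    cases m with
    | zero => exact Nat.zero_le _
    | succ m =>
      have := hg 0 (by omega)
      rw [h0, he] at this
      exact absurd this (by simp)
  | head n c c' e h1 _ ih =>
    intro m g h0 hg
    cases m with
    | zero => exact Nat.zero_le _
    | succ m =>
      have h2 := hg 0 (by omega)
      rw [h0, h1, Option.some.injEq] at h2
      have := ih he m (fun i => g (i + 1)) h2.symm (fun i hi => hg (i + 1) (by omega))
      omega

/-- The number of steps. -/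
theorem exec_steps {x : List α} {m : ℕ} {d n : ℕ} {p : GStmt α ι Γ F}
    {s t : ((ι → List Γ) × ℕ) × (ℕ → Bool)}
    (h : ExecT (ext (ssem x m)) body d n p s t) : ∀ (hp : p ∈ closure body a)
      (κ : List (closure body a))
      (c : (cmach body a out).Cfg),
      Rep body a out (some none) s.1.2 (conts body a (⟨p, hp⟩ :: κ) s.1) s.2 c →
      ∃ c', Steps x (2 * n) c c' ∧
        Rep body a out (some none) t.1.2 (conts body a κ t.1) t.2 c' := by
  -- one step of the control
  have key : ∀ (p : GStmt α ι Γ F) (hp : p ∈ closure body a) (κ : List (closure body a))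
      (s : ((ι → List Γ) × ℕ) × (ℕ → Bool)) (c : (cmach body a out).Cfg)
      (s' : ((ι → List Γ) × ℕ) × (ℕ → Bool))
      (κ' : List (closure body a)),
      Rep body a out (some none) s.1.2 (conts body a (⟨p, hp⟩ :: κ) s.1) s.2 c →
      (cop body a ((ext (ssem x m)).test · s) ⟨p, hp⟩).eff (⟨p, hp⟩ :: κ) = κ' →
      (∀ i, (dop p i).eff (s.1.1 i) = s'.1.1 i) → (gop p).apply x.length s.1.2 = s'.1.2 →
      (if bop p then shift s.2 else s.2) = s'.2 →
      ∃ c', Steps x 2 c c' ∧
        Rep body a out (some none) s'.1.2 (conts body a κ' s'.1) s'.2 c' := by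
    intro p hp κ s c s' κ' hc e1 e2 e3 e4
    have htst : ((ext (ssem x m)).test · s) = rtest body a (s.2 0) (cell x s.1.2) c.read := by
      funext t
      exact propext (rtest_iff hc t).symm
    obtain ⟨c₁, c₂, h1, h2, h3, h4⟩ := two_steps hc (conts_ne _ _) ⟨p, hp⟩
      (κ.map fun c => some (Sum.inr c)) rfl _ htst
    have h5 : Rep body a out (some none) s'.1.2 (conts body a κ' s'.1) s'.2 c₂ := by
      have h6 : (fun j => (oops body a ((ext (ssem x m)).test · s) ⟨p, hp⟩ j).eff
          (conts body a (⟨p, hp⟩ :: κ) s.1 j)) = conts body a κ' s'.1 := by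
        funext j
        cases j with
        | none =>
          change (Op.map _ _).eff (List.map _ _) = _
          rw [Op.eff_map, e1]
          rfl
        | some i =>
          change (Op.map _ _).eff (List.map _ _) = _
          rw [Op.eff_map, e2]
          rfl
      rw [h6] at h4
      change Rep body a out (some none) ((gop p).apply x.length s.1.2) _
        (if bop p then shift s.2 else s.2) c₂ at h4
      rw [e3, e4] at h4
      exact h4
    exact ⟨c₂, Steps.head _ _ _ _ h1 (Steps.head _ _ _ _ h2 (Steps.refl 0 _)), h5⟩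
  induction h with
  | skip d n s =>
    intro hp κ c hc
    obtain ⟨c', h1, h2⟩ := key _ hp κ s c s κ hc rfl (fun i => rfl) rfl rfl
    exact ⟨c', h1.mono (by omega), h2⟩
  | prim d n q s h =>
    intro hp κ c hc
    obtain ⟨c', h1, h2⟩ := key _ hp κ s c ((ext (ssem x m)).act q s) κ hc
      rfl
      (by
        intro i
        rcases q with q | q
        · cases q with
          | push j g =>
            simp only [ext, ssem, dop]
            by_cases hi : i = j
            · subst hi
              simp [Op.eff, upd_self]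
            · simp [Op.eff, hi, upd_ne]
          | pop j =>
            simp only [ext, ssem, dop]
            by_cases hi : i = j
            · subst hi
              simp [Op.eff, upd_self]
            · simp [Op.eff, hi, upd_ne]
          | go mv => rfl
        · rfl)
      (by
        rcases q with q | q
        · cases q with
          | push j g => rfl
          | pop j => rfl
          | go mv => rfl
        · rfl)
      (by
        rcases q with q | q
        · cases q <;> rfl
        · rfl)
    exact ⟨c', h1.mono (by omega), h2⟩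
  | seq d n m a b s t u _ _ ih₁ ih₂ =>
    intro hp κ c hc
    have hp1 : a ∈ closure body _ := closure_subs hp (by simp [Stmt.subs, Stmt.mem_subs])
    have hq1 : b ∈ closure body _ := closure_subs hp (by simp [Stmt.subs, Stmt.mem_subs])
    obtain ⟨c₁, h1, h2⟩ := key _ hp κ s c s
      (⟨a, hp1⟩ :: ⟨b, hq1⟩ :: κ) hc rfl (fun i => rfl) rfl rfl
    obtain ⟨c₂, h3, h4⟩ := ih₁ hp1 (⟨b, hq1⟩ :: κ) c₁ h2
    obtain ⟨c₃, h6, h7⟩ := ih₂ hq1 κ c₂ h4
    exact ⟨c₃, ((h1.trans h3).trans h6).mono (by omega), h7⟩
  | iteT d n t p q s u h _ ih =>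
    intro hp κ c hc
    have hp1 : p ∈ closure body a := closure_subs hp (by simp [Stmt.subs, Stmt.mem_subs])
    obtain ⟨c₁, h1, h2⟩ := key _ hp κ s c s
      (⟨p, hp1⟩ :: κ) hc (by
        simp only [cop, h, if_true, Op.eff, List.tail_cons]) (fun i => rfl) rfl rfl
    obtain ⟨c₂, h3, h4⟩ := ih hp1 κ c₁ h2
    exact ⟨c₂, (h1.trans h3).mono (by omega), h4⟩
  | iteF d n t p q s u h _ ih =>
    intro hp κ c hc
    have hq1 : q ∈ closure body a := closure_subs hp (by simp [Stmt.subs, Stmt.mem_subs])
    obtain ⟨c₁, h1, h2⟩ := key _ hp κ s c s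
      (⟨q, hq1⟩ :: κ) hc (by
        simp only [cop, h, if_false, Op.eff, List.tail_cons]) (fun i => rfl) rfl rfl
    obtain ⟨c₂, h3, h4⟩ := ih hq1 κ c₁ h2
    exact ⟨c₂, (h1.trans h3).mono (by omega), h4⟩
  | loopF d n t p s h =>
    intro hp κ c hc
    obtain ⟨c₁, h1, h2⟩ := key _ hp κ s c s κ hc (by
        simp only [cop, h, if_false, Op.eff, List.tail_cons]) (fun i => rfl) rfl rfl
    exact ⟨c₁, h1.mono (by omega), h2⟩
  | loopT d n m t p s u v h _ _ ih₁ ih₂ =>
    intro hp κ c hc
    have hp1 : p ∈ closure body a := closure_subs hp (by simp [Stmt.subs, Stmt.mem_subs])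
    obtain ⟨c₁, h1, h2⟩ := key _ hp κ s c s
      (⟨p, hp1⟩ :: ⟨_, hp⟩ :: κ) hc (by
        simp only [cop, h, if_true, Op.eff]) (fun i => rfl) rfl rfl
    obtain ⟨c₂, h3, h4⟩ := ih₁ hp1 (⟨_, hp⟩ :: κ) c₁ h2
    obtain ⟨c₃, h6, h7⟩ := ih₂ hp κ c₂ h4
    exact ⟨c₃, ((h1.trans h3).trans h6).mono (by omega), h7⟩
  | call d n f s u _ ih =>
    intro hp κ c hc
    obtain ⟨c₁, h1, h2⟩ := key _ hp κ s c s
      (⟨body f, closure_body body a f⟩ :: κ) hc rfl (fun i => rfl) rfl rfl
    obtain ⟨c₂, h3, h4⟩ := ih (closure_body body a f) κ c₁ h2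
    exact ⟨c₂, (h1.trans h3).mono (by omega), h4⟩

/-- The number of steps of the machine for the sequence of bits `w`. -/
theorem steps_cmach {x : List α} {m d n : ℕ} {w : ℕ → Bool}
    {t : ((ι → List Γ) × ℕ) × (ℕ → Bool)}
    (h1 : ExecT (ext (ssem x m)) body d n a ((fun _ => [], 0), shift w) t) :
    ∃ e : (cmach body a out).Cfg, Steps x (2 * n + 2) ((cmach body a out).init w) e ∧
      (cmach body a out).step x e = none := by
  have ha : a ∈ closure body a := Or.inl a.mem_subs
  -- the first two steps
  let c₀ : (cmach body a out).Cfg := (cmach body a out).init w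
  let c₁ : (cmach body a out).Cfg :=
    { state := some (some (initW body a))
      pos := 0
      head := fun j => NTM.wmove (initM j) 0
      tape := fun _ _ => none
      bits := shift w }
  let c₂ : (cmach body a out).Cfg :=
    { state := some none
      pos := 0
      head := c₁.head
      tape := fun j => tapeOf none (conts body a [⟨a, ha⟩] (fun _ => [], 0) j)
      bits := shift w }
  have s1 : (cmach body a out).step x c₀ = some c₁ :=
    step_some _ x c₀ c₁ (some (some (initW body a)), true, Move.stay, fun j => (none, initM j)) rfl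
      rfl rfl (fun _ => rfl) (fun j => (Function.update_eq_self (c₀.head j) (c₀.tape j)).symm) rfl
  have s2 : (cmach body a out).step x c₁ = some c₂ := by
    refine step_some _ x c₁ c₂ (some none, false, Move.stay,
      fun j => ((initW body a j).getD none, Move.stay)) rfl rfl rfl (fun _ => rfl) ?_ rfl
    intro j
    cases j with
    | none => rfl
    | some i => exact (Function.update_eq_self (c₁.head (some i)) (c₁.tape (some i))).symm
  have hrep : Rep body a out (some none) 0 (conts body a [⟨a, ha⟩] (fun _ => [], 0)) (shift w)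
      c₂ := by
    constructor
    · rfl
    · rfl
    · intro j
      cases j <;> rfl
    · intro j
      rfl
    · rfl
  obtain ⟨e, g1, g2⟩ := exec_steps h1 ha [] c₂ hrep
  have hhalt : (cmach body a out).step x e = none := by
    unfold BM.step
    have e0 : e.read none = none := by
      unfold BM.Cfg.read
      rw [g2.tape, g2.head]
      rfl
    have e1 : (cmach body a out).next e.state (e.bits 0) (cell x e.pos) e.read = none := by
      rw [g2.state]
      change cnext body a (some none) _ _ _ = none
      simp only [cnext, e0]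
    rw [e1]
    rfl
  exact ⟨e, Steps.head _ _ _ _ s1 (Steps.head _ _ _ _ s2 g1), hhalt⟩

end

/-- A program with stacks which terminates on all inputs for all sequences of bits is executed by a
nondeterministic Turing machine whose heads stay below the height of the stacks and the depth of the
execution, and whose time is bounded by the time of the execution. -/
theorem exists_TNTM {α ι Γ F : Type} [Finite ι] [Finite Γ] [Finite F]
    (body : F → GStmt α ι Γ F) (a : GStmt α ι Γ F) (out : ι) (L : List α → Prop) (m d τ : ℕ → ℕ)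
    (h : ∀ (x : List α) (u : ℕ → Bool), ∃ t, ExecT (ext (ssem x (m x.length))) body (d x.length)
      (τ x.length) a ((fun _ => [], 0), u) t)
    (hL1 : ∀ (x : List α) (u : ℕ → Bool) (t : ((ι → List Γ) × ℕ) × (ℕ → Bool)),
      Exec (ext (ssem x (m x.length))) body (d x.length) a ((fun _ => [], 0), u) t →
        t.1.1 out ≠ [] → L x)
    (hL2 : ∀ x : List α, L x → ∃ (u : ℕ → Bool) (t : ((ι → List Γ) × ℕ) × (ℕ → Bool)),
      Exec (ext (ssem x (m x.length))) body (d x.length) a ((fun _ => [], 0), u) t ∧
        t.1.1 out ≠ [] ∧ t.2 = fun _ => false) :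
    ∃ A : NTM α, (A.AcceptsIn L fun n => max (m n) (d n + 1) + 1) ∧
      (A.TimeIn fun n => 2 * τ n + 2) ∧
      ((∀ (x : List α) (u u' : ℕ → Bool) (t t' : ((ι → List Γ) × ℕ) × (ℕ → Bool)),
        Exec (ext (ssem x (m x.length))) body (d x.length) a ((fun _ => [], 0), u) t →
        Exec (ext (ssem x (m x.length))) body (d x.length) a ((fun _ => [], 0), u') t' →
        t.1.1 out ≠ [] → t'.1.1 out ≠ [] → t.2 = (fun _ => false) → t'.2 = (fun _ => false) →
        u = u') → A.Unambiguous) := by
  refine ⟨(cmach body a out).toNTM, fun x => ⟨⟨fun hx => ?_, fun hx => ?_⟩, ?_, ?_⟩, ?_,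
    fun hU x n f n' f' h1 h2 => ?_⟩
  · obtain ⟨w, c, h0, h1, h2, h3⟩ := BM.of_accepts _ hx
    obtain ⟨t, ht⟩ := h x (shift w)
    exact hL1 x _ t ht.toExec ((run_cmach_bits ht.toExec h1 h2).2.1.1 h3)
  · obtain ⟨u, t, ht, h1, h2⟩ := hL2 x hx
    obtain ⟨e, g1, g2, g3, g4⟩ := run_cmach (out := out) (w := consB false u) ht
    refine BM.accepts_of _ (w := consB false u) rfl (g1.reach BM.Reach.start) g2 (g3.2 h1) ?_
    rw [g4, h2]
  · refine BM.no_inf _ fun w _ => ?_
    obtain ⟨t, ht⟩ := h x (shift w)
    obtain ⟨e, g1, g2, g3⟩ := run_cmach (out := out) ht.toExec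
    exact ⟨e, g1.reach BM.Reach.start, g2⟩
  · rw [BM.spaceOn_iff]
    intro w c h0 h1 j
    obtain ⟨t, ht⟩ := h x (shift w)
    obtain ⟨e, g1, g2, g3⟩ := run_cmach (out := out) ht.toExec
    exact Nat.lt_succ_of_le ((reach_run g1 g2 h1).fits j)
  · intro x k f h0 hf
    obtain ⟨v, -, h2, h3⟩ := BM.exists_path _ k f hf (fun _ => (f k).state.2) rfl
    obtain ⟨t, ht⟩ := h x (shift (v 0))
    obtain ⟨e, g1, g2⟩ := steps_cmach (out := out) ht
    refine g1.path g2 k (fun i => (cmach body a out).ofN (f i) (v i)) ?_ h3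
    rw [h0]
    rfl
  · refine BM.unamb _ (fun w w' c c' h3 h4 h5 h6 h7 h8 h9 h10 h11 h12 => ?_) n f n' f' h1 h2
    obtain ⟨t, ht⟩ := h x (shift w)
    obtain ⟨t', ht'⟩ := h x (shift w')
    obtain ⟨a1, a2, -⟩ := run_cmach_bits ht.toExec h5 h7
    obtain ⟨b1, b2, -⟩ := run_cmach_bits ht'.toExec h6 h8
    have h13 := hU x _ _ t t' ht.toExec ht'.toExec (a2.1 h9) (b2.1 h10) (a1.symm.trans h11)
      (b1.symm.trans h12)
    rw [← consB_shift w, ← consB_shift w', h13, h3, h4]

end Pool.Agent.Lib.MP_9277c3_lc.NC
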