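import Pool.Agent.Lib.MP_9277c3_lc.NC.Bin
import Pool.Agent.Lib.MP_9277c3_lc.helper78.CM.ExpC
import Pool.Agent.Lib.MP_9277c3_lc.NC.MachT
import Pool.Agent.Lib.MP_9277c3_lc.NC.Time

section
/-!
# Multiplication and division in time polynomial in the length
-/
namespace Pool.Agent.Lib.MP_9277c3_lc.NC

open CM

section

variable {α ι F : Type} {x : List α} {W : ℕ} {body : F ⊕ AP ι → BStmt α ι (F ⊕ AP ι)}

theorem Pc.iteb {d n : ℕ} {b : Bool} {a a' : BStmt α ι (F ⊕ AP ι)} {s t : ι → ℕ}
    (h₁ : b = true → Pc x W body d n a s t) (h₂ : b = false → Pc x W body d n a' s t) :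
    Pc x W body d n (if b then a else a') s t := by
  cases b
  · exact h₂ rfl
  · exact h₁ rfl

variable (hb : ∀ p : AP ι, body (Sum.inr p) = apb p)
include hb

/-- `z := x * y`, `y := 0`, if `z = 0` and `w = 0`. -/
theorem pc_mul {iy ix iz iw : ι} (h1 : iy ≠ ix) (h2 : iy ≠ iz) (h3 : iy ≠ iw) (h4 : ix ≠ iz)
    (h5 : ix ≠ iw) (h6 : iz ≠ iw) (m : ℕ) (ℓ : ℕ) : ∀ s : ι → ℕ, s iy < 2 ^ ℓ →
      s ix < 2 ^ m → s ix * s iy < 2 ^ m → s ix < W → s ix * s iy < W → s iz = 0 → s iw = 0 →
      Pc x W body (m + 1 + ℓ) (48 * (m + 1) * (ℓ + 1)) (cal (AP.mul iy ix iz iw)) s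
        (upd (upd s iy 0) iz (s ix * s iy)) := by
  have base : ∀ s : ι → ℕ, s iy = 0 → s iz = 0 →
      Pc x W body 0 3 (cal (AP.mul iy ix iz iw)) s (upd (upd s iy 0) iz (s ix * s iy)) := by
    intro s hy hz
    refine (Pc.cal (hb _) (Pc.nzF hy (Pc.skip (n := 0)))).cast ?_
    funext q
    by_cases q1 : q = iz
    · rw [q1, upd_self, hy, hz, Nat.mul_zero]
    · rw [upd_ne q1]
      by_cases q2 : q = iy
      · rw [q2, upd_self, hy]
      · rw [upd_ne q2]
  induction ℓ with
  | zero =>
    intro s hy _ _ _ _ hz _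
    exact (base s (by simpa using hy) hz).mono (by omega) (by nlinarith)
  | succ ℓ ih =>
    intro s hy hxm hxym hxW hxyW hz hw
    by_cases h0 : s iy = 0
    · exact (base s h0 hz).mono (by omega) (by nlinarith)
    · have hxy : 2 * (s ix * (s iy / 2)) ≤ s ix * s iy := by
        have : s ix * (2 * (s iy / 2)) ≤ s ix * s iy := Nat.mul_le_mul_left _ (by omega)
        calc 2 * (s ix * (s iy / 2)) = s ix * (2 * (s iy / 2)) := by ring
          _ ≤ _ := this
      refine Pc.mono le_rfl ?_ (Pc.cal (hb _) (Pc.nzT h0 (Pc.ob fun b hbi =>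
        Pc.halfs (s iy / 2) rfl (Pc.cons ((ih (upd s iy (s iy / 2)) ?_ ?_ ?_ ?_ ?_ ?_ ?_).cast
          (t' := upd (upd s iy 0) iz (s ix * (s iy / 2))) ?_)
          (Pc.dbls (2 * (s ix * (s iy / 2))) ?_ ?_ (Pc.cons (n := 32 * (m + 1) + 4)
            (t := upd (upd s iy 0) iz (s ix * s iy))
            (Pc.iteb (fun hbt => ?_) (fun hbf => ?_)) (Pc.nil (n := 0))))))))
      · nlinarith
      · rw [upd_self]; rw [pow_succ] at hy; omega
      · rw [upd_ne h1.symm]; exact hxm
      · rw [upd_ne h1.symm, upd_self]; omega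
      · rw [upd_ne h1.symm]; exact hxW
      · rw [upd_ne h1.symm, upd_self]; omega
      · rw [upd_ne h2.symm]; exact hz
      · rw [upd_ne h3.symm]; exact hw
      · rw [upd_ne h1.symm, upd_self, upd_upd]
      · rw [upd_self, Bool.toNat_false, Nat.add_zero]
      · omega
      · -- the bit is one
        have hbn : s iy = 2 * (s iy / 2) + 1 := by
          rw [hbt] at hbi
          simp only [Bool.toNat_true] at hbi
          omega
        have hprod : 2 * (s ix * (s iy / 2)) + s ix = s ix * s iy := by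
          conv_rhs => rw [hbn]
          ring
        rw [upd_upd]
        have k1 := pc_cpy (x := x) (W := W) hb h5 m
          (upd (upd s iy 0) iz (2 * (s ix * (s iy / 2))))
          (by rw [upd_ne h4, upd_ne h1.symm]; exact hxm)
          (by rw [upd_ne h4, upd_ne h1.symm]; exact hxW)
          (by rw [upd_ne h6.symm, upd_ne h3.symm]; exact hw)
        have k2 := pc_add (x := x) (W := W) hb h6.symm m false
          (upd (upd (upd s iy 0) iz (2 * (s ix * (s iy / 2)))) iw (s ix))
          (by rw [upd_self]; exact hxm)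
          (by rw [upd_ne h6, upd_self]; omega)
          (by rw [upd_self, upd_ne h6, upd_self, Bool.toNat_false]; omega)
        rw [upd_ne h4, upd_ne h1.symm] at k1
        refine Pc.mono (by omega : m + 1 ≤ m + 1 + ℓ) ?_
          (Pc.cons k1 (Pc.cons (k2.mono (by omega) le_rfl) ((Pc.nil (n := 0)).cast ?_)))
        · omega
        · rw [upd_self, upd_ne h6, upd_self, Bool.toNat_false]
          funext q
          by_cases q1 : q = iz
          · rw [q1, upd_self, upd_self]; omega
          · rw [upd_ne q1]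
            by_cases q2 : q = iw
            · rw [q2, upd_self, upd_ne h6.symm, upd_ne h3.symm, hw]
            · rw [upd_ne q2, upd_ne q2, upd_ne q1, upd_ne q1]
      · -- the bit is zero
        have hbn : s iy = 2 * (s iy / 2) := by
          rw [hbf] at hbi
          simp only [Bool.toNat_false] at hbi
          omega
        have hprod : 2 * (s ix * (s iy / 2)) = s ix * s iy := by
          conv_rhs => rw [hbn]
          ring
        refine ((Pc.skip (n := 32 * (m + 1) + 3)).cast ?_)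
        rw [upd_upd, hprod]

/-- Division with remainder: `q := x / y`, `r := x % y`, `x := 0`, if `q`, `r`, `v`, `w`, `e` are
zero and `y` is not zero. -/
theorem pc_dm {ix iy iq ir iv iw ie : ι} (hxy : ix ≠ iy) (hxq : ix ≠ iq) (hxr : ix ≠ ir)
    (hxv : ix ≠ iv) (hxw : ix ≠ iw) (hxe : ix ≠ ie) (hyq : iy ≠ iq) (hyr : iy ≠ ir)
    (hyv : iy ≠ iv) (hyw : iy ≠ iw) (hye : iy ≠ ie) (hqr : iq ≠ ir) (hqv : iq ≠ iv)
    (hqw : iq ≠ iw) (hqe : iq ≠ ie) (hrv : ir ≠ iv) (hrw : ir ≠ iw) (hre : ir ≠ ie)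
    (hvw : iv ≠ iw) (hve : iv ≠ ie) (hwe : iw ≠ ie) (m : ℕ) (ℓ : ℕ) : ∀ s : ι → ℕ,
      s ix < 2 ^ ℓ → s ix < 2 ^ m → s iy < 2 ^ m → s ix < W → s iy < W → 1 < W → s iy ≠ 0 →
      s iq = 0 → s ir = 0 → s iv = 0 → s iw = 0 → s ie = 0 →
      Pc x W body (m + 1 + ℓ) (96 * (m + 1) * (ℓ + 1)) (cal (AP.dm ix iy iq ir iv iw ie)) s
        (upd (upd (upd s ix 0) iq (s ix / s iy)) ir (s ix % s iy)) := by
  have base : ∀ s : ι → ℕ, s ix = 0 → s iq = 0 → s ir = 0 →
      Pc x W body 0 3 (cal (AP.dm ix iy iq ir iv iw ie)) s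
        (upd (upd (upd s ix 0) iq (s ix / s iy)) ir (s ix % s iy)) := by
    intro s hx hq hr
    refine (Pc.cal (hb _) (Pc.nzF hx (Pc.skip (n := 0)))).cast ?_
    funext q
    by_cases q1 : q = ir
    · rw [q1, upd_self, hx, hr, Nat.zero_mod]
    · rw [upd_ne q1]
      by_cases q2 : q = iq
      · rw [q2, upd_self, hx, hq, Nat.zero_div]
      · rw [upd_ne q2]
        by_cases q3 : q = ix
        · rw [q3, upd_self, hx]
        · rw [upd_ne q3]
  induction ℓ with
  | zero =>
    intro s hx _ _ _ _ _ _ hq hr _ _ _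
    exact (base s (by simpa using hx) hq hr).mono (by omega) (by nlinarith)
  | succ ℓ ih =>
    intro s hx hxm hym hxW hyW hW hy hq hr hv hw he
    by_cases h0 : s ix = 0
    · exact (base s h0 hq hr).mono (by omega) (by nlinarith)
    · -- the remainder before the last step
      set X := s ix with hX
      set Y := s iy with hY
      have hY0 : 0 < Y := Nat.pos_of_ne_zero hy
      set Q := X / 2 / Y with hQ
      set Rm := X / 2 % Y with hRm
      have hRlt : Rm < Y := Nat.mod_lt _ hY0
      have hdiv : Y * Q + Rm = X / 2 := Nat.div_add_mod _ _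
      have hRle : Rm ≤ X / 2 := Nat.mod_le _ _
      have hQle : Q ≤ X / 2 := Nat.div_le_self _ _
      have hval : ∀ b : ℕ, b = X % 2 → (Y ≤ 2 * Rm + b →
          X / Y = 2 * Q + 1 ∧ X % Y = 2 * Rm + b - Y) ∧ (2 * Rm + b < Y →
          X / Y = 2 * Q ∧ X % Y = 2 * Rm + b) := by
        intro b hbX
        have hYQ : Y * (2 * Q) = 2 * (Y * Q) := by ring
        constructor
        · intro h
          have e : X = (2 * Rm + b - Y) + Y * (2 * Q + 1) := by
            rw [Nat.mul_add, hYQ, Nat.mul_one]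
            omega
          rw [e]
          constructor
          · rw [Nat.add_mul_div_left _ _ hY0, Nat.div_eq_of_lt (by omega), Nat.zero_add]
          · rw [Nat.add_mul_mod_self_left, Nat.mod_eq_of_lt (by omega)]
        · intro h
          have e : X = (2 * Rm + b) + Y * (2 * Q) := by
            rw [hYQ]
            omega
          rw [e]
          constructor
          · rw [Nat.add_mul_div_left _ _ hY0, Nat.div_eq_of_lt h, Nat.zero_add]
          · rw [Nat.add_mul_mod_self_left, Nat.mod_eq_of_lt h]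
      have hd0 : 1 ≤ m + 1 + ℓ := by omega
      have hd1 : m ≤ m + 1 + ℓ := by omega
      have hm : 1 ≤ m := by
        rcases Nat.eq_zero_or_pos m with hm | hm
        · rw [hm, pow_zero] at hxm
          omega
        · exact hm
      have hd2 : m + 1 ≤ m + 1 + ℓ := by omega
      -- the state after the recursive call
      set s1 : ι → ℕ := upd (upd (upd s ix 0) iq Q) ir Rm with hs1
      refine Pc.mono le_rfl ?_ (Pc.cal (hb _) (Pc.nzT h0 (Pc.ob fun b hbi =>
        Pc.halfs (X / 2) rfl (Pc.cons ((ih (upd s ix (X / 2)) ?_ ?_ ?_ ?_ ?_ hW ?_ ?_ ?_ ?_ ?_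
          ?_).cast (t' := s1) ?_)
          (Pc.dbls (2 * Rm + b.toNat) ?_ ?_ (Pc.cons (n := 16 * m + 16)
            (t := upd (upd s1 ir (2 * Rm + b.toNat)) iv (2 * Rm + b.toNat)) ?_
            (Pc.cons (n := 16 * m + 16)
            (t := upd (upd (upd s1 ir (2 * Rm + b.toNat)) iv (2 * Rm + b.toNat)) iw Y) ?_
            (Pc.cons (n := 16 * m + 16)
            (t := upd (upd (upd s1 ir (2 * Rm + b.toNat)) iv (2 * Rm + b.toNat - Y)) ie
              (Y - (2 * Rm + b.toNat) |> min 1)) ?_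
            (Pc.cons (n := 18 * m + 26) (t := upd (upd (upd s ix 0) iq (X / Y)) ir (X % Y)) ?_
              (Pc.nil (n := 0)))))))))))
      · nlinarith
      · rw [upd_self]; rw [pow_succ] at hx; omega
      · rw [upd_self]; omega
      · rw [upd_ne hxy.symm]; exact hym
      · rw [upd_self]; omega
      · rw [upd_ne hxy.symm]; exact hyW
      · rw [upd_ne hxy.symm]; exact hy
      · rw [upd_ne hxq.symm]; exact hq
      · rw [upd_ne hxr.symm]; exact hr
      · rw [upd_ne hxv.symm]; exact hv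
      · rw [upd_ne hxw.symm]; exact hw
      · rw [upd_ne hxe.symm]; exact he
      · rw [upd_self, upd_ne hxy.symm, upd_upd]
      · rw [hs1, upd_self]
      · omega
      · -- copy the remainder
        have k := pc_cpy (x := x) (W := W) hb hrv m (upd s1 ir (2 * Rm + b.toNat))
          (by rw [upd_self]; omega) (by rw [upd_self]; omega)
          (by rw [upd_ne hrv.symm, hs1, upd_ne hrv.symm, upd_ne hqv.symm, upd_ne hxv.symm]
              exact hv)
        rw [upd_self] at k
        exact k.mono hd1 le_rfl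
      · -- copy the divisor
        have e : upd (upd s1 ir (2 * Rm + b.toNat)) iv (2 * Rm + b.toNat) iy = Y := by
          rw [upd_ne hyv, upd_ne hyr, hs1, upd_ne hyr, upd_ne hyq, upd_ne hxy.symm]
        have k := pc_cpy (x := x) (W := W) hb hyw m
          (upd (upd s1 ir (2 * Rm + b.toNat)) iv (2 * Rm + b.toNat))
          (by rw [e]; exact hym) (by rw [e]; exact hyW)
          (by rw [upd_ne hvw.symm, upd_ne hrw.symm, hs1, upd_ne hrw.symm, upd_ne hqw.symm,
                upd_ne hxw.symm]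
              exact hw)
        rw [e] at k
        exact k.mono hd1 le_rfl
      · -- subtract
        have hle : 2 * Rm + b.toNat < 2 ^ m := by omega
        have k := pc_sub (x := x) (W := W) hb hvw.symm hwe hve m false
          (upd (upd (upd s1 ir (2 * Rm + b.toNat)) iv (2 * Rm + b.toNat)) iw Y)
          (by rw [upd_self]; exact hym) (by rw [upd_ne hvw, upd_self]; exact hle)
          (by rw [upd_ne hvw, upd_self]; omega) hW
          (by rw [upd_ne hwe.symm, upd_ne hve.symm, upd_ne hre.symm, hs1, upd_ne hre.symm,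
                upd_ne hqe.symm, upd_ne hxe.symm]
              exact he)
        rw [upd_self, upd_ne hvw, upd_self] at k
        simp only [Bool.toNat_false, Nat.add_zero] at k
        refine (k.mono hd1 le_rfl).cast ?_
        funext q
        by_cases q1 : q = ie
        · rw [q1, upd_self, upd_self]
        · rw [upd_ne q1, upd_ne q1]
          by_cases q2 : q = iv
          · rw [q2, upd_self, upd_self]
          · rw [upd_ne q2, upd_ne q2]
            by_cases q3 : q = iw
            · rw [q3, upd_self, upd_ne hrw.symm, hs1, upd_ne hrw.symm, upd_ne hqw.symm,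
                upd_ne hxw.symm, hw]
            · rw [upd_ne q3, upd_ne q3, upd_ne q2]
      · -- the end
        have hbi' : b.toNat = X % 2 := hbi
        obtain ⟨hge, hlt⟩ := hval b.toNat hbi'
        by_cases hc : Y ≤ 2 * Rm + b.toNat
        · obtain ⟨g1, g2⟩ := hge hc
          set s2 := upd (upd (upd s1 ir (2 * Rm + b.toNat)) iv (2 * Rm + b.toNat - Y)) ie
              (Y - (2 * Rm + b.toNat) |> min 1) with hs2
          have he2 : s2 ie = 0 := by
            rw [hs2, upd_self, show Y - (2 * Rm + b.toNat) = 0 by omega]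
            rfl
          have hr2 : s2 ir = 2 * Rm + b.toNat := by
            rw [hs2, upd_ne hre, upd_ne hrv, upd_self]
          have hv2 : s2 iv = 2 * Rm + b.toNat - Y := by
            rw [hs2, upd_ne hve, upd_self]
          have hq2 : s2 iq = Q := by
            rw [hs2, upd_ne hqe, upd_ne hqv, upd_ne hqr, hs1, upd_ne hqr, upd_self]
          have k1 := pc_clr (x := x) (W := W) (body := body) (i := ir) m s2 (by rw [hr2]; omega)
          have k2 := pc_mov (x := x) (W := W) hb hrv.symm m (upd s2 ir 0)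
            (by rw [upd_ne hrv.symm, hv2]; omega) (by rw [upd_ne hrv.symm, hv2]; omega)
            (by rw [upd_self])
          rw [upd_ne hrv.symm, hv2] at k2
          refine Pc.nzF he2 (Pc.mono (d := m + 1) hd2 ?_
            (Pc.cons (d := m) (k1.mono hm le_rfl)
              (Pc.cons k2 (Pc.dbls (2 * Q + 1) ?_ ?_ ((Pc.nil (n := 0)).cast ?_)))))
          · omega
          · rw [upd_ne hqr, upd_ne hqv, upd_ne hqr, hq2, Bool.toNat_true]
          · have := Nat.div_le_self X Y
            omega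
          · funext q
            by_cases q1 : q = iq
            · rw [q1, upd_self, upd_ne hqr, upd_self, g1]
            · rw [upd_ne q1]
              by_cases q2 : q = ir
              · rw [q2, upd_self, upd_self, g2]
              · rw [upd_ne q2, upd_ne q2, upd_ne q1]
                by_cases q3 : q = iv
                · rw [q3, upd_self, upd_ne hxv.symm, hv]
                · rw [upd_ne q3, upd_ne q2, hs2]
                  by_cases q4 : q = ie
                  · rw [q4, upd_self, upd_ne hxe.symm, he,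
                      show Y - (2 * Rm + b.toNat) = 0 by omega]
                    rfl
                  · rw [upd_ne q4, upd_ne q3, upd_ne q2, hs1, upd_ne q2, upd_ne q1]
        · obtain ⟨g1, g2⟩ := hlt (by omega)
          set s2 := upd (upd (upd s1 ir (2 * Rm + b.toNat)) iv (2 * Rm + b.toNat - Y)) ie
              (Y - (2 * Rm + b.toNat) |> min 1) with hs2
          have he2 : s2 ie = 1 := by
            rw [hs2, upd_self]
            simp only [min_def]
            split_ifs <;> omega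
          have hq2 : s2 iq = Q := by
            rw [hs2, upd_ne hqe, upd_ne hqv, upd_ne hqr, hs1, upd_ne hqr, upd_self]
          refine Pc.nzT (by rw [he2]; exact one_ne_zero) (Pc.mono (d := m + 1) hd2 ?_
            (Pc.halfs 0 ?_ (Pc.dbls (2 * Q) ?_ ?_ ((Pc.nil (n := 0)).cast ?_))))
          · omega
          · rw [he2]
          · rw [upd_ne hqe, hq2, Bool.toNat_false, Nat.add_zero]
          · have := Nat.div_le_self X Y
            omega
          · funext q
            by_cases q1 : q = iq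
            · rw [q1, upd_self, upd_ne hqr, upd_self, g1]
            · rw [upd_ne q1]
              by_cases q4 : q = ie
              · rw [q4, upd_self, upd_ne hre.symm, upd_ne hqe.symm, upd_ne hxe.symm, he]
              · rw [upd_ne q4, hs2, upd_ne q4]
                by_cases q3 : q = iv
                · rw [q3, upd_self, upd_ne hrv.symm, upd_ne hqv.symm, upd_ne hxv.symm, hv]
                  omega
                · rw [upd_ne q3]
                  by_cases q2 : q = ir
                  · rw [q2, upd_self, upd_self, g2]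
                  · rw [upd_ne q2, upd_ne q2, upd_ne q1, hs1, upd_ne q2, upd_ne q1]

end

end Pool.Agent.Lib.MP_9277c3_lc.NC
end

section
/-!
# Expressions, in time polynomial in the length of the numbers
-/
namespace Pool.Agent.Lib.MP_9277c3_lc.NC

open CM

section

variable {α ι F : Type} {x : List α} {W : ℕ} {body : F ⊕ AP ι → BStmt α ι (F ⊕ AP ι)}

/-- Executions which change the registers and the position of the head. -/
def Pp (x : List α) (W : ℕ) (body : F ⊕ AP ι → BStmt α ι (F ⊕ AP ι)) (d n : ℕ)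
    (a : BStmt α ι (F ⊕ AP ι)) (s t : ι → ℕ) : Prop :=
  ∀ q : ℕ × (ℕ → Bool), q.1 ≤ x.length + 1 → ∃ p ≤ x.length + 1,
    ExecT (bsem x W) body d n a (s, q) (t, (p, q.2))

theorem Pc.pp {d n : ℕ} {a : BStmt α ι (F ⊕ AP ι)} {s t : ι → ℕ} (h : Pc x W body d n a s t) :
    Pp x W body d n a s t := fun q hq => ⟨q.1, hq, h q⟩

namespace Pp

theorem mono {d d' n n' : ℕ} (hd : d ≤ d') (hn : n ≤ n') {a : BStmt α ι (F ⊕ AP ι)} {s t : ι → ℕ}
    (h : Pp x W body d n a s t) : Pp x W body d' n' a s t := fun q hq => by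
  obtain ⟨p, hp, h1⟩ := h q hq
  exact ⟨p, hp, h1.mono hd hn⟩

theorem cast {d n : ℕ} {a : BStmt α ι (F ⊕ AP ι)} {s t t' : ι → ℕ}
    (h : Pp x W body d n a s t) (e : t = t') : Pp x W body d n a s t' := e ▸ h

theorem nil {d n : ℕ} {s : ι → ℕ} : Pp x W body d (n + 1) (sqB []) s s := Pc.nil.pp

theorem cons {d n m : ℕ} {b : BStmt α ι (F ⊕ AP ι)} {l : List (BStmt α ι (F ⊕ AP ι))}
    {s t r : ι → ℕ} (h₁ : Pp x W body d n b s t) (h₂ : Pp x W body (d + 1) m (sqB l) t r) :
    Pp x W body (d + 1) (n + m + 1) (sqB (b :: l)) s r := fun q hq => by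
  obtain ⟨p, hp, h3⟩ := h₁ q hq
  obtain ⟨p', hp', h4⟩ := h₂ (p, q.2) hp
  exact ⟨p', hp', ExecT.seq _ _ _ _ _ _ _ _ h3 h4⟩

end Pp

/-- Write the constant `k`, which has at most `f` bits. -/
def blit (i : ι) : ℕ → ℕ → BStmt α ι F
  | 0, _ => Stmt.skip
  | f + 1, k => Stmt.seq (blit i f (k / 2)) (bdbl (decide (k % 2 = 1)) i)

theorem pc_blit (i : ι) (f : ℕ) : ∀ (k : ℕ) (s : ι → ℕ), k < 2 ^ f → s i = 0 → k < W →
    Pc x W body f (2 * f + 1) (blit i f k) s (upd s i k) := by
  induction f with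
  | zero =>
    intro k s hk h0 _
    have hk0 : k = 0 := by simpa using hk
    refine (Pc.skip (n := 0)).cast ?_
    rw [hk0, ← h0, upd_eq_self]
  | succ f ih =>
    intro k s hk h0 hW
    have h1 := ih (k / 2) s (by rw [pow_succ] at hk; omega) h0 (by omega)
    have e : 2 * (k / 2) + (decide (k % 2 = 1)).toNat = k := by
      by_cases h : k % 2 = 1
      · simp only [h, decide_true, Bool.toNat_true]; omega
      · simp only [h, decide_false, Bool.toNat_false]; omega
    intro q
    refine (ExecT.seq _ _ 1 _ _ _ _ _ (h1 q) ((Pc.dbl (n := 0) (x := x) (W := W) (body := body)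
      (d := f + 1) (i := i) (b := decide (k % 2 = 1)) (s := upd s i (k / 2)) ?_) q)).mono le_rfl
        (by omega) |>.cast ?_
    · rw [upd_self, e]; exact hW
    · rw [upd_self, e, upd_upd]

/-- Replace `i` by `f i` if `i < k`, and by `0` if not. -/
def btab (i : ι) : ℕ → (ℕ → ℕ) → BStmt α ι (F ⊕ AP ι)
  | 0, _ => clr i
  | k + 1, f => Stmt.ite (BTest.nz i) (sqB [cal (AP.dec i), btab i k fun j => f (j + 1)])
      (blit i (f 0) (f 0))

/-- Write the code of the cell under the input head, one of the cells `l`, to `i`. -/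
def breadC (i : ι) (cc : Cell α → ℕ) : List (Cell α) → BStmt α ι F
  | [] => Stmt.skip
  | c :: l => Stmt.ite (BTest.cell fun c' => c' = c) (blit i (cc c) (cc c)) (breadC i cc l)

theorem exec_breadC (i : ι) (cc : Cell α → ℕ) (B : ℕ) (hB : ∀ c, cc c ≤ B) (hW : ∀ c, cc c < W)
    (l : List (Cell α)) : ∀ (s : ι → ℕ) (q : ℕ × (ℕ → Bool)), cell x q.1 ∈ l → s i = 0 →
    ExecT (bsem x W) body B (2 * B + 1 + l.length) (breadC i cc l) (s, q)
      (upd s i (cc (cell x q.1)), q) := by
  induction l with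
  | nil => intro s q h; exact absurd h (by simp)
  | cons c l ih =>
    intro s q h h0
    by_cases hc : cell x q.1 = c
    · have h1 := pc_blit (x := x) (W := W) (body := body) i (cc c) (cc c) s Nat.lt_two_pow_self h0
        (hW c) q
      rw [hc]
      exact (ExecT.iteT (M := bsem x W) _ _ (BTest.cell fun c' => c' = c) _ _ (s, q) _ hc
        (h1.mono (hB c) le_rfl)).mono le_rfl (by
          have := hB c
          rw [List.length_cons]
          omega)
    · refine (ExecT.iteF (M := bsem x W) _ _ (BTest.cell fun c' => c' = c) _ _ (s, q) _ hc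
        (ih s q ?_ h0)).mono le_rfl (by rw [List.length_cons]; omega)
      rcases List.mem_cons.1 h with h | h
      · exact absurd h hc
      · exact h

/-- Move the input head to the left end. -/
def bleft : BStmt α ι F :=
  Stmt.loop (BTest.cell fun c => c ≠ Cell.left) (Stmt.prim (BPrim.go Move.left))

theorem exec_bleft (s : ι → ℕ) (u : ℕ → Bool) (p : ℕ) :
    ExecT (bsem x W) body 1 (2 * p + 1) bleft (s, (p, u)) (s, (0, u)) := by
  induction p with
  | zero =>
    exact ExecT.loopF (M := bsem x W) _ _ (BTest.cell fun c => c ≠ Cell.left) _ (s, (0, u))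
      (by simp [bsem, cell])
  | succ p ih =>
    refine (ExecT.loopT (M := bsem x W) 0 1 _ (BTest.cell fun c => c ≠ Cell.left) _
      (s, (p + 1, u)) _ _ ?_ (ExecT.prim (M := bsem x W) _ 0 (BPrim.go Move.left) _ trivial)
      ih).mono le_rfl (by omega)
    simp only [bsem]
    rw [Ne, cell]
    cases x[p]? <;> simp

/-- Decrease `i` and move the input head, until `i = 0` or the head is at the right end. -/
def bwalk (i : ι) : BStmt α ι (F ⊕ AP ι) :=
  Stmt.loop (BTest.nz i) (Stmt.ite (BTest.cell fun c => c = Cell.right) (clr i)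
    (sqB [cal (AP.dec i), Stmt.prim (BPrim.go Move.right)]))

theorem cell_eq_right {x : List α} {p : ℕ} : cell x p = Cell.right ↔ x.length + 1 ≤ p := by
  cases p with
  | zero => simp [cell]
  | succ p =>
    simp only [cell]
    by_cases h : p < x.length
    · rw [List.getElem?_eq_getElem h]
      simp; omega
    · rw [List.getElem?_eq_none (by omega)]
      simp; omega

/-- Replace the position in the counter `i` by the code of the cell at this position. -/
def binp (i : ι) (cc : Cell α → ℕ) (l : List (Cell α)) : BStmt α ι (F ⊕ AP ι) :=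
  sqB [bleft, bwalk i, breadC i cc l]

variable (hb : ∀ p : AP ι, body (Sum.inr p) = apb p)
include hb

theorem pc_btab (i : ι) (m : ℕ) (k : ℕ) : ∀ (f : ℕ → ℕ) (B : ℕ) (s : ι → ℕ),
    (∀ j < k, f j < W ∧ f j ≤ B) → s i < 2 ^ m → s i < W →
    Pc x W body (m + 2 + B + k) ((16 * m + 20) * (k + 1) + 2 * B) (btab i k f) s
      (upd s i (if s i < k then f (s i) else 0)) := by
  induction k with
  | zero =>
    intro f B s _ h _
    exact ((pc_clr m s h).mono (by omega) (by omega)).cast (by simp)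
  | succ k ih =>
    intro f B s hf hm hW
    by_cases h0 : s i = 0
    · have h1 := pc_blit (x := x) (W := W) (body := body) i (f 0) (f 0) s Nat.lt_two_pow_self h0
        (hf 0 (by omega)).1
      have h2 := (hf 0 (by omega)).2
      refine ((Pc.nzF h0 h1).mono (by omega) (by nlinarith)).cast ?_
      rw [h0, if_pos (by omega)]
    · have h1 := pc_dec (x := x) (W := W) hb (i := i) m s hm hW
      have h2 := ih (fun j => f (j + 1)) B (upd s i (s i - 1)) (fun j hj => hf (j + 1) (by omega))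
        (by rw [upd_self]; omega) (by rw [upd_self]; omega)
      have hd : m + 1 ≤ m + 2 + B + k := by omega
      refine Pc.mono le_rfl ?_ (Pc.nzT h0 (Pc.cons (h1.mono hd le_rfl)
        (Pc.cons h2 ((Pc.nil (n := 0)).cast ?_))))
      · nlinarith
      · rw [upd_self, upd_upd, show s i - 1 + 1 = s i by omega]
        congr 1
        by_cases h3 : s i < k + 1
        · rw [if_pos h3, if_pos (by omega)]
        · rw [if_neg h3, if_neg (by omega)]

theorem exec_bwalk (i : ι) (m : ℕ) (hW : 2 ^ m ≤ W) (u : ℕ → Bool) (r : ℕ) :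
    ∀ (s : ι → ℕ) (p : ℕ), p + r = x.length + 1 → s i < 2 ^ m →
    ∃ p' ≤ x.length + 1, cell x p' = cell x (p + s i) ∧
      ExecT (bsem x W) body (m + 3) ((r + 1) * (16 * m + 24) + 1) (bwalk i) (s, (p, u))
        (upd s i 0, (p', u)) := by
  induction r with
  | zero =>
    intro s p hp hm
    refine ⟨p, by omega, ?_, ?_⟩
    · rw [cell_eq_right.2 (by omega : x.length + 1 ≤ p), cell_eq_right.2 (by omega)]
    · by_cases h0 : s i = 0
      · refine ExecT.mono (by omega) (by omega : 1 ≤ _) ((ExecT.loopF (M := bsem x W) 0 0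
          (BTest.nz i) _ (s, (p, u)) (not_not.2 h0)).cast ?_)
        rw [← h0, upd_eq_self]
      · refine (ExecT.loopT (M := bsem x W) (m + 2) (2 * m + 1 + 1) 1 (BTest.nz i) _ (s, (p, u))
          (upd s i 0, (p, u)) _ h0 (ExecT.iteT (M := bsem x W) _ _
            (BTest.cell fun c => c = Cell.right) _ _ _ _ ?_
            ((pc_clr m s hm (p, u)).mono (by omega) le_rfl)) ?_).mono (by omega) (by omega)
        · have hr : x.length + 1 ≤ p := by omega
          exact cell_eq_right.2 hr
        · exact ExecT.loopF (M := bsem x W) _ _ (BTest.nz i) _ (upd s i 0, (p, u))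
            (by simp [bsem])
  | succ r ih =>
    intro s p hp hm
    by_cases h0 : s i = 0
    · refine ⟨p, by omega, by rw [h0, Nat.add_zero], ?_⟩
      refine ExecT.mono (by omega) (by omega : 1 ≤ _) ((ExecT.loopF (M := bsem x W) 0 0
          (BTest.nz i) _ (s, (p, u)) (not_not.2 h0)).cast ?_)
      rw [← h0, upd_eq_self]
    · obtain ⟨p', hp', h1, h2⟩ := ih (upd s i (s i - 1)) (p + 1) (by omega)
        (by rw [upd_self]; omega)
      rw [upd_self, upd_upd] at *
      refine ⟨p', hp', ?_, ?_⟩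
      · rw [h1]
        congr 1
        omega
      · have h3 := pc_dec (x := x) (W := W) hb (i := i) m s hm (by omega) (p, u)
        have h4 : ExecT (bsem x W) body (m + 1) 1 (Stmt.prim (BPrim.go Move.right))
            (upd s i (s i - 1), (p, u)) (upd s i (s i - 1), (p + 1, u)) := by
          refine (ExecT.prim (M := bsem x W) _ 0 (BPrim.go Move.right) _ trivial).cast ?_
          simp only [bsem, Move.apply]
          rw [min_eq_left (by omega)]
        have h5 : ExecT (bsem x W) body (m + 2) (16 * m + 16 + (1 + 1 + 1) + 1)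
            (sqB [cal (AP.dec i), Stmt.prim (BPrim.go Move.right)]) (s, (p, u))
            (upd s i (s i - 1), (p + 1, u)) :=
          ExecT.seq (m + 1) (16 * m + 16) (1 + 1 + 1) _ _ _ _ _ h3
            (ExecT.seq (m + 1) 1 1 _ _ _ _ _ h4 (ExecT.skip _ 0 _))
        have h6 : ¬cell x p = Cell.right := by
          intro h7
          have := cell_eq_right.1 h7
          omega
        refine (ExecT.loopT (M := bsem x W) (m + 2) _ _ (BTest.nz i) _ (s, (p, u)) _ _ h0
          (ExecT.iteF (M := bsem x W) _ _ (BTest.cell fun c => c = Cell.right) _ _ (s, (p, u)) _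
            h6 h5) h2).mono (by omega) (by rw [Nat.add_mul (r + 1) 1]; omega)

theorem pp_binp (i : ι) (cc : Cell α → ℕ) (B : ℕ) (hB : ∀ c, cc c ≤ B) (hc : ∀ c, cc c < W)
    (l : List (Cell α)) (hl : ∀ c, c ∈ l) (m : ℕ) (hW : 2 ^ m ≤ W) (s : ι → ℕ)
    (hs : s i < 2 ^ m) :
    Pp x W body (m + B + 4) ((x.length + 2) * (16 * m + 28) + 2 * B + l.length + 4) (binp i cc l) s
      (upd s i (cc (cell x (s i)))) := by
  intro q hq
  obtain ⟨p', hp', h1, h2⟩ := exec_bwalk (x := x) (W := W) hb i m hW q.2 (x.length + 1) s 0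
    (by omega) hs
  rw [Nat.zero_add] at h1
  have h3 := exec_breadC (x := x) (W := W) (body := body) i cc B hB hc l (upd s i 0) (p', q.2)
    (hl _) (by rw [upd_self])
  rw [upd_upd] at h3
  refine ⟨p', hp', ?_⟩
  refine (ExecT.seq (m + B + 3) _ _ _ _ _ _ _ ((exec_bleft s q.2 q.1).mono (by omega) le_rfl)
    (ExecT.seq (m + B + 3) _ _ _ _ _ _ _ (h2.mono (by omega) le_rfl)
      (ExecT.seq (m + B + 3) _ _ _ _ _ _ _ (h3.mono (by omega) le_rfl)
        (ExecT.skip _ 0 _)))).mono le_rfl ?_ |>.cast ?_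
  · simp only [Nat.add_mul, Nat.mul_add]
    omega
  · simp only [h1]

end

end Pool.Agent.Lib.MP_9277c3_lc.NC
end

section
/-!
# The evaluation of expressions in time polynomial in the length of the numbers
-/
namespace Pool.Agent.Lib.MP_9277c3_lc.NC

open CM

/-! ### Operations -/

section

variable {α ι F : Type} {x : List α} {m : ℕ} {body : F ⊕ AP ι → BStmt α ι (F ⊕ AP ι)}

/-- `x := x - y`, `y := 0`. -/
def osub (x y e : ι) : BStmt α ι (F ⊕ AP ι) := sqB [cal (AP.sub false y x e), clr e]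

/-- `x := x * y`, `y := 0`. -/
def omul (x y z w : ι) : BStmt α ι (F ⊕ AP ι) :=
  sqB [cal (AP.mul y x z w), clr x, cal (AP.mov z x)]

/-- `x := x / y`, `y := 0`. -/
def odiv (x y q r v w e : ι) : BStmt α ι (F ⊕ AP ι) :=
  Stmt.ite (BTest.nz y) (sqB [cal (AP.dm x y q r v w e), clr y, clr r, cal (AP.mov q x)]) (clr x)

/-- `x := x % y`, `y := 0`. -/
def omod (x y q r v w e : ι) : BStmt α ι (F ⊕ AP ι) :=
  Stmt.ite (BTest.nz y) (sqB [cal (AP.dm x y q r v w e), clr y, clr q, cal (AP.mov r x)])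
    Stmt.skip

variable (hb : ∀ p : AP ι, body (Sum.inr p) = apb p)
include hb

theorem pc_oadd {i j : ι} (hij : i ≠ j) (s : ι → ℕ) (hi : s i < 2 ^ m) (hj : s j < 2 ^ m)
    (h : s i + s j < 2 ^ m) :
    Pc x (2 ^ m) body (2 * m + 3) (128 * (m + 1) * (m + 1)) (cal (AP.add false j i)) s
      (upd (upd s j 0) i (s i + s j)) := by
  refine ((pc_add hb hij.symm m false s hj hi (by rw [Bool.toNat_false]; omega)).mono (by omega)
    (by nlinarith)).cast ?_
  rw [Bool.toNat_false, Nat.add_zero, Nat.add_comm (s j)]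

theorem pc_osub {i j e : ι} (hij : i ≠ j) (hie : i ≠ e) (hje : j ≠ e) (hm : 1 ≤ m) (s : ι → ℕ)
    (hi : s i < 2 ^ m) (hj : s j < 2 ^ m) (he : s e = 0) :
    Pc x (2 ^ m) body (2 * m + 3) (128 * (m + 1) * (m + 1)) (osub i j e) s
      (upd (upd s j 0) i (s i - s j)) := by
  have hW : 1 < 2 ^ m := Nat.one_lt_two_pow (by omega)
  have k1 := pc_sub (x := x) (W := 2 ^ m) hb hij.symm hje hie m false s hj hi hi hW he
  simp only [Bool.toNat_false, Nat.add_zero] at k1
  refine Pc.mono (by omega : m + 1 ≤ _) ?_ (Pc.cons k1 (Pc.cons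
    ((pc_clr m _ ?_).mono hm le_rfl) ((Pc.nil (n := 0)).cast ?_)))
  · nlinarith
  · rw [upd_self]
    exact (min_le_left 1 _).trans_lt hW
  · rw [upd_upd]
    funext q
    by_cases q1 : q = e
    · rw [q1, upd_self, upd_ne hie.symm, upd_ne hje.symm, he]
    · rw [upd_ne q1]

theorem pc_omul {i j z w : ι} (hij : i ≠ j) (hiz : i ≠ z) (hiw : i ≠ w) (hjz : j ≠ z)
    (hjw : j ≠ w) (hzw : z ≠ w) (hm : 1 ≤ m) (s : ι → ℕ)
    (hi : s i < 2 ^ m) (hj : s j < 2 ^ m) (h : s i * s j < 2 ^ m) (hz : s z = 0) (hw : s w = 0) :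
    Pc x (2 ^ m) body (2 * m + 3) (128 * (m + 1) * (m + 1)) (omul i j z w) s
      (upd (upd s j 0) i (s i * s j)) := by
  have k1 := pc_mul (x := x) (W := 2 ^ m) hb hij.symm hjz hjw hiz hiw hzw m m s hj hi h hi h hz hw
  have k2 := pc_clr (x := x) (W := 2 ^ m) (body := body) (i := i) m
    (upd (upd s j 0) z (s i * s j)) (by rw [upd_ne hiz, upd_ne hij]; exact hi)
  have k3 := pc_mov (x := x) (W := 2 ^ m) hb hiz.symm m (upd (upd (upd s j 0) z (s i * s j)) i 0)
    (by rw [upd_ne hiz.symm, upd_self]; exact h) (by rw [upd_ne hiz.symm, upd_self]; exact h)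
    (by rw [upd_self])
  rw [upd_ne hiz.symm, upd_self] at k3
  refine Pc.mono (by omega : m + 1 + m + 1 ≤ _) ?_ (Pc.cons k1 (Pc.cons
    (k2.mono (by omega) le_rfl) (Pc.cons (k3.mono (by omega) le_rfl)
      ((Pc.nil (n := 0)).cast ?_))))
  · nlinarith
  · funext q
    by_cases q1 : q = i
    · rw [q1, upd_self, upd_self]
    · rw [upd_ne q1, upd_ne q1]
      by_cases q2 : q = z
      · rw [q2, upd_self, upd_ne hjz.symm, hz]
      · rw [upd_ne q2, upd_ne q1, upd_ne q2]

theorem pc_odiv {i j q r v w e : ι} (hij : i ≠ j) (hiq : i ≠ q) (hir : i ≠ r)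
    (hiv : i ≠ v) (hiw : i ≠ w) (hie : i ≠ e) (hjq : j ≠ q) (hjr : j ≠ r)
    (hjv : j ≠ v) (hjw : j ≠ w) (hje : j ≠ e) (hqr : q ≠ r) (hqv : q ≠ v)
    (hqw : q ≠ w) (hqe : q ≠ e) (hrv : r ≠ v) (hrw : r ≠ w) (hre : r ≠ e)
    (hvw : v ≠ w) (hve : v ≠ e) (hwe : w ≠ e) (hm : 1 ≤ m) (s : ι → ℕ)
    (hi : s i < 2 ^ m) (hj : s j < 2 ^ m) (hq : s q = 0) (hr : s r = 0) (hv : s v = 0)
    (hw : s w = 0) (he : s e = 0) :
    Pc x (2 ^ m) body (2 * m + 3) (128 * (m + 1) * (m + 1)) (odiv i j q r v w e) s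
      (upd (upd s j 0) i (s i / s j)) := by
  have hW : 1 < 2 ^ m := Nat.one_lt_two_pow (by omega)
  by_cases h0 : s j = 0
  · refine ((Pc.nzF h0 (pc_clr m s hi)).mono (by omega) (by nlinarith)).cast ?_
    funext k
    by_cases q1 : k = i
    · rw [q1, upd_self, upd_self, h0, Nat.div_zero]
    · rw [upd_ne q1, upd_ne q1]
      by_cases q2 : k = j
      · rw [q2, upd_self, h0]
      · rw [upd_ne q2]
  · have k1 := pc_dm (x := x) (W := 2 ^ m) hb hij hiq hir hiv hiw hie hjq hjr hjv hjw hje hqr hqv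
      hqw hqe hrv hrw hre hvw hve hwe m m s hi hi hj hi hj hW h0 hq hr hv hw he
    set s1 := upd (upd (upd s i 0) q (s i / s j)) r (s i % s j) with hs1
    have e1 : s1 j = s j := by rw [hs1, upd_ne hjr, upd_ne hjq, upd_ne hij.symm]
    have e2 : s1 r = s i % s j := by rw [hs1, upd_self]
    have e3 : s1 q = s i / s j := by rw [hs1, upd_ne hqr, upd_self]
    have e4 : s1 i = 0 := by rw [hs1, upd_ne hir, upd_ne hiq, upd_self]
    have l1 := Nat.div_le_self (s i) (s j)
    have l2 := Nat.mod_le (s i) (s j)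
    have k2 := pc_clr (x := x) (W := 2 ^ m) (body := body) (i := j) m s1 (by rw [e1]; exact hj)
    have k3 := pc_clr (x := x) (W := 2 ^ m) (body := body) (i := r) m (upd s1 j 0)
      (by rw [upd_ne hjr.symm, e2]; exact l2.trans_lt hi)
    have e5 : upd (upd s1 j 0) r 0 q = s i / s j := by
      rw [upd_ne hqr, upd_ne hjq.symm, e3]
    have k4 := pc_mov (x := x) (W := 2 ^ m) hb hiq.symm m (upd (upd s1 j 0) r 0)
      (by rw [e5]; exact l1.trans_lt hi) (by rw [e5]; exact l1.trans_lt hi)
      (by rw [upd_ne hir, upd_ne hij, e4])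
    rw [e5] at k4
    refine Pc.nzT h0 (Pc.mono (by omega : m + 1 + m + 1 ≤ _) ?_ (Pc.cons k1 (Pc.cons
      (k2.mono (by omega) le_rfl) (Pc.cons (k3.mono (by omega) le_rfl)
        (Pc.cons (k4.mono (by omega) le_rfl) ((Pc.nil (n := 0)).cast ?_)))))) |>.mono le_rfl
        (by have : 1 ≤ 128 * (m + 1) * (m + 1) := by nlinarith
            omega : 128 * (m + 1) * (m + 1) - 1 + 1 ≤ _)
    · have : 96 * (m + 1) * (m + 1) + 32 * (m + 1) ≤ 128 * (m + 1) * (m + 1) := by nlinarith
      omega
    · funext k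
      by_cases q1 : k = i
      · rw [q1, upd_self, upd_self]
      · rw [upd_ne q1, upd_ne q1]
        by_cases q2 : k = q
        · rw [q2, upd_self, upd_ne hjq.symm, hq]
        · rw [upd_ne q2]
          by_cases q3 : k = r
          · rw [q3, upd_self, upd_ne hjr.symm, hr]
          · rw [upd_ne q3]
            by_cases q4 : k = j
            · rw [q4, upd_self, upd_self]
            · rw [upd_ne q4, upd_ne q4, hs1, upd_ne q3, upd_ne q2, upd_ne q1]

theorem pc_omod {i j q r v w e : ι} (hij : i ≠ j) (hiq : i ≠ q) (hir : i ≠ r)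
    (hiv : i ≠ v) (hiw : i ≠ w) (hie : i ≠ e) (hjq : j ≠ q) (hjr : j ≠ r)
    (hjv : j ≠ v) (hjw : j ≠ w) (hje : j ≠ e) (hqr : q ≠ r) (hqv : q ≠ v)
    (hqw : q ≠ w) (hqe : q ≠ e) (hrv : r ≠ v) (hrw : r ≠ w) (hre : r ≠ e)
    (hvw : v ≠ w) (hve : v ≠ e) (hwe : w ≠ e) (hm : 1 ≤ m) (s : ι → ℕ)
    (hi : s i < 2 ^ m) (hj : s j < 2 ^ m) (hq : s q = 0) (hr : s r = 0) (hv : s v = 0)
    (hw : s w = 0) (he : s e = 0) :
    Pc x (2 ^ m) body (2 * m + 3) (128 * (m + 1) * (m + 1)) (omod i j q r v w e) s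
      (upd (upd s j 0) i (s i % s j)) := by
  have hW : 1 < 2 ^ m := Nat.one_lt_two_pow (by omega)
  by_cases h0 : s j = 0
  · refine ((Pc.nzF h0 (Pc.skip (n := 0) (d := 0))).mono (by omega) (by nlinarith)).cast ?_
    funext k
    by_cases q1 : k = i
    · rw [q1, upd_self, h0, Nat.mod_zero]
    · rw [upd_ne q1]
      by_cases q2 : k = j
      · rw [q2, upd_self, h0]
      · rw [upd_ne q2]
  · have k1 := pc_dm (x := x) (W := 2 ^ m) hb hij hiq hir hiv hiw hie hjq hjr hjv hjw hje hqr hqv
      hqw hqe hrv hrw hre hvw hve hwe m m s hi hi hj hi hj hW h0 hq hr hv hw he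
    set s1 := upd (upd (upd s i 0) q (s i / s j)) r (s i % s j) with hs1
    have e1 : s1 j = s j := by rw [hs1, upd_ne hjr, upd_ne hjq, upd_ne hij.symm]
    have e2 : s1 r = s i % s j := by rw [hs1, upd_self]
    have e3 : s1 q = s i / s j := by rw [hs1, upd_ne hqr, upd_self]
    have e4 : s1 i = 0 := by rw [hs1, upd_ne hir, upd_ne hiq, upd_self]
    have l1 := Nat.div_le_self (s i) (s j)
    have l2 := Nat.mod_le (s i) (s j)
    have k2 := pc_clr (x := x) (W := 2 ^ m) (body := body) (i := j) m s1 (by rw [e1]; exact hj)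
    have k3 := pc_clr (x := x) (W := 2 ^ m) (body := body) (i := q) m (upd s1 j 0)
      (by rw [upd_ne hjq.symm, e3]; exact l1.trans_lt hi)
    have e5 : upd (upd s1 j 0) q 0 r = s i % s j := by
      rw [upd_ne hqr.symm, upd_ne hjr.symm, e2]
    have k4 := pc_mov (x := x) (W := 2 ^ m) hb hir.symm m (upd (upd s1 j 0) q 0)
      (by rw [e5]; exact l2.trans_lt hi) (by rw [e5]; exact l2.trans_lt hi)
      (by rw [upd_ne hiq, upd_ne hij, e4])
    rw [e5] at k4
    refine Pc.nzT h0 (Pc.mono (by omega : m + 1 + m + 1 ≤ _) ?_ (Pc.cons k1 (Pc.cons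
      (k2.mono (by omega) le_rfl) (Pc.cons (k3.mono (by omega) le_rfl)
        (Pc.cons (k4.mono (by omega) le_rfl) ((Pc.nil (n := 0)).cast ?_)))))) |>.mono le_rfl
        (by have : 1 ≤ 128 * (m + 1) * (m + 1) := by nlinarith
            omega : 128 * (m + 1) * (m + 1) - 1 + 1 ≤ _)
    · have : 96 * (m + 1) * (m + 1) + 32 * (m + 1) ≤ 128 * (m + 1) * (m + 1) := by nlinarith
      omega
    · funext k
      by_cases q1 : k = i
      · rw [q1, upd_self, upd_self]
      · rw [upd_ne q1, upd_ne q1]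
        by_cases q3 : k = r
        · rw [q3, upd_self, upd_ne hjr.symm, hr]
        · rw [upd_ne q3]
          by_cases q2 : k = q
          · rw [q2, upd_self, upd_ne hjq.symm, hq]
          · rw [upd_ne q2]
            by_cases q4 : k = j
            · rw [q4, upd_self, upd_self]
            · rw [upd_ne q4, upd_ne q4, hs1, upd_ne q3, upd_ne q2, upd_ne q1]

end

/-! ### Compilation of expressions -/

section

variable {α R F : Type} (cc : Cell α → ℕ) (l : List (Cell α)) (K : ℕ)

/-- Compute the value of an expression in the temporary register `d`. -/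
def bcomp : Exp R → ℕ → BStmt α (R ⊕ Fin (K + 1)) (F ⊕ AP (R ⊕ Fin (K + 1)))
  | Exp.var r, d => cal (AP.cpy (Sum.inl r) (tm R K d))
  | Exp.lit k, d => blit (tm R K d) k k
  | Exp.add a b, d => sqB [bcomp a d, bcomp b (d + 1),
      cal (AP.add false (tm R K (d + 1)) (tm R K d))]
  | Exp.sub a b, d => sqB [bcomp a d, bcomp b (d + 1),
      osub (tm R K d) (tm R K (d + 1)) (tm R K (d + 2))]
  | Exp.mul a b, d => sqB [bcomp a d, bcomp b (d + 1),
      omul (tm R K d) (tm R K (d + 1)) (tm R K (d + 2)) (tm R K (d + 3))]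
  | Exp.div a b, d => sqB [bcomp a d, bcomp b (d + 1),
      odiv (tm R K d) (tm R K (d + 1)) (tm R K (d + 2)) (tm R K (d + 3)) (tm R K (d + 4))
        (tm R K (d + 5)) (tm R K (d + 6))]
  | Exp.mod a b, d => sqB [bcomp a d, bcomp b (d + 1),
      omod (tm R K d) (tm R K (d + 1)) (tm R K (d + 2)) (tm R K (d + 3)) (tm R K (d + 4))
        (tm R K (d + 5)) (tm R K (d + 6))]
  | Exp.tab f k a, d => sqB [bcomp a d, btab (tm R K d) k f]
  | Exp.inp a, d => sqB [bcomp a d, binp (tm R K d) cc l]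

/-- A bound for the depth needed, besides the length of the numbers. -/
def edd (B : ℕ) : Exp R → ℕ
  | Exp.var _ => 0
  | Exp.lit k => k
  | Exp.add a b => max (edd B a) (edd B b) + 1
  | Exp.sub a b => max (edd B a) (edd B b) + 1
  | Exp.mul a b => max (edd B a) (edd B b) + 1
  | Exp.div a b => max (edd B a) (edd B b) + 1
  | Exp.mod a b => max (edd B a) (edd B b) + 1
  | Exp.tab f k a => edd B a + k + (Finset.range k).sup f + 1
  | Exp.inp a => edd B a + B + 1

/-- The factor in the bound for the time. -/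
def esz (B : ℕ) : Exp R → ℕ
  | Exp.var _ => 1
  | Exp.lit k => k + 1
  | Exp.add a b => esz B a + esz B b + 1
  | Exp.sub a b => esz B a + esz B b + 1
  | Exp.mul a b => esz B a + esz B b + 1
  | Exp.div a b => esz B a + esz B b + 1
  | Exp.mod a b => esz B a + esz B b + 1
  | Exp.tab f k a => esz B a + (k + (Finset.range k).sup f + 2)
  | Exp.inp a => esz B a + (B + 2)

/-- The unit of time. -/
def ut (m n B : ℕ) : ℕ := 256 * (m + 1) * (m + 1) * (n + 2) * (B + 1)

variable {cc l K} {x : List α} {m : ℕ}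
  {body : F ⊕ AP (R ⊕ Fin (K + 1)) → BStmt α (R ⊕ Fin (K + 1)) (F ⊕ AP (R ⊕ Fin (K + 1)))}

theorem ut_ge (m n B : ℕ) : 128 * (m + 1) * (m + 1) + 8 ≤ ut m n B ∧ 32 * m + 64 ≤ ut m n B := by
  have h1 : 1 ≤ (n + 2) * (B + 1) := Nat.one_le_iff_ne_zero.2 (by positivity)
  have h2 : ut m n B = (256 * (m + 1) * (m + 1)) * ((n + 2) * (B + 1)) := by
    unfold ut; ring
  have h3 : 256 * (m + 1) * (m + 1) ≤ ut m n B := by
    rw [h2]; exact Nat.le_mul_of_pos_right _ h1
  constructor
  · nlinarith
  · nlinarith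

/-- Two expressions are evaluated; then a binary operation is executed. -/
theorem pp_bin {a b : Exp R} {d dd u v : ℕ} (hd : d + 7 ≤ K)
    {s : (R ⊕ Fin (K + 1)) → ℕ} {s0 : R → ℕ} (hs : ∀ r, s (Sum.inl r) = s0 r)
    (h0 : ∀ j, d ≤ j → j ≤ K → s (tm R K j) = 0) {va vb vc B : ℕ}
    {C : BStmt α (R ⊕ Fin (K + 1)) (F ⊕ AP (R ⊕ Fin (K + 1)))}
    (ha : ∀ s : (R ⊕ Fin (K + 1)) → ℕ, (∀ r, s (Sum.inl r) = s0 r) →
      (∀ j, d ≤ j → j ≤ K → s (tm R K j) = 0) →
      Pp x (2 ^ m) body (2 * m + 4 + dd) (u * ut m x.length B) (bcomp cc l K a d) s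
        (upd s (tm R K d) va))
    (hb' : ∀ s : (R ⊕ Fin (K + 1)) → ℕ, (∀ r, s (Sum.inl r) = s0 r) →
      (∀ j, d + 1 ≤ j → j ≤ K → s (tm R K j) = 0) →
      Pp x (2 ^ m) body (2 * m + 4 + dd) (v * ut m x.length B) (bcomp cc l K b (d + 1)) s
        (upd s (tm R K (d + 1)) vb))
    (hC : ∀ s : (R ⊕ Fin (K + 1)) → ℕ, s (tm R K d) = va → s (tm R K (d + 1)) = vb →
      (∀ j, d + 2 ≤ j → j ≤ K → s (tm R K j) = 0) →
      Pc x (2 ^ m) body (2 * m + 3) (128 * (m + 1) * (m + 1)) C s
        (upd (upd s (tm R K (d + 1)) 0) (tm R K d) vc)) :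
    Pp x (2 ^ m) body (2 * m + 4 + (dd + 1)) ((u + v + 1) * ut m x.length B)
      (sqB [bcomp cc l K a d, bcomp cc l K b (d + 1), C]) s (upd s (tm R K d) vc) := by
  have n1 : ∀ j, d + 1 ≤ j → j ≤ K → tm R K j ≠ tm R K d := fun j h1 h2 =>
    tm_ne K h2 (by omega) (by omega)
  have n2 : ∀ j, d + 2 ≤ j → j ≤ K → tm R K j ≠ tm R K (d + 1) := fun j h1 h2 =>
    tm_ne K h2 (by omega) (by omega)
  have h1 := ha s hs h0
  have h2 := hb' (upd s (tm R K d) va) (fun r => by
    rw [upd_ne (inl_ne_tm K), hs]) (fun j hj hj' => by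
      rw [upd_ne (n1 j hj hj')]
      exact h0 j (by omega) hj')
  have h3 := hC (upd (upd s (tm R K d) va) (tm R K (d + 1)) vb)
    (by rw [upd_ne (n1 (d + 1) le_rfl (by omega)).symm, upd_self]) (by rw [upd_self])
    (fun j hj hj' => by
      rw [upd_ne (n2 j hj hj'), upd_ne (n1 j (by omega) hj')]
      exact h0 j (by omega) hj')
  have hut := (ut_ge m x.length B).1
  refine Pp.mono (d := 2 * m + 4 + dd + 1) (by omega) ?_ (Pp.cons h1 (Pp.cons h2 (Pp.cons
    (h3.pp.mono (by omega) le_rfl) ((Pp.nil (n := 0)).cast ?_))))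
  · simp only [Nat.add_mul, Nat.one_mul]
    omega
  · funext k
    by_cases hk : k = tm R K d
    · rw [hk, upd_self, upd_self]
    · by_cases hk' : k = tm R K (d + 1)
      · rw [hk', upd_ne (n1 (d + 1) le_rfl (by omega)), upd_self,
          upd_ne (n1 (d + 1) le_rfl (by omega))]
        exact (h0 _ (by omega) (by omega)).symm
      · rw [upd_ne hk, upd_ne hk', upd_ne hk', upd_ne hk, upd_ne hk]

variable (hb : ∀ p : AP (R ⊕ Fin (K + 1)), body (Sum.inr p) = apb p)
include hb

theorem bcomp_spec {B : ℕ} (hB : ∀ c, cc c ≤ B) (hl : ∀ c, c ∈ l) (hll : l.length ≤ B)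
    (hm : 1 ≤ m) (e : Exp R) :
    ∀ (d : ℕ) (s : (R ⊕ Fin (K + 1)) → ℕ) (s0 : R → ℕ), d + e.ht + 7 ≤ K →
      e.ok x cc (2 ^ m) s0 → (∀ r, s (Sum.inl r) = s0 r) →
      (∀ j, d ≤ j → j ≤ K → s (tm R K j) = 0) →
      Pp x (2 ^ m) body (2 * m + 4 + edd B e) (esz B e * ut m x.length B) (bcomp cc l K e d) s
        (upd s (tm R K d) (e.eval x cc s0)) := by
  have hut := ut_ge m x.length B
  have hne : ∀ {i j : ℕ}, i ≤ K → j ≤ K → i ≠ j → tm R K i ≠ tm R K j := fun h1 h2 h3 =>
    tm_ne K h1 h2 h3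
  induction e with
  | var r =>
    intro d s s0 hd hok hs h0
    have h3 : s (Sum.inl r) < 2 ^ m := by rw [hs]; exact hok
    refine ((pc_cpy (x := x) (W := 2 ^ m) hb (inl_ne_tm K) m s h3 h3
      (h0 d le_rfl (by omega))).pp.mono (by omega) ?_).cast ?_
    · simp only [esz]
      omega
    · rw [hs]
      rfl
  | lit k =>
    intro d s s0 hd hok hs h0
    refine ((pc_blit (x := x) (W := 2 ^ m) (body := body) (tm R K d) k k s Nat.lt_two_pow_self
      (h0 d le_rfl (by omega)) hok).pp.mono (by simp only [edd]; omega) ?_)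
    simp only [esz]
    nlinarith
  | add a b iha ihb =>
    intro d s s0 hd hok hs h0
    simp only [Exp.ht] at hd
    refine pp_bin (dd := max (edd B a) (edd B b)) (u := esz B a) (v := esz B b) (by omega) hs h0
      (fun s hs h => (iha d s s0 (by omega) hok.1 hs h).mono (by omega) le_rfl)
      (fun s hs h => (ihb (d + 1) s s0 (by omega) hok.2.1 hs h).mono (by omega) le_rfl)
      (fun s h1 h2 _ => ?_)
    have h3 := pc_oadd (x := x) (m := m) hb (hne (by omega : d ≤ K) (by omega : d + 1 ≤ K)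
      (by omega)) s (by rw [h1]; exact hok.1.lt) (by rw [h2]; exact hok.2.1.lt)
      (by rw [h1, h2]; exact hok.2.2)
    rw [h1, h2] at h3
    exact h3
  | sub a b iha ihb =>
    intro d s s0 hd hok hs h0
    simp only [Exp.ht] at hd
    refine pp_bin (dd := max (edd B a) (edd B b)) (u := esz B a) (v := esz B b) (by omega) hs h0
      (fun s hs h => (iha d s s0 (by omega) hok.1 hs h).mono (by omega) le_rfl)
      (fun s hs h => (ihb (d + 1) s s0 (by omega) hok.2 hs h).mono (by omega) le_rfl)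
      (fun s h1 h2 hz => ?_)
    have h3 := pc_osub (x := x) (m := m) hb (hne (by omega : d ≤ K) (by omega : d + 1 ≤ K)
      (by omega)) (hne (by omega : d ≤ K) (by omega : d + 2 ≤ K) (by omega))
      (hne (by omega : d + 1 ≤ K) (by omega : d + 2 ≤ K) (by omega)) hm s
      (by rw [h1]; exact hok.1.lt) (by rw [h2]; exact hok.2.lt)
      (hz (d + 2) le_rfl (by omega))
    rw [h1, h2] at h3
    exact h3
  | mul a b iha ihb =>
    intro d s s0 hd hok hs h0
    simp only [Exp.ht] at hd
    refine pp_bin (dd := max (edd B a) (edd B b)) (u := esz B a) (v := esz B b) (by omega) hs h0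
      (fun s hs h => (iha d s s0 (by omega) hok.1 hs h).mono (by omega) le_rfl)
      (fun s hs h => (ihb (d + 1) s s0 (by omega) hok.2.1 hs h).mono (by omega) le_rfl)
      (fun s h1 h2 hz => ?_)
    have h3 := pc_omul (x := x) (m := m) hb (hne (by omega : d ≤ K) (by omega : d + 1 ≤ K)
      (by omega)) (hne (by omega : d ≤ K) (by omega : d + 2 ≤ K) (by omega))
      (hne (by omega : d ≤ K) (by omega : d + 3 ≤ K) (by omega))
      (hne (by omega : d + 1 ≤ K) (by omega : d + 2 ≤ K) (by omega))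
      (hne (by omega : d + 1 ≤ K) (by omega : d + 3 ≤ K) (by omega))
      (hne (by omega : d + 2 ≤ K) (by omega : d + 3 ≤ K) (by omega)) hm s
      (by rw [h1]; exact hok.1.lt) (by rw [h2]; exact hok.2.1.lt) (by rw [h1, h2]; exact hok.2.2)
      (hz (d + 2) le_rfl (by omega)) (hz (d + 3) (by omega) (by omega))
    rw [h1, h2] at h3
    exact h3
  | div a b iha ihb =>
    intro d s s0 hd hok hs h0
    simp only [Exp.ht] at hd
    refine pp_bin (dd := max (edd B a) (edd B b)) (u := esz B a) (v := esz B b) (by omega) hs h0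
      (fun s hs h => (iha d s s0 (by omega) hok.1 hs h).mono (by omega) le_rfl)
      (fun s hs h => (ihb (d + 1) s s0 (by omega) hok.2 hs h).mono (by omega) le_rfl)
      (fun s h1 h2 hz => ?_)
    have nn : ∀ u v : ℕ, u ≤ 6 → v ≤ 6 → u ≠ v → tm R K (d + u) ≠ tm R K (d + v) :=
      fun u v hu hv huv => hne (by omega) (by omega) (by omega)
    have h3 := pc_odiv (x := x) (m := m) (i := tm R K d) hb (nn 0 1 (by omega) (by omega) (by omega))
      (nn 0 2 (by omega) (by omega) (by omega)) (nn 0 3 (by omega) (by omega) (by omega))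
      (nn 0 4 (by omega) (by omega) (by omega)) (nn 0 5 (by omega) (by omega) (by omega))
      (nn 0 6 (by omega) (by omega) (by omega)) (nn 1 2 (by omega) (by omega) (by omega))
      (nn 1 3 (by omega) (by omega) (by omega)) (nn 1 4 (by omega) (by omega) (by omega))
      (nn 1 5 (by omega) (by omega) (by omega)) (nn 1 6 (by omega) (by omega) (by omega))
      (nn 2 3 (by omega) (by omega) (by omega)) (nn 2 4 (by omega) (by omega) (by omega))
      (nn 2 5 (by omega) (by omega) (by omega)) (nn 2 6 (by omega) (by omega) (by omega))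
      (nn 3 4 (by omega) (by omega) (by omega)) (nn 3 5 (by omega) (by omega) (by omega))
      (nn 3 6 (by omega) (by omega) (by omega)) (nn 4 5 (by omega) (by omega) (by omega))
      (nn 4 6 (by omega) (by omega) (by omega)) (nn 5 6 (by omega) (by omega) (by omega)) hm s
      (by rw [h1]; exact hok.1.lt) (by rw [h2]; exact hok.2.lt)
      (hz (d + 2) le_rfl (by omega)) (hz (d + 3) (by omega) (by omega))
      (hz (d + 4) (by omega) (by omega)) (hz (d + 5) (by omega) (by omega))
      (hz (d + 6) (by omega) (by omega))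
    rw [h1, h2] at h3
    exact h3
  | mod a b iha ihb =>
    intro d s s0 hd hok hs h0
    simp only [Exp.ht] at hd
    refine pp_bin (dd := max (edd B a) (edd B b)) (u := esz B a) (v := esz B b) (by omega) hs h0
      (fun s hs h => (iha d s s0 (by omega) hok.1 hs h).mono (by omega) le_rfl)
      (fun s hs h => (ihb (d + 1) s s0 (by omega) hok.2 hs h).mono (by omega) le_rfl)
      (fun s h1 h2 hz => ?_)
    have nn : ∀ u v : ℕ, u ≤ 6 → v ≤ 6 → u ≠ v → tm R K (d + u) ≠ tm R K (d + v) :=
      fun u v hu hv huv => hne (by omega) (by omega) (by omega)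
    have h3 := pc_omod (x := x) (m := m) (i := tm R K d) hb (nn 0 1 (by omega) (by omega) (by omega))
      (nn 0 2 (by omega) (by omega) (by omega)) (nn 0 3 (by omega) (by omega) (by omega))
      (nn 0 4 (by omega) (by omega) (by omega)) (nn 0 5 (by omega) (by omega) (by omega))
      (nn 0 6 (by omega) (by omega) (by omega)) (nn 1 2 (by omega) (by omega) (by omega))
      (nn 1 3 (by omega) (by omega) (by omega)) (nn 1 4 (by omega) (by omega) (by omega))
      (nn 1 5 (by omega) (by omega) (by omega)) (nn 1 6 (by omega) (by omega) (by omega))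
      (nn 2 3 (by omega) (by omega) (by omega)) (nn 2 4 (by omega) (by omega) (by omega))
      (nn 2 5 (by omega) (by omega) (by omega)) (nn 2 6 (by omega) (by omega) (by omega))
      (nn 3 4 (by omega) (by omega) (by omega)) (nn 3 5 (by omega) (by omega) (by omega))
      (nn 3 6 (by omega) (by omega) (by omega)) (nn 4 5 (by omega) (by omega) (by omega))
      (nn 4 6 (by omega) (by omega) (by omega)) (nn 5 6 (by omega) (by omega) (by omega)) hm s
      (by rw [h1]; exact hok.1.lt) (by rw [h2]; exact hok.2.lt)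
      (hz (d + 2) le_rfl (by omega)) (hz (d + 3) (by omega) (by omega))
      (hz (d + 4) (by omega) (by omega)) (hz (d + 5) (by omega) (by omega))
      (hz (d + 6) (by omega) (by omega))
    rw [h1, h2] at h3
    exact h3
  | tab f k a iha =>
    intro d s s0 hd hok hs h0
    simp only [Exp.ht] at hd
    have h1 := iha d s s0 (by omega) hok.1 hs h0
    have h2 := pc_btab (x := x) (W := 2 ^ m) hb (tm R K d) m k f ((Finset.range k).sup f)
      (upd s (tm R K d) (a.eval x cc s0))
      (fun j hj => ⟨hok.2 j hj, Finset.le_sup (f := f) (Finset.mem_range.2 hj)⟩)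
      (by rw [upd_self]; exact hok.1.lt) (by rw [upd_self]; exact hok.1.lt)
    rw [upd_self, upd_upd] at h2
    refine Pp.mono (d := 2 * m + 4 + (edd B a + k + (Finset.range k).sup f) + 1) ?_ ?_
      (Pp.cons (h1.mono (by omega) le_rfl) (Pp.cons (h2.pp.mono (by omega) le_rfl)
        (Pp.nil (n := 0))))
    · simp only [edd]; omega
    · simp only [esz]
      have h3 := hut.2
      nlinarith [Nat.zero_le (m * k), Nat.zero_le ((Finset.range k).sup f * m)]
  | inp a iha =>
    intro d s s0 hd hok hs h0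
    simp only [Exp.ht] at hd
    have h1 := iha d s s0 (by omega) hok.1 hs h0
    have h2 := pp_binp (x := x) (W := 2 ^ m) hb (tm R K d) cc B hB hok.2 l hl m le_rfl
      (upd s (tm R K d) (a.eval x cc s0)) (by rw [upd_self]; exact hok.1.lt)
    rw [upd_self, upd_upd] at h2
    refine Pp.mono (d := 2 * m + 4 + (edd B a + B) + 1) ?_ ?_
      (Pp.cons (h1.mono (by omega) le_rfl) (Pp.cons (h2.mono (by omega) le_rfl)
        (Pp.nil (n := 0))))
    · simp only [edd]; omega
    · simp only [esz]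
      have h3 : (x.length + 2) * (16 * m + 28) + 2 * B + l.length + 4 + 8 ≤
          (B + 2) * ut m x.length B := by
        have h4 : (x.length + 2) * (16 * m + 28) ≤ ut m x.length B := by
          have h5 : ut m x.length B = (x.length + 2) * (256 * (m + 1) * ((m + 1) * (B + 1))) := by
            unfold ut; ring
          rw [h5]
          refine Nat.mul_le_mul_left _ ?_
          have h6 : 1 ≤ (m + 1) * (B + 1) := Nat.one_le_iff_ne_zero.2 (by positivity)
          nlinarith
        have h7 := hut.1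
        nlinarith
      nlinarith

end

end Pool.Agent.Lib.MP_9277c3_lc.NC
end

section
/-!
# Programs which read bits are executed by nondeterministic Turing machines, with a bound for the time
-/
namespace Pool.Agent.Lib.MP_9277c3_lc.NC

open CM

/-! ### From binary numbers to stacks -/

/-- The translation of instructions. -/
def fpB {α ι F : Type} : BPrim ι → GStmt α ι Bool F
  | BPrim.half i => Stmt.prim (Sum.inl (SPrim.pop i))
  | BPrim.dbl true i => Stmt.prim (Sum.inl (SPrim.push i true))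
  | BPrim.dbl false i => Stmt.ite (Sum.inl (STest.ne i))
      (Stmt.prim (Sum.inl (SPrim.push i false))) Stmt.skip
  | BPrim.go mv => Stmt.prim (Sum.inl (SPrim.go mv))
  | BPrim.adv => Stmt.prim (Sum.inr ())

/-- The translation of tests. -/
def ftB {α ι : Type} : BTest α ι → STest α ι Bool ⊕ Unit
  | BTest.odd i => Sum.inl (STest.top i true)
  | BTest.nz i => Sum.inl (STest.ne i)
  | BTest.cell p => Sum.inl (STest.cell p)
  | BTest.coin => Sum.inr ()

theorem bits_half (n : ℕ) : (n / 2).bits = n.bits.tail := by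
  induction n using Nat.binaryRec' with
  | zero => simp
  | bit b n h _ =>
    rw [Nat.bits_append_bit n b h, List.tail_cons]
    congr 1
    cases b <;> simp [Nat.bit] <;> omega

theorem bits_dbl (n : ℕ) (b : Bool) (h : n ≠ 0 ∨ b = true) :
    (2 * n + b.toNat).bits = b :: n.bits := by
  rw [← Nat.bits_append_bit n b (by rintro rfl; simpa using h)]
  congr 1
  cases b <;> simp [Nat.bit]

theorem bits_head (n : ℕ) : n.bits.head? = some true ↔ n % 2 = 1 := by
  induction n using Nat.binaryRec' with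
  | zero => simp
  | bit b n h _ =>
    rw [Nat.bits_append_bit n b h]
    cases b <;> simp [Nat.bit] <;> omega

theorem exec_stackT {α ι F : Type} {x : List α} {m d n : ℕ} {body : F → BStmt α ι F}
    {a : BStmt α ι F} {s t : (ι → ℕ) × ℕ × (ℕ → Bool)}
    (h : ExecT (bsem x (2 ^ m)) body d n a s t)
    (s' : ((ι → List Bool) × ℕ) × (ℕ → Bool))
    (hs : (∀ i, s'.1.1 i = (s.1 i).bits) ∧ s'.1.2 = s.2.1 ∧ s'.2 = s.2.2) :
    ∃ t' : ((ι → List Bool) × ℕ) × (ℕ → Bool),
      ExecT (ext (ssem x m)) (fun f => trg fpB ftB id (body f)) d (n * 2) (trg fpB ftB id a) s' t' ∧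
      (∀ i, t'.1.1 i = (t.1 i).bits) ∧ t'.1.2 = t.2.1 ∧ t'.2 = t.2.2 := by
  refine ExecT.trg (M := bsem x (2 ^ m)) (M' := ext (ssem x m)) (c := 0) (τ := 2)
    (body' := fun f => trg fpB ftB id (body f)) (fp := fpB) (ft := ftB) (φ := id)
    (R := fun (s : (ι → ℕ) × ℕ × (ℕ → Bool)) (s' : ((ι → List Bool) × ℕ) × (ℕ → Bool)) =>
      (∀ i, s'.1.1 i = (s.1 i).bits) ∧ s'.1.2 = s.2.1 ∧ s'.2 = s.2.2)
    (by omega) (fun f => rfl) (G := fun _ => True) (fun f => all_true _) ?_ ?_ h (all_true _) s' hs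
  · rintro p ⟨s, p', u⟩ ⟨⟨S, p''⟩, u'⟩ - hpre ⟨h1, h2, h3⟩
    simp only at h1 h2 h3
    subst h2 h3
    cases p with
    | half i =>
      refine ⟨_, (ExecT.prim (M := ext (ssem x m)) 0 0 (Sum.inl (SPrim.pop i)) _ trivial).mono
        le_rfl (by omega), fun j => ?_, rfl, rfl⟩
      simp only [ext, ssem, bsem]
      by_cases hj : j = i
      · rw [hj, upd_self, upd_self, h1, bits_half]
      · rw [upd_ne hj, upd_ne hj, h1]
    | dbl b i =>
      simp only [bsem] at hpre
      by_cases hb : s i ≠ 0 ∨ b = true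
      · have hlen : (S i).length < m := by
          rw [h1, Nat.size_eq_bits_len]
          rcases Nat.eq_zero_or_pos m with hm | hm
          · rw [hm, pow_zero] at hpre
            rcases hb with hb | hb
            · omega
            · rw [hb, Bool.toNat_true] at hpre
              omega
          · have h4 : (s i).size ≤ m - 1 := by
              rw [Nat.size_le]
              have h5 : 2 ^ m = 2 * 2 ^ (m - 1) := by rw [← pow_succ', Nat.sub_add_cancel hm]
              omega
            omega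
        refine ⟨((upd S i (b :: S i), p''), u'), ?_, fun j => ?_, rfl, rfl⟩
        · cases b with
          | true =>
            exact (ExecT.prim (M := ext (ssem x m)) 0 0 (Sum.inl (SPrim.push i true))
              ((S, p''), u') hlen).mono le_rfl (by omega)
          | false =>
            refine ExecT.iteT (M := ext (ssem x m)) 0 1 (Sum.inl (STest.ne i)) _ _
              ((S, p''), u') _ ?_ (ExecT.prim (M := ext (ssem x m)) 0 0
                (Sum.inl (SPrim.push i false)) ((S, p''), u') hlen)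
            have h4 : s i ≠ 0 := by simpa using hb
            change S i ≠ []
            rw [h1]
            exact bits_ne_nil h4
        · simp only [bsem]
          by_cases hj : j = i
          · rw [hj, upd_self, upd_self, h1, bits_dbl _ _ hb]
          · rw [upd_ne hj, upd_ne hj, h1]
      · have h4 : s i = 0 := by
          by_contra h5
          exact hb (Or.inl h5)
        have h5 : b = false := by
          cases b
          · rfl
          · exact absurd (Or.inr rfl) hb
        subst h5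
        refine ⟨((S, p''), u'), ?_, fun j => ?_, rfl, rfl⟩
        · refine ExecT.iteF (M := ext (ssem x m)) 0 1 (Sum.inl (STest.ne i)) _ _
              ((S, p''), u') _ ?_ (ExecT.skip _ 0 _)
          change ¬S i ≠ []
          rw [h1, h4]
          simp
        · simp only [bsem]
          by_cases hj : j = i
          · rw [hj, upd_self, h1, h4]
            simp
          · rw [upd_ne hj, h1]
    | go mv =>
      exact ⟨_, (ExecT.prim (M := ext (ssem x m)) 0 0 (Sum.inl (SPrim.go mv)) _ trivial).mono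
        le_rfl (by omega), h1, rfl, rfl⟩
    | adv =>
      exact ⟨_, (ExecT.prim (M := ext (ssem x m)) 0 0 (Sum.inr ()) _ trivial).mono
        le_rfl (by omega), h1, rfl, rfl⟩
  · rintro t ⟨s, p', u⟩ ⟨⟨S, p''⟩, u'⟩ ⟨h1, h2, h3⟩
    simp only at h1 h2 h3
    subst h2 h3
    cases t with
    | odd i =>
      simp only [ftB, ext, ssem, bsem, h1]
      exact bits_head _
    | nz i =>
      simp only [ftB, ext, ssem, bsem, h1]
      constructor
      · intro h h0
        rw [h0] at h
        exact h (by simp)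
      · exact bits_ne_nil
    | cell c => rfl
    | coin => rfl

/-! ### From assignments to binary numbers -/

/-- The translation of an instruction. -/
def trB {α R F : Type} (cc : Cell α → ℕ) (l : List (Cell α)) (K : ℕ) :
    Asg R ⊕ R → BStmt α (R ⊕ Fin (K + 1)) (F ⊕ AP (R ⊕ Fin (K + 1)))
  | Sum.inl p => sqB [bcomp cc l K p.exp 0, clr (Sum.inl p.reg),
      cal (AP.mov (tm R K 0) (Sum.inl p.reg))]
  | Sum.inr r => sqB [clr (Sum.inl r), Stmt.ite BTest.coin (bdbl true (Sum.inl r)) Stmt.skip,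
      Stmt.prim BPrim.adv]

/-- The procedures: those of the program, and those for arithmetic. -/
def bodB {α R F : Type} (cc : Cell α → ℕ) (l : List (Cell α)) (K : ℕ) (body : F → NStmt R F) :
    F ⊕ AP (R ⊕ Fin (K + 1)) → BStmt α (R ⊕ Fin (K + 1)) (F ⊕ AP (R ⊕ Fin (K + 1)))
  | Sum.inl f => trg (trB cc l K) (fun r => BTest.nz (Sum.inl r)) Sum.inl (body f)
  | Sum.inr p => apb p

theorem exec_asgT {α R F : Type} (cc : Cell α → ℕ) (l : List (Cell α)) (hl : ∀ c, c ∈ l)
    {B D K : ℕ} (hB : ∀ c, cc c ≤ B) (hll : l.length ≤ B) {body : F → NStmt R F} {a : NStmt R F}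
    (hK : ∀ f, (body f).all (okP fun e => e.ht + 7 ≤ K ∧ edd B e ≤ D ∧ esz B e ≤ D))
    (ha : a.all (okP fun e => e.ht + 7 ≤ K ∧ edd B e ≤ D ∧ esz B e ≤ D))
    {x : List α} {m d n : ℕ} (hm : 1 ≤ m) {s t : (R → ℕ) × (ℕ → Bool)}
    (h : ExecT (nsem x cc (2 ^ m)) body d n a s t) (hs : ∀ r, s.1 r < 2 ^ m) :
    ∃ t' : (R ⊕ Fin (K + 1) → ℕ) × ℕ × (ℕ → Bool), ExecT (bsem x (2 ^ m)) (bodB cc l K body)
      (d + (2 * m + 5 + D)) (n * ((D + 1) * ut m x.length B))
      (trg (trB cc l K) (fun r => BTest.nz (Sum.inl r)) Sum.inl a)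
      (Sum.elim s.1 fun _ => 0, (0, s.2)) t' ∧ (∀ r, t'.1 (Sum.inl r) = t.1 r) ∧
      t'.2.2 = t.2 := by
  have hb : ∀ p, bodB cc l K body (Sum.inr p) = apb p := fun p => rfl
  have hut := ut_ge m x.length B
  let R' : (R → ℕ) × (ℕ → Bool) → (R ⊕ Fin (K + 1) → ℕ) × ℕ × (ℕ → Bool) → Prop :=
    fun s s' => (∀ r, s'.1 (Sum.inl r) = s.1 r) ∧ (∀ j, s'.1 (Sum.inr j) = 0) ∧
      (∀ r, s.1 r < 2 ^ m) ∧ s'.2.1 ≤ x.length + 1 ∧ s'.2.2 = s.2
  have hp : ∀ (p : Asg R ⊕ R) (s : (R → ℕ) × (ℕ → Bool))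
      (s' : (R ⊕ Fin (K + 1) → ℕ) × ℕ × (ℕ → Bool)),
      (okP fun e => e.ht + 7 ≤ K ∧ edd B e ≤ D ∧ esz B e ≤ D) p →
      (nsem x cc (2 ^ m)).pre p s → R' s s' → ∃ t', ExecT (bsem x (2 ^ m)) (bodB cc l K body)
        (2 * m + 5 + D) ((D + 1) * ut m x.length B) (trB cc l K p) s' t' ∧
        R' ((nsem x cc (2 ^ m)).act p s) t' := by
    rintro p s ⟨s', p', u'⟩ hG hpre ⟨h1, h2, h3, h4, h5⟩
    simp only at h1 h2 h4 h5
    subst h5
    rcases p with p | r
    · obtain ⟨g1, g2, g3⟩ := hG
      have k1 := bcomp_spec (x := x) (m := m) (body := bodB cc l K body) hb hB hl hll hm p.exp 0 s'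
        s.1 (by omega) hpre h1 (fun j _ _ => h2 _)
      have hval : p.exp.eval x cc s.1 < 2 ^ m := Exp.ok.lt hpre
      have k2 := pc_clr (x := x) (W := 2 ^ m) (body := bodB cc l K body)
        (i := (Sum.inl p.reg : R ⊕ Fin (K + 1))) m
        (upd s' (tm R K 0) (p.exp.eval x cc s.1)) (by
          rw [upd_ne (inl_ne_tm K), h1]; exact h3 _)
      have k3 := pc_mov (x := x) (W := 2 ^ m) (body := bodB cc l K body) hb
        (inl_ne_tm (r := p.reg) (d := 0) K).symm m
        (upd (upd s' (tm R K 0) (p.exp.eval x cc s.1)) (Sum.inl p.reg) 0)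
        (by rw [upd_ne (inl_ne_tm K).symm, upd_self]; exact hval)
        (by rw [upd_ne (inl_ne_tm K).symm, upd_self]; exact hval) (by rw [upd_self])
      rw [upd_ne (inl_ne_tm K).symm, upd_self] at k3
      have k4 := Pp.cons (d := 2 * m + 4 + D) (k1.mono (by omega) le_rfl)
        (Pp.cons (k2.pp.mono (by omega) le_rfl) (Pp.cons (k3.pp.mono (by omega) le_rfl)
          (Pp.nil (n := 0))))
      obtain ⟨p'', hp'', k5⟩ := k4 (p', s.2) h4
      refine ⟨_, k5.mono (by omega) ?_, fun r => ?_, fun j => ?_, fun r => ?_, hp'', rfl⟩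
      · have h6 : esz B p.exp * ut m x.length B ≤ D * ut m x.length B :=
          Nat.mul_le_mul_right _ g3
        rw [Nat.add_mul D 1, Nat.one_mul]
        omega
      · simp only [nsem]
        by_cases hr : r = p.reg
        · rw [hr, upd_self, upd_self]
        · have hr' : (Sum.inl r : R ⊕ Fin (K + 1)) ≠ Sum.inl p.reg := by simpa using hr
          rw [upd_ne hr', upd_ne (inl_ne_tm K), upd_ne hr', upd_ne (inl_ne_tm K), upd_ne hr, h1]
      · have hj : (Sum.inr j : R ⊕ Fin (K + 1)) ≠ Sum.inl p.reg := by simp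
        simp only
        rw [upd_ne hj]
        by_cases hj' : (Sum.inr j : R ⊕ Fin (K + 1)) = tm R K 0
        · rw [hj', upd_self]
        · rw [upd_ne hj', upd_ne hj, upd_ne hj', h2]
      · simp only [nsem]
        by_cases hr : r = p.reg
        · rw [hr, upd_self]; exact hval
        · rw [upd_ne hr]; exact h3 r
    · have k1 := pc_clr (x := x) (W := 2 ^ m) (body := bodB cc l K body)
        (i := (Sum.inl r : R ⊕ Fin (K + 1))) m s' (by rw [h1]; exact h3 _) (p', s.2)
      have hW : 1 < 2 ^ m := Nat.one_lt_two_pow (by omega)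
      have k2 : ExecT (bsem x (2 ^ m)) (bodB cc l K body) (2 * m + 4 + D) 2
          (Stmt.ite BTest.coin (bdbl true (Sum.inl r)) Stmt.skip)
          (upd s' (Sum.inl r) 0, (p', s.2)) (upd s' (Sum.inl r) (s.2 0).toNat, (p', s.2)) := by
        cases hu : s.2 0 with
        | true =>
          refine (ExecT.iteT (M := bsem x (2 ^ m)) _ 1 BTest.coin _ _
            (upd s' (Sum.inl r) 0, (p', s.2)) _ hu (ExecT.prim (M := bsem x (2 ^ m)) _ 0
              (BPrim.dbl true (Sum.inl r)) _ ?_)).cast ?_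
          · simp only [bsem, upd_self, Bool.toNat_true]
            omega
          · simp only [bsem, upd_self, upd_upd, Bool.toNat_true, Nat.mul_zero, Nat.zero_add]
        | false =>
          refine (ExecT.iteF (M := bsem x (2 ^ m)) _ 1 BTest.coin _ _
            (upd s' (Sum.inl r) 0, (p', s.2)) _ ?_ (ExecT.skip _ 0 _))
          simp only [bsem]
          rw [hu]
          simp
      have k3 : ExecT (bsem x (2 ^ m)) (bodB cc l K body) (2 * m + 4 + D) 1
          (Stmt.prim BPrim.adv) (upd s' (Sum.inl r) (s.2 0).toNat, (p', s.2))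
          (upd s' (Sum.inl r) (s.2 0).toNat, (p', shift s.2)) :=
        ExecT.prim (M := bsem x (2 ^ m)) _ 0 BPrim.adv _ trivial
      refine ⟨(upd s' (Sum.inl r) (s.2 0).toNat, (p', shift s.2)),
        (ExecT.seq (2 * m + 4 + D) (2 * m + 1) _ _ _ _ _ _ (k1.mono (by omega) le_rfl)
          (ExecT.seq (2 * m + 4 + D) 2 _ _ _ _ _ _ k2 (ExecT.seq (2 * m + 4 + D) 1 _ _ _ _ _ _ k3
            (ExecT.skip _ 0 _)))).mono (by omega) ?_, fun r' => ?_, fun j => ?_, fun r' => ?_, h4,
        rfl⟩
      · rw [Nat.add_mul D 1, Nat.one_mul]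
        omega
      · simp only [nsem]
        by_cases hr : r' = r
        · rw [hr, upd_self, upd_self]
        · have hr' : (Sum.inl r' : R ⊕ Fin (K + 1)) ≠ Sum.inl r := by simpa using hr
          rw [upd_ne hr', upd_ne hr, h1]
      · have hj : (Sum.inr j : R ⊕ Fin (K + 1)) ≠ Sum.inl r := by simp
        simp only
        rw [upd_ne hj, h2]
      · simp only [nsem]
        by_cases hr : r' = r
        · rw [hr, upd_self]
          cases s.2 0 <;> simp <;> omega
        · rw [upd_ne hr]; exact h3 r'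
  have ht : ∀ (t : R) (s : (R → ℕ) × (ℕ → Bool)) (s' : (R ⊕ Fin (K + 1) → ℕ) × ℕ × (ℕ → Bool)),
      R' s s' → ((bsem x (2 ^ m)).test (BTest.nz (Sum.inl t)) s' ↔
        (nsem x cc (2 ^ m)).test t s) := by
    rintro t s s' ⟨h1, h2, h3⟩
    simp only [bsem, nsem, h1]
  obtain ⟨t', h1, h2⟩ := ExecT.trg (M := nsem x cc (2 ^ m)) (M' := bsem x (2 ^ m))
    (body' := bodB cc l K body) (fp := trB cc l K) (ft := fun r => BTest.nz (Sum.inl r))
    (φ := Sum.inl) (R := R') (c := 2 * m + 5 + D) (τ := (D + 1) * ut m x.length B)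
    (by nlinarith) (fun f => rfl) hK hp ht h ha (Sum.elim s.1 fun _ => 0, (0, s.2))
    ⟨fun _ => rfl, fun _ => rfl, hs, Nat.zero_le _, rfl⟩
  exact ⟨t', h1, h2.1, h2.2.2.2.2⟩

/-! ### From `RunT` to machines -/

section

variable {α R F : Type} {x : List α} {cc : Cell α → ℕ} {A : ℕ} {body : F → NStmt R F}

theorem RunT.toExecT {B D c : ℕ} (hB : ∀ c, cc c ≤ B) (hA : 2 ≤ A)
    (hbody : ∀ f, (body f).nd ≤ c ∧ (body f).all (okP fun e => e.deg B ≤ D)) {k n : ℕ}
    {a : NStmt R F} {s t : R → ℕ} {u v : ℕ → Bool} (h : RunT x cc A body k n a s u t v) :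
    a.nd ≤ c → (a.all (okP fun e => e.deg B ≤ D)) → (∀ r, s r < A) → ∀ W, A ^ D ≤ W →
    ExecT (nsem x cc W) body (k * c + a.nd) n a (s, u) (t, v) ∧ ∀ r, t r < A := by
  have hA0 : 0 < A := by omega
  induction h with
  | skip k n s u => exact fun _ _ hs W _ => ⟨ExecT.skip _ _ _, hs⟩
  | asg k n r e s u h =>
    intro _ hD hs W hW
    refine ⟨ExecT.prim (M := nsem x cc W) _ _ (Sum.inl ⟨r, e⟩) (s, u) ?_, fun r' => ?_⟩
    · exact Exp.ok_of_deg hB hA hs e W ((Nat.pow_le_pow_right hA0 hD).trans hW)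
    · by_cases h1 : r' = r
      · rw [h1, upd_self]; exact h
      · rw [upd_ne h1]; exact hs r'
  | flip k n r s u =>
    intro _ hD hs W hW
    refine ⟨ExecT.prim (M := nsem x cc W) _ _ (Sum.inr r) (s, u) trivial, fun r' => ?_⟩
    by_cases h1 : r' = r
    · rw [h1, upd_self]
      cases u 0 <;> simp <;> omega
    · rw [upd_ne h1]; exact hs r'
  | seq k n m a b s t r u v w _ _ ih₁ ih₂ =>
    intro hc hD hs W hW
    simp only [Stmt.nd] at hc ⊢
    obtain ⟨h1, h2⟩ := ih₁ (by omega) hD.1 hs W hW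
    obtain ⟨h3, h4⟩ := ih₂ (by omega) hD.2 h2 W hW
    refine ⟨?_, h4⟩
    rw [← Nat.add_assoc]
    exact ExecT.seq _ _ _ _ _ _ _ _ (h1.mono (by omega) le_rfl) (h3.mono (by omega) le_rfl)
  | iteT k n q a b s t u v h _ ih =>
    intro hc hD hs W hW
    simp only [Stmt.nd] at hc ⊢
    obtain ⟨h1, h2⟩ := ih (by omega) hD.1 hs W hW
    exact ⟨ExecT.iteT _ _ _ _ _ _ _ h (h1.mono (by omega) le_rfl), h2⟩
  | iteF k n q a b s t u v h _ ih =>
    intro hc hD hs W hW
    simp only [Stmt.nd] at hc ⊢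
    obtain ⟨h1, h2⟩ := ih (by omega) hD.2 hs W hW
    exact ⟨ExecT.iteF _ _ _ _ _ _ _ (not_not.2 h) (h1.mono (by omega) le_rfl), h2⟩
  | loopF k n q a s u h =>
    exact fun _ _ hs W _ => ⟨ExecT.loopF _ _ _ _ _ (not_not.2 h), hs⟩
  | loopT k n m q a s t r u v w h _ _ ih₁ ih₂ =>
    intro hc hD hs W hW
    obtain ⟨h1, h2⟩ := ih₁ (by simp only [Stmt.nd] at hc; omega) hD hs W hW
    obtain ⟨h3, h4⟩ := ih₂ hc hD h2 W hW
    exact ⟨ExecT.loopT _ _ _ _ _ _ _ _ h h1 h3, h4⟩
  | call k n f s t u v _ ih =>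
    intro _ _ hs W hW
    obtain ⟨h1, h2⟩ := ih (hbody f).1 (hbody f).2 hs W hW
    refine ⟨ExecT.call _ _ _ _ _ (h1.mono ?_ le_rfl), h2⟩
    have := (hbody f).1
    simp only [Stmt.nd, Nat.add_mul, Nat.one_mul]
    omega

/-- **Programs which read bits are executed by nondeterministic Turing machines**, with a bound for
the time. -/
theorem exists_TNTM_of_run {α R F : Type} [Finite α] [Finite R] [Finite F] (cc : Cell α → ℕ)
    (body : F → NStmt R F) (a : NStmt R F) (out : R) :
    ∃ c : ℕ, ∀ (L : List α → Prop) (A k τ : ℕ → ℕ), (∀ n, 2 ≤ A n) →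
      (∀ (x : List α) (u : ℕ → Bool), ∃ t v,
        RunT x cc (A x.length) body (k x.length) (τ x.length) a (fun _ => 0) u t v) →
      (∀ x : List α, L x ↔ ∃ u t v,
        RunT x cc (A x.length) body (k x.length) (τ x.length) a (fun _ => 0) u t v ∧
          t out ≠ 0) →
      ∃ M : NTM α, (M.AcceptsIn L fun n => c * (Nat.log 2 (A n) + k n + 1)) ∧
        (M.TimeIn fun n => c * (τ n + 1) * (Nat.log 2 (A n) + 1) ^ 3 * (n + 2)) ∧
        ((∀ (x : List α) (u u' : ℕ → Bool) (t t' : R → ℕ),
          RunN x cc (A x.length) body (k x.length) a (fun _ => 0) u t (fun _ => false) →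
          RunN x cc (A x.length) body (k x.length) a (fun _ => 0) u' t' (fun _ => false) →
          t out ≠ 0 → t' out ≠ 0 → u = u') → M.Unambiguous) := by
  obtain ⟨l, hl⟩ := exists_cells α
  obtain ⟨B₀, hB₀⟩ := cells_bound cc
  set B := max B₀ l.length with hBdef
  have hB : ∀ c, cc c ≤ B := fun c => (hB₀ c).trans (le_max_left _ _)
  have hll : l.length ≤ B := le_max_right _ _
  obtain ⟨E, hE1, hE2⟩ := exists_bound_all (fun e : Exp R => e.deg B) body a
  obtain ⟨D, hD1, hD2⟩ := exists_bound_all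
    (fun e : Exp R => max (e.ht + 7) (max (edd B e) (esz B e))) body a
  have conv : ∀ p : Asg R ⊕ R, (okP fun e => max (e.ht + 7) (max (edd B e) (esz B e)) ≤ D) p →
      (okP fun e => e.ht + 7 ≤ D ∧ edd B e ≤ D ∧ esz B e ≤ D) p := fun p h => by
    rcases p with p | p
    · exact ⟨(le_max_left _ _).trans h, ((le_max_left _ _).trans (le_max_right _ _)).trans h,
        ((le_max_right _ _).trans (le_max_right _ _)).trans h⟩
    · exact trivial
  have hG := fun f => Stmt.all_mono conv (body f) (hD1 f)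
  have hGa := Stmt.all_mono conv a hD2
  obtain ⟨c₁, hc₁⟩ := (Set.finite_range fun f => (body f).nd).bddAbove
  set c₂ := max c₁ a.nd with hc₂
  -- the constant
  refine ⟨3 * (E + 1) + c₂ + D + 8 + 1024 * (D + 1) * (B + 1) * (E + 2) ^ 2 + 2,
    fun L A k τ hA h hL => ?_⟩
  let m : ℕ → ℕ := fun n => (Nat.log 2 (A n) + 1) * (E + 1)
  have hm : ∀ n, 1 ≤ m n := fun n => Nat.one_le_iff_ne_zero.2 (by
    simp only [m]
    positivity)
  let d : ℕ → ℕ := fun n => k n * c₂ + a.nd + (2 * m n + 5 + D)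
  let T : ℕ → ℕ := fun n => τ n * ((D + 1) * ut (m n) n B) * 2
  let body' := fun f => trg (fpB (α := α)) ftB id (bodB cc l D body f)
  let a' : GStmt α (R ⊕ Fin (D + 1)) Bool (F ⊕ AP (R ⊕ Fin (D + 1))) :=
    trg fpB ftB id (trg (trB cc l D) (fun r => BTest.nz (Sum.inl r)) Sum.inl a)
  have tr1 : ∀ (x : List α) (u : ℕ → Bool) t v,
      RunT x cc (A x.length) body (k x.length) (τ x.length) a (fun _ => 0) u t v →
      ∃ t' : ((R ⊕ Fin (D + 1) → List Bool) × ℕ) × (ℕ → Bool),
        ExecT (ext (ssem x (m x.length))) body' (d x.length) (T x.length) a'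
          ((fun _ => [], 0), u) t' ∧
        (t'.1.1 (Sum.inl out) ≠ [] ↔ t out ≠ 0) ∧ t'.2 = v := by
    intro x u t v ht
    have h1 := (ht.toExecT hB (hA _) (c := c₂) (D := E)
      (fun f => ⟨(hc₁ ⟨f, rfl⟩).trans (le_max_left _ _), hE1 f⟩) (le_max_right _ _) hE2
      (fun _ => by have := hA x.length; omega) (2 ^ m x.length) (by
        rw [show m x.length = (Nat.log 2 (A x.length) + 1) * (E + 1) from rfl, pow_mul]
        refine (Nat.pow_le_pow_right (by have := hA x.length; omega) (Nat.le_succ E)).trans ?_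
        exact Nat.pow_le_pow_left (Nat.lt_pow_succ_log_self (by norm_num) _).le _)).1
    obtain ⟨t₁, h2, h3, h4⟩ := exec_asgT cc l hl hB hll hG hGa (hm _) h1 (fun _ => by simp)
    obtain ⟨t₂, h5, h6, h7, h8⟩ := exec_stackT h2 ((fun _ => [], 0), u)
      ⟨fun i => by cases i <;> simp, rfl, rfl⟩
    refine ⟨t₂, h5, ?_, h8.trans h4⟩
    rw [h6, h3]
    simp only
    constructor
    · intro h9 h10
      rw [h10] at h9
      exact h9 (by simp)
    · exact bits_ne_nil
  have tr2 : ∀ (x : List α) (u : ℕ → Bool)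
      (t' : ((R ⊕ Fin (D + 1) → List Bool) × ℕ) × (ℕ → Bool)),
      Exec (ext (ssem x (m x.length))) body' (d x.length) a' ((fun _ => [], 0), u) t' →
      ∃ t v, RunT x cc (A x.length) body (k x.length) (τ x.length) a (fun _ => 0) u t v ∧
        (t'.1.1 (Sum.inl out) ≠ [] ↔ t out ≠ 0) ∧ t'.2 = v := by
    intro x u t' h3
    obtain ⟨t, v, ht⟩ := h x u
    obtain ⟨t'', h5, h6, h7⟩ := tr1 x u t v ht
    have hdet : t' = t'' := Exec.det h3 h5.toExec
    subst hdet
    exact ⟨t, v, ht, h6, h7⟩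
  obtain ⟨M, hM1, hM2, hM3⟩ := exists_TNTM (α := α) body' a' (Sum.inl out) L m d T
    (fun x u => by
      obtain ⟨t, v, ht⟩ := h x u
      obtain ⟨t', h1, -⟩ := tr1 x u t v ht
      exact ⟨t', h1⟩)
    (fun x u t' h1 h2 => by
      obtain ⟨t, v, h3, h4, -⟩ := tr2 x u t' h1
      exact (hL x).2 ⟨u, t, v, h3, h4.1 h2⟩)
    (fun x hx => by
      obtain ⟨u, t, v, h1, h2⟩ := (hL x).1 hx
      obtain ⟨l, -, h3⟩ := h1.rest
      obtain ⟨t', h4, h5, h6⟩ := tr1 x _ t _ (h3 fun _ => false)
      exact ⟨_, t', h4.toExec, h5.2 h2, h6⟩)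
  have hlog : ∀ n, 0 ≤ Nat.log 2 (A n) := fun n => Nat.zero_le _
  refine ⟨M, fun x => ⟨(hM1 x).1, (hM1 x).2.1, fun c' hc' j => ((hM1 x).2.2 c' hc' j).trans_le ?_⟩,
    fun x n f h0 hf => (hM2 x n f h0 hf).trans ?_, fun hU => hM3 ?_⟩
  · have h1 : a.nd ≤ c₂ := le_max_right _ _
    have h2 : max (m x.length) (d x.length + 1) = d x.length + 1 := by
      refine max_eq_right ?_
      simp only [d]
      omega
    simp only [h2]
    have h3 : d x.length + 1 + 1 ≤
        (3 * (E + 1) + c₂ + D + 8) * (Nat.log 2 (A x.length) + k x.length + 1) := by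
      simp only [d, m]
      nlinarith [Nat.zero_le (Nat.log 2 (A x.length) * E), Nat.zero_le (k x.length * E),
        Nat.zero_le (Nat.log 2 (A x.length) * c₂), Nat.zero_le (Nat.log 2 (A x.length) * D),
        Nat.zero_le (k x.length * D), Nat.zero_le (k x.length), Nat.zero_le (k x.length * c₂)]
    refine h3.trans (Nat.mul_le_mul_right _ ?_)
    omega
  · -- the time
    set n := x.length
    set lg := Nat.log 2 (A n) + 1 with hlg
    have hlg1 : 1 ≤ lg := by omega
    have e1 : m n + 1 ≤ lg * (E + 2) := by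
      simp only [m, ← hlg]
      nlinarith
    have e2 : (m n + 1) * (m n + 1) ≤ lg ^ 3 * (E + 2) ^ 2 := by
      calc (m n + 1) * (m n + 1) ≤ (lg * (E + 2)) * (lg * (E + 2)) := Nat.mul_le_mul e1 e1
        _ = lg ^ 2 * (E + 2) ^ 2 := by ring
        _ ≤ lg ^ 3 * (E + 2) ^ 2 := Nat.mul_le_mul_right _ (Nat.pow_le_pow_right hlg1 (by omega))
    have e3 : ut (m n) n B ≤ 256 * (lg ^ 3 * (E + 2) ^ 2) * (n + 2) * (B + 1) := by
      unfold ut
      refine Nat.mul_le_mul_right _ (Nat.mul_le_mul_right _ ?_)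
      rw [Nat.mul_assoc]
      exact Nat.mul_le_mul_left _ e2
    have e4 : 1 ≤ lg ^ 3 := Nat.one_le_pow _ _ hlg1
    calc 2 * T n + 2 = 4 * τ n * (D + 1) * ut (m n) n B + 2 := by simp only [T]; ring
      _ ≤ 4 * τ n * (D + 1) * (256 * (lg ^ 3 * (E + 2) ^ 2) * (n + 2) * (B + 1)) + 2 :=
          Nat.add_le_add_right (Nat.mul_le_mul_left _ e3) _
      _ = 1024 * (D + 1) * (B + 1) * (E + 2) ^ 2 * (τ n * (lg ^ 3 * (n + 2))) + 2 * 1 := by ring
      _ ≤ 1024 * (D + 1) * (B + 1) * (E + 2) ^ 2 * ((τ n + 1) * (lg ^ 3 * (n + 2))) +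
          2 * ((τ n + 1) * (lg ^ 3 * (n + 2))) := by
          refine Nat.add_le_add (Nat.mul_le_mul_left _ (Nat.mul_le_mul_right _ (by omega)))
            (Nat.mul_le_mul_left _ ?_)
          exact Nat.one_le_iff_ne_zero.2 (by positivity)
      _ = (1024 * (D + 1) * (B + 1) * (E + 2) ^ 2 + 2) * ((τ n + 1) * (lg ^ 3 * (n + 2))) := by
          ring
      _ ≤ (3 * (E + 1) + c₂ + D + 8 + 1024 * (D + 1) * (B + 1) * (E + 2) ^ 2 + 2) *
          ((τ n + 1) * (lg ^ 3 * (n + 2))) := Nat.mul_le_mul_right _ (by omega)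
      _ = _ := by ring
  · intro x u u' t t' h1 h2 h3 h4 h5 h6
    obtain ⟨r, v, g1, g2, g3⟩ := tr2 x u t h1
    obtain ⟨r', v', g1', g2', g3'⟩ := tr2 x u' t' h2
    rw [h5] at g3
    rw [h6] at g3'
    subst g3 g3'
    exact hU x u u' r r' g1.toN g1'.toN (g2.1 h3) (g2'.1 h4)

end

end Pool.Agent.Lib.MP_9277c3_lc.NC
end
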