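import Pool.Agent.Lib.MP_9277c3_lc.NC.NTM

/-!
# Programs which read random bits
-/

namespace Pool.Agent.Lib.MP_9277c3_lc.NC

open CM

/-- The semantics with an additional sequence of bits: one instruction goes to the next bit, one
test looks at the current bit. -/
def ext {P T σ : Type} (M : Sem P T σ) : Sem (P ⊕ Unit) (T ⊕ Unit) (σ × (ℕ → Bool)) where
  act p s := match p with
    | Sum.inl p => (M.act p s.1, s.2)
    | Sum.inr _ => (s.1, shift s.2)
  pre p s := match p with
    | Sum.inl p => M.pre p s.1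
    | Sum.inr _ => True
  test t s := match t with
    | Sum.inl t => M.test t s.1
    | Sum.inr _ => s.2 0 = true

/-- A program without procedures, as a program which can read bits. -/
def lift0 {P T F : Type} : Stmt P T Empty → Stmt (P ⊕ Unit) (T ⊕ Unit) F
  | Stmt.skip => Stmt.skip
  | Stmt.prim p => Stmt.prim (Sum.inl p)
  | Stmt.seq a b => Stmt.seq (lift0 a) (lift0 b)
  | Stmt.ite t a b => Stmt.ite (Sum.inl t) (lift0 a) (lift0 b)
  | Stmt.loop t a => Stmt.loop (Sum.inl t) (lift0 a)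
  | Stmt.call f => f.elim

theorem exec_lift0 {P T F σ : Type} {M : Sem P T σ} {body₀ : Empty → Stmt P T Empty}
    {body : F → Stmt (P ⊕ Unit) (T ⊕ Unit) F} {d : ℕ} {a : Stmt P T Empty} {s t : σ}
    (h : Exec M body₀ d a s t) (u : ℕ → Bool) :
    Exec (ext M) body d (lift0 a) (s, u) (t, u) := by
  induction h with
  | skip d s => exact Exec.skip _ _
  | prim d p s h => exact Exec.prim (M := ext M) _ (Sum.inl p) (s, u) h
  | seq d a b s t v _ _ ih₁ ih₂ => exact Exec.seq _ _ _ _ _ _ ih₁ ih₂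
  | iteT d t a b s v h _ ih => exact Exec.iteT (M := ext M) _ (Sum.inl t) _ _ _ _ h ih
  | iteF d t a b s v h _ ih => exact Exec.iteF (M := ext M) _ (Sum.inl t) _ _ _ _ h ih
  | loopF d t a s h => exact Exec.loopF (M := ext M) _ (Sum.inl t) _ _ h
  | loopT d t a s v w h _ _ ih₁ ih₂ =>
    exact Exec.loopT (M := ext M) _ (Sum.inl t) _ _ _ _ h ih₁ ih₂
  | call d f s v _ ih => exact f.elim

/-- The result of an execution is unique. -/
theorem Exec.det {P T F σ : Type} {M : Sem P T σ} {body : F → Stmt P T F} {d d' : ℕ}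
    {a : Stmt P T F} {s t t' : σ} (h : Exec M body d a s t) (h' : Exec M body d' a s t') :
    t = t' := by
  induction h generalizing d' t' with
  | skip d s => cases h'; rfl
  | prim d p s h => cases h'; rfl
  | seq d a b s t v _ _ ih₁ ih₂ =>
    cases h' with
    | seq _ _ _ _ _ _ h1 h2 =>
      obtain rfl := ih₁ h1
      exact ih₂ h2
  | iteT d t a b s v h _ ih =>
    cases h' with
    | iteT _ _ _ _ _ _ _ h1 => exact ih h1
    | iteF _ _ _ _ _ _ h0 _ => exact absurd h h0
  | iteF d t a b s v h _ ih =>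
    cases h' with
    | iteT _ _ _ _ _ _ h0 _ => exact absurd h0 h
    | iteF _ _ _ _ _ _ _ h1 => exact ih h1
  | loopF d t a s h =>
    cases h' with
    | loopF => rfl
    | loopT _ _ _ _ _ _ h0 => exact absurd h0 h
  | loopT d t a s v w h _ _ ih₁ ih₂ =>
    cases h' with
    | loopF _ _ _ _ h0 => exact absurd h h0
    | loopT _ _ _ _ _ _ _ h1 h2 =>
      obtain rfl := ih₁ h1
      exact ih₂ h2
  | call d f s v _ ih =>
    cases h' with
    | call _ _ _ _ h1 => exact ih h1

/-- The translation of the instructions of programs which read bits. -/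
def fpx {P P' T' F : Type} (fp : P → Stmt P' T' Empty) : P ⊕ Unit → Stmt (P' ⊕ Unit) (T' ⊕ Unit) F
  | Sum.inl p => lift0 (fp p)
  | Sum.inr _ => Stmt.prim (Sum.inr ())

/-- The translation of programs which read bits. -/
theorem exec_tr_ext {P T P' T' F σ σ' : Type} {M : Sem P T σ} {M' : Sem P' T' σ'}
    {body : F → Stmt (P ⊕ Unit) (T ⊕ Unit) F} {body₀ : Empty → Stmt P' T' Empty}
    {fp : P → Stmt P' T' Empty} {ft : T → T'} {R : σ → σ' → Prop} {c : ℕ}
    (hp : ∀ p s s', M.pre p s → R s s' → ∃ t',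
      Exec M' body₀ c (fp p) s' t' ∧ R (M.act p s) t')
    (ht : ∀ t s s', R s s' → (M'.test (ft t) s' ↔ M.test t s))
    {d : ℕ} {a : Stmt (P ⊕ Unit) (T ⊕ Unit) F} {s t : σ × (ℕ → Bool)}
    (h : Exec (ext M) body d a s t) (s' : σ') (hs : R s.1 s') :
    ∃ t', Exec (ext M') (fun f => (body f).tr (fpx fp) (Sum.map ft id)) (d + c)
      (a.tr (fpx fp) (Sum.map ft id)) (s', s.2) (t', t.2) ∧ R t.1 t' := by
  have all : ∀ a : Stmt (P ⊕ Unit) (T ⊕ Unit) F, a.all fun _ => True := by
    intro a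
    induction a with
    | skip => exact trivial
    | prim p => exact trivial
    | seq a b iha ihb => exact ⟨iha, ihb⟩
    | ite t a b iha ihb => exact ⟨iha, ihb⟩
    | loop t a ih => exact ih
    | call f => exact trivial
  obtain ⟨⟨t', u'⟩, h1, h2, h3⟩ := Exec.tr (M := ext M) (M' := ext M') (fp := fpx fp)
    (ft := Sum.map ft id) (c := c) (R := fun s s' => R s.1 s'.1 ∧ s'.2 = s.2)
    (fun f => all _) (by
      rintro (p | p) ⟨s, u⟩ ⟨s', u'⟩ - hpre ⟨h1, h2⟩
      · simp only at h1 h2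
        subst h2
        obtain ⟨t', h3, h4⟩ := hp p s s' hpre h1
        exact ⟨(t', u'), exec_lift0 h3 _, h4, rfl⟩
      · simp only at h1 h2
        subst h2
        exact ⟨(s', shift u'), Exec.prim (M := ext M') _ (Sum.inr ()) (s', u') trivial, h1, rfl⟩)
    (by
      rintro (t | t) ⟨s, u⟩ ⟨s', u'⟩ ⟨h1, h2⟩
      · exact ht t s s' h1
      · simp only at h2
        subst h2
        rfl) h (all _) (s', s.2) ⟨hs, rfl⟩
  simp only at h3
  subst h3
  exact ⟨t', h1, h2⟩

end Pool.Agent.Lib.MP_9277c3_lc.NC
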