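import Pool.Agent.Lib.MP_9277c3_lc.helper78.CM.TM

/-!
# Nondeterministic Turing machines
-/

namespace Pool.Agent.Lib.MP_9277c3_lc

/-- A nondeterministic Turing machine with a two-way read-only input head and finitely many work
tapes. Each work tape is infinite to the right. In state `q`, when the input head sees `c` and the
head of the work tape `j` sees `r j`, the machine may take any of the moves in the set `next q c r`;
a move consists of the new state, the move of the input head, and for each work tape the symbol
which is written and the move of the head. If the set is empty, then the machine halts, and it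
accepts iff `accept q r` holds. -/
structure NTM (α : Type) where
  State : Type
  Tape : Type
  Sym : Type
  finite_state : Finite State
  finite_tape : Finite Tape
  finite_sym : Finite Sym
  blank : Sym
  start : State
  accept : State → (Tape → Sym) → Prop
  next : State → Cell α → (Tape → Sym) → Set (State × Move × (Tape → Sym × Move))

namespace NTM

variable {α : Type} (A : NTM α)

/-- Configurations: the state, the position of the input head, and for each work tape the position
of its head and its contents. -/
structure Cfg where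
  state : A.State
  pos : ℕ
  head : A.Tape → ℕ
  tape : A.Tape → ℕ → A.Sym

variable {A} in
/-- The symbols under the heads of the work tapes. -/
def Cfg.read (c : A.Cfg) : A.Tape → A.Sym := fun j => c.tape j (c.head j)

/-- The new position of a head on a work tape. -/
def wmove : Move → ℕ → ℕ
  | Move.left, i => i - 1
  | Move.stay, i => i
  | Move.right, i => i + 1

/-- On the input `x` the machine can go from the configuration `c` to `c'` in one step. -/
def Step (x : List α) (c c' : A.Cfg) : Prop :=
  ∃ r ∈ A.next c.state (cell x c.pos) c.read, c' =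
    { state := r.1
      pos := r.2.1.apply x.length c.pos
      head := fun j => wmove (r.2.2 j).2 (c.head j)
      tape := fun j => Function.update (c.tape j) (c.head j) (r.2.2 j).1 }

/-- The initial configuration: all heads are at position `0`, the work tapes are blank. -/
def init : A.Cfg where
  state := A.start
  pos := 0
  head := fun _ => 0
  tape := fun _ _ => A.blank

/-- The configurations which can be reached on the input `x`. -/
inductive Reach (x : List α) : A.Cfg → Prop
  | start : Reach x A.init
  | step (c c' : A.Cfg) (h : Reach x c) (h' : A.Step x c c') : Reach x c'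

/-- The machine accepts `x`: in some computation it halts and accepts. -/
def Accepts (x : List α) : Prop :=
  ∃ c, A.Reach x c ∧ (∀ c', ¬A.Step x c c') ∧ A.accept c.state c.read

/-- In all computations on the input `x` the heads of the work tapes stay on the cells
`0, ..., s - 1`. -/
def SpaceOn (x : List α) (s : ℕ) : Prop := ∀ c, A.Reach x c → ∀ j, c.head j < s

/-- The machine accepts the language `L` in space `s`: on each input `x` of length `n` some
computation accepts iff `L x` holds, no computation is infinite, and in all computations the heads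
of the work tapes stay on the cells `0, ..., s n - 1`. -/
def AcceptsIn (L : List α → Prop) (s : ℕ → ℕ) : Prop :=
  ∀ x : List α, (A.Accepts x ↔ L x) ∧
    (¬∃ f : ℕ → A.Cfg, f 0 = A.init ∧ ∀ i, A.Step x (f i) (f (i + 1))) ∧
    A.SpaceOn x (s x.length)

/-- `f 0, ..., f n` is a computation on the input `x` which halts and accepts. -/
def AccComp (x : List α) (n : ℕ) (f : ℕ → A.Cfg) : Prop :=
  f 0 = A.init ∧ (∀ i < n, A.Step x (f i) (f (i + 1))) ∧ (∀ c', ¬A.Step x (f n) c') ∧
    A.accept (f n).state (f n).read

/-- The machine is unambiguous: on each input it has at most one accepting computation. -/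
def Unambiguous : Prop := ∀ (x : List α) (n : ℕ) (f : ℕ → A.Cfg) (n' : ℕ) (f' : ℕ → A.Cfg),
  A.AccComp x n f → A.AccComp x n' f' → n = n' ∧ ∀ i ≤ n, f i = f' i

end NTM

/-! ### Machines which read random bits -/

namespace NC

/-- The rest of a sequence of bits. -/
def shift (u : ℕ → Bool) : ℕ → Bool := fun k => u (k + 1)

/-- A bit in front of a sequence. -/
def consB (b : Bool) (u : ℕ → Bool) : ℕ → Bool
  | 0 => b
  | k + 1 => u k

@[simp] theorem shift_consB (b : Bool) (u : ℕ → Bool) : shift (consB b u) = u := rfl

@[simp] theorem consB_zero (b : Bool) (u : ℕ → Bool) : consB b u 0 = b := rfl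

theorem consB_shift (u : ℕ → Bool) : consB (u 0) (shift u) = u := by
  funext k
  cases k <;> rfl

/-- A deterministic machine which sees one bit of a sequence of bits. A move also says whether the
machine goes to the next bit of the sequence. -/
structure BM (α : Type) where
  State : Type
  Tape : Type
  Sym : Type
  finite_state : Finite State
  finite_tape : Finite Tape
  finite_sym : Finite Sym
  blank : Sym
  start : State
  accept : State → (Tape → Sym) → Prop
  next : State → Bool → Cell α → (Tape → Sym) →
    Option (State × Bool × Move × (Tape → Sym × Move))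

namespace BM

variable {α : Type} (A : BM α)

/-- Configurations; the last component is the rest of the sequence of bits. -/
structure Cfg where
  state : A.State
  pos : ℕ
  head : A.Tape → ℕ
  tape : A.Tape → ℕ → A.Sym
  bits : ℕ → Bool

variable {A} in
/-- The symbols under the heads of the work tapes. -/
def Cfg.read (c : A.Cfg) : A.Tape → A.Sym := fun j => c.tape j (c.head j)

/-- One step of the machine on the input `x`. -/
def step (x : List α) (c : A.Cfg) : Option A.Cfg :=
  (A.next c.state (c.bits 0) (cell x c.pos) c.read).map fun r =>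
    { state := r.1
      pos := r.2.2.1.apply x.length c.pos
      head := fun j => NTM.wmove (r.2.2.2 j).2 (c.head j)
      tape := fun j => Function.update (c.tape j) (c.head j) (r.2.2.2 j).1
      bits := if r.2.1 then shift c.bits else c.bits }

/-- The initial configuration for the sequence of bits `u`. -/
def init (u : ℕ → Bool) : A.Cfg where
  state := A.start
  pos := 0
  head := fun _ => 0
  tape := fun _ _ => A.blank
  bits := u

/-- The configurations which are reached on the input `x` with the sequence of bits `u`. -/
inductive Reach (x : List α) (u : ℕ → Bool) : A.Cfg → Prop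
  | start : Reach x u (A.init u)
  | step (c c' : A.Cfg) (h : Reach x u c) (h' : A.step x c = some c') : Reach x u c'

/-- The nondeterministic machine which guesses the bits. It accepts only if the bit which it has
guessed and not read is `false`. -/
def toNTM : NTM α where
  State := A.State × Bool
  Tape := A.Tape
  Sym := A.Sym
  finite_state := by
    have := A.finite_state
    infer_instance
  finite_tape := A.finite_tape
  finite_sym := A.finite_sym
  blank := A.blank
  start := (A.start, false)
  accept := fun q r => A.accept q.1 r ∧ q.2 = false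
  next := fun q cl r => {t | ∃ s, A.next q.1 q.2 cl r = some s ∧ t.1.1 = s.1 ∧
    (s.2.1 = false → t.1.2 = q.2) ∧ t.2 = s.2.2}

/-- The configuration of the nondeterministic machine. -/
def Cfg.toN {A : BM α} (c : A.Cfg) : A.toNTM.Cfg where
  state := (c.state, c.bits 0)
  pos := c.pos
  head := c.head
  tape := c.tape

theorem toN_read (c : A.Cfg) : c.toN.read = c.read := rfl

theorem step_toN {x : List α} {c c' : A.Cfg} (h : A.step x c = some c') :
    A.toNTM.Step x c.toN c'.toN := by
  unfold step at h
  rw [Option.map_eq_some_iff] at h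
  obtain ⟨r, h1, rfl⟩ := h
  refine ⟨((r.1, (if r.2.1 then shift c.bits else c.bits) 0), r.2.2), ⟨r, h1, rfl, ?_, rfl⟩, rfl⟩
  intro h2
  simp [h2, Cfg.toN]

theorem Reach.toN {x : List α} {u : ℕ → Bool} (hu : u 0 = false) {c : A.Cfg}
    (h : A.Reach x u c) : A.toNTM.Reach x c.toN := by
  induction h with
  | start =>
    have : (A.init u).toN = A.toNTM.init := by
      unfold Cfg.toN init NTM.init toNTM
      simp only [hu]
    rw [this]
    exact NTM.Reach.start
  | step c c' _ h' ih => exact NTM.Reach.step _ _ ih (A.step_toN h')

/-- A configuration of the nondeterministic machine, with a sequence of bits. -/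
def ofN (d : A.toNTM.Cfg) (u : ℕ → Bool) : A.Cfg where
  state := d.state.1
  pos := d.pos
  head := d.head
  tape := d.tape
  bits := u

theorem ofN_toN (c : A.Cfg) : A.ofN c.toN c.bits = c := rfl

theorem toN_ofN (d : A.toNTM.Cfg) (u : ℕ → Bool) (h : u 0 = d.state.2) :
    (A.ofN d u).toN = d := by
  unfold ofN Cfg.toN
  obtain ⟨⟨q, b⟩, p, H, T⟩ := d
  simp only at h ⊢
  subst h
  rfl

/-- A step of the nondeterministic machine is a step of the machine with some bits. -/
theorem step_ofN {x : List α} {d d' : A.toNTM.Cfg} (h : A.toNTM.Step x d d') (u : ℕ → Bool)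
    (hu : u 0 = d'.state.2) : ∃ v : ℕ → Bool, v 0 = d.state.2 ∧ (v = u ∨ shift v = u) ∧
      A.step x (A.ofN d v) = some (A.ofN d' u) := by
  obtain ⟨r, ⟨s, h1, h2, h3, h4⟩, rfl⟩ := h
  obtain ⟨⟨q', b'⟩, r2⟩ := r
  simp only at h2 h3 h4 hu
  subst h2 h4
  cases hs : s.2.1 with
  | false =>
    refine ⟨u, hu.trans (h3 hs), Or.inl rfl, ?_⟩
    unfold step
    have e : A.next (A.ofN d u).state ((A.ofN d u).bits 0) (cell x (A.ofN d u).pos)
        (A.ofN d u).read = some s := by
      have e1 : (A.ofN d u).bits 0 = d.state.2 := hu.trans (h3 hs)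
      rw [e1]
      exact h1
    rw [e, Option.map_some, hs]
    rfl
  | true =>
    refine ⟨consB d.state.2 u, rfl, Or.inr rfl, ?_⟩
    unfold step
    have e : A.next (A.ofN d (consB d.state.2 u)).state ((A.ofN d (consB d.state.2 u)).bits 0)
        (cell x (A.ofN d (consB d.state.2 u)).pos) (A.ofN d (consB d.state.2 u)).read = some s := h1
    rw [e, Option.map_some, hs]
    rfl

theorem Reach.ofN {x : List α} {d : A.toNTM.Cfg} (h : A.toNTM.Reach x d) :
    ∀ u : ℕ → Bool, u 0 = d.state.2 → ∃ w : ℕ → Bool, w 0 = false ∧ A.Reach x w (A.ofN d u) := by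
  induction h with
  | start =>
    intro u hu
    exact ⟨u, hu, Reach.start⟩
  | step d d' _ h' ih =>
    intro u hu
    obtain ⟨v, h1, _, h2⟩ := A.step_ofN h' u hu
    obtain ⟨w, h3, h4⟩ := ih v h1
    exact ⟨w, h3, Reach.step _ _ h4 h2⟩

/-- The machine halts with the given bits iff the nondeterministic machine halts. -/
theorem halt_iff {x : List α} (c : A.Cfg) :
    A.step x c = none ↔ ∀ d, ¬A.toNTM.Step x c.toN d := by
  constructor
  · intro h d hd
    obtain ⟨r, ⟨s, h1, -⟩, -⟩ := hd
    unfold step at h
    rw [Option.map_eq_none_iff] at h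
    change A.next c.state (c.bits 0) (cell x c.pos) c.read = some s at h1
    rw [h] at h1
    exact absurd h1 (by simp)
  · intro h
    cases h1 : A.step x c with
    | none => rfl
    | some c' => exact absurd (A.step_toN h1) (h _)

theorem of_accepts {x : List α} (h : A.toNTM.Accepts x) :
    ∃ (w : ℕ → Bool) (c : A.Cfg), w 0 = false ∧ A.Reach x w c ∧ A.step x c = none ∧
      A.accept c.state c.read := by
  obtain ⟨d, h1, h2, h3, -⟩ := h
  obtain ⟨w, h4, h5⟩ := Reach.ofN A h1 (fun _ => d.state.2) rfl
  refine ⟨w, A.ofN d fun _ => d.state.2, h4, h5, ?_, h3⟩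
  rw [A.halt_iff, A.toN_ofN _ _ rfl]
  exact h2

theorem accepts_of {x : List α} {w : ℕ → Bool} {c : A.Cfg} (h0 : w 0 = false)
    (h1 : A.Reach x w c) (h2 : A.step x c = none) (h3 : A.accept c.state c.read)
    (h4 : c.bits 0 = false) : A.toNTM.Accepts x :=
  ⟨c.toN, Reach.toN A h0 h1, (A.halt_iff c).1 h2, h3, h4⟩

/-- The bits which are seen in a finite computation. -/
theorem exists_path {x : List α} (n : ℕ) : ∀ (f : ℕ → A.toNTM.Cfg),
    (∀ i < n, A.toNTM.Step x (f i) (f (i + 1))) → ∀ u : ℕ → Bool, u 0 = (f n).state.2 →
    ∃ v : ℕ → ℕ → Bool, v n = u ∧ (∀ i ≤ n, v i 0 = (f i).state.2) ∧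
      ∀ i < n, A.step x (A.ofN (f i) (v i)) = some (A.ofN (f (i + 1)) (v (i + 1))) := by
  induction n with
  | zero =>
    intro f _ u hu
    refine ⟨fun _ => u, rfl, fun i hi => ?_, fun i hi => absurd hi (Nat.not_lt_zero _)⟩
    rw [Nat.le_zero.1 hi]
    exact hu
  | succ n ih =>
    intro f hf u hu
    obtain ⟨v, h1, h2, h3⟩ := ih (fun i => f (i + 1)) (fun i hi => hf (i + 1) (by omega)) u hu
    obtain ⟨v₀, h4, -, h5⟩ := A.step_ofN (hf 0 (by omega)) (v 0) (h2 0 (Nat.zero_le _))
    refine ⟨fun i => match i with
      | 0 => v₀
      | i + 1 => v i, h1, fun i hi => ?_, fun i hi => ?_⟩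
    · cases i with
      | zero => exact h4
      | succ i => exact h2 i (by omega)
    · cases i with
      | zero => exact h5
      | succ i => exact h3 i (by omega)

/-- If the bits of accepting runs, followed by the bits `false`, are unique, then accepting
computations are unique. -/
theorem unamb {x : List α}
    (hU : ∀ (w w' : ℕ → Bool) (c c' : A.Cfg), w 0 = false → w' 0 = false →
      A.Reach x w c → A.Reach x w' c' → A.step x c = none → A.step x c' = none →
      A.accept c.state c.read → A.accept c'.state c'.read →
      c.bits = (fun _ => false) → c'.bits = (fun _ => false) → w = w')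
    (n : ℕ) (f : ℕ → A.toNTM.Cfg) (n' : ℕ) (f' : ℕ → A.toNTM.Cfg)
    (h : A.toNTM.AccComp x n f) (h' : A.toNTM.AccComp x n' f') :
    n = n' ∧ ∀ i ≤ n, f i = f' i := by
  have key : ∀ (n : ℕ) (f : ℕ → A.toNTM.Cfg), A.toNTM.AccComp x n f →
      ∃ v : ℕ → ℕ → Bool, v n = (fun _ => false) ∧ (∀ i ≤ n, v i 0 = (f i).state.2) ∧
        (∀ i < n, A.step x (A.ofN (f i) (v i)) = some (A.ofN (f (i + 1)) (v (i + 1)))) ∧
        A.ofN (f 0) (v 0) = A.init (v 0) ∧ v 0 0 = false ∧
        (∀ i ≤ n, A.Reach x (v 0) (A.ofN (f i) (v i))) ∧
        A.step x (A.ofN (f n) (v n)) = none ∧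
        A.accept (A.ofN (f n) (v n)).state (A.ofN (f n) (v n)).read := by
    rintro n f ⟨h0, h1, h2, h3, h4⟩
    obtain ⟨v, g1, g2, g3⟩ := A.exists_path n f h1 (fun _ => false) h4.symm
    have g4 : A.ofN (f 0) (v 0) = A.init (v 0) := by
      rw [h0]
      rfl
    have g5 : v 0 0 = false := by
      rw [g2 0 (Nat.zero_le _), h0]
      rfl
    refine ⟨v, g1, g2, g3, g4, g5, fun i hi => ?_, ?_, h3⟩
    · induction i with
      | zero =>
        rw [g4]
        exact Reach.start
      | succ i ih => exact Reach.step _ _ (ih (by omega)) (g3 i (by omega))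
    · rw [A.halt_iff, A.toN_ofN _ _ (g2 n le_rfl)]
      exact h2
  obtain ⟨v, a1, a2, a3, a4, a5, a6, a7, a8⟩ := key n f h
  obtain ⟨v', b1, b2, b3, b4, b5, b6, b7, b8⟩ := key n' f' h'
  have hw : v 0 = v' 0 := hU _ _ _ _ a5 b5 (a6 n le_rfl) (b6 n' le_rfl) a7 b7 a8 b8 a1 b1
  have heq : ∀ i, i ≤ n → i ≤ n' → A.ofN (f i) (v i) = A.ofN (f' i) (v' i) := by
    intro i
    induction i with
    | zero =>
      intro _ _
      rw [a4, b4, hw]
    | succ i ih =>
      intro hi hi'
      have h1 := a3 i (by omega)
      rw [ih (by omega) (by omega), b3 i (by omega), Option.some.injEq] at h1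
      exact h1.symm
  have hn : n = n' := by
    rcases Nat.lt_trichotomy n n' with hlt | heq' | hlt
    · have h1 := heq n le_rfl hlt.le
      have h2 := b3 n hlt
      rw [← h1, a7] at h2
      exact absurd h2 (by simp)
    · exact heq'
    · have h1 := heq n' hlt.le le_rfl
      have h2 := a3 n' hlt
      rw [h1, b7] at h2
      exact absurd h2 (by simp)
  refine ⟨hn, fun i hi => ?_⟩
  have h1 := heq i hi (by omega)
  rw [← A.toN_ofN (f i) (v i) (a2 i hi), ← A.toN_ofN (f' i) (v' i) (b2 i (by omega)), h1]

theorem spaceOn_iff (x : List α) (s : ℕ) : A.toNTM.SpaceOn x s ↔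
    ∀ (w : ℕ → Bool) (c : A.Cfg), w 0 = false → A.Reach x w c → ∀ j, c.head j < s := by
  constructor
  · intro h w c h0 h1 j
    exact h _ (Reach.toN A h0 h1) j
  · intro h d hd j
    obtain ⟨w, h1, h2⟩ := Reach.ofN A hd (fun _ => d.state.2) rfl
    exact h w _ h1 h2 j

/-! ### Infinite computations -/

/-- The bits which are seen in a computation. -/
theorem exists_bits {x : List α} (f : ℕ → A.toNTM.Cfg)
    (hf : ∀ i, A.toNTM.Step x (f i) (f (i + 1))) : ∃ v : ℕ → ℕ → Bool,
      (∀ i, v i 0 = (f i).state.2) ∧
      ∀ i, A.step x (A.ofN (f i) (v i)) = some (A.ofN (f (i + 1)) (v (i + 1))) := by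
  classical
  -- the moves
  choose r hr hr' using hf
  choose s hs h1 h2 h3 using hr
  -- `adv i` says whether the step `i` goes to the next bit
  have hb : ∀ i, (s i).2.1 = false → (f (i + 1)).state.2 = (f i).state.2 := by
    intro i hi
    have e : (f (i + 1)).state = (r i).1 := by rw [hr' i]
    rw [e]
    exact h2 i hi
  -- if there is a later step which goes to the next bit, take the first such step
  let nx : ℕ → Option ℕ := fun i =>
    if h : ∃ k, (s (i + k)).2.1 = true then some (i + Nat.find h + 1) else none
  let it : ℕ → ℕ → Option ℕ := fun i k => (fun o => o.bind nx)^[k] (some i)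
  let v : ℕ → ℕ → Bool := fun i k => match it i k with
    | some j => (f j).state.2
    | none => false
  have hv0 : ∀ i, v i 0 = (f i).state.2 := fun i => rfl
  have hit : ∀ i k, it i (k + 1) = match nx i with
      | some j => it j k
      | none => none := by
    intro i k
    have e : it i (k + 1) = (fun o => o.bind nx)^[k] ((some i).bind nx) := by
      simp only [it, Function.iterate_succ, Function.comp]
    rw [e]
    change (fun o => o.bind nx)^[k] (nx i) = _
    cases nx i with
    | some j => rfl
    | none =>
      have : ∀ k, (fun o : Option ℕ => o.bind nx)^[k] none = none := by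
        intro k
        induction k with
        | zero => rfl
        | succ k ih => rw [Function.iterate_succ, Function.comp]; exact ih
      simp only [this]
  have hnx1 : ∀ i, (s i).2.1 = true → nx i = some (i + 1) := by
    intro i hi
    have h : ∃ k, (s (i + k)).2.1 = true := ⟨0, hi⟩
    have e : Nat.find h = 0 := by
      rw [Nat.find_eq_zero]
      exact hi
    simp only [nx, dif_pos h, e, Nat.add_zero]
  have hnx0 : ∀ i, (s i).2.1 = false → nx i = nx (i + 1) := by
    intro i hi
    by_cases h : ∃ k, (s (i + k)).2.1 = true
    · have h' : ∃ k, (s (i + 1 + k)).2.1 = true := by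
        obtain ⟨k, hk⟩ := h
        cases k with
        | zero => rw [Nat.add_zero, hi] at hk; exact absurd hk (by simp)
        | succ k => exact ⟨k, by rw [← hk]; congr 3; omega⟩
      have e : Nat.find h = Nat.find h' + 1 := by
        rw [Nat.find_eq_iff]
        refine ⟨?_, fun m hm => ?_⟩
        · have h4 := Nat.find_spec h'
          rwa [show i + 1 + Nat.find h' = i + (Nat.find h' + 1) by omega] at h4
        · cases m with
          | zero => rw [Nat.add_zero, hi]; simp
          | succ m =>
            have h4 := Nat.find_min h' (by omega : m < Nat.find h')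
            intro h5
            apply h4
            rw [← h5]
            congr 3
            omega
      simp only [nx, dif_pos h, dif_pos h', e]
      congr 1
      omega
    · have h' : ¬∃ k, (s (i + 1 + k)).2.1 = true := by
        rintro ⟨k, hk⟩
        exact h ⟨k + 1, by rw [← hk]; congr 3; omega⟩
      simp only [nx, dif_neg h, dif_neg h']
  have hsh : ∀ i, (s i).2.1 = true → shift (v i) = v (i + 1) := by
    intro i hi
    funext k
    change v i (k + 1) = _
    simp only [v, hit, hnx1 i hi]
  have hst : ∀ i, (s i).2.1 = false → v i = v (i + 1) := by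
    intro i hi
    funext k
    cases k with
    | zero => rw [hv0, hv0, hb i hi]
    | succ k => simp only [v, hit, hnx0 i hi]
  refine ⟨v, hv0, fun i => ?_⟩
  unfold step
  have e : A.next (A.ofN (f i) (v i)).state ((A.ofN (f i) (v i)).bits 0)
      (cell x (A.ofN (f i) (v i)).pos) (A.ofN (f i) (v i)).read = some (s i) := hs i
  rw [e, Option.map_some]
  congr 1
  have e2 : A.ofN (f (i + 1)) (v (i + 1)) =
      { state := (r i).1.1
        pos := (r i).2.1.apply x.length (f i).pos
        head := fun j => NTM.wmove ((r i).2.2 j).2 ((f i).head j)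
        tape := fun j => Function.update ((f i).tape j) ((f i).head j) ((r i).2.2 j).1
        bits := v (i + 1) } := by
    rw [hr' i]
    rfl
  rw [e2, h1 i, h3 i]
  cases hsi : (s i).2.1 with
  | true =>
    rw [← hsh i hsi]
    rfl
  | false =>
    rw [← hst i hsi]
    rfl

/-- If all runs with given bits are finite, then all computations of the nondeterministic machine
are finite. -/
theorem no_inf {x : List α} (h : ∀ w : ℕ → Bool, w 0 = false →
    ∃ c : A.Cfg, A.Reach x w c ∧ A.step x c = none) :
    ¬∃ f : ℕ → A.toNTM.Cfg, f 0 = A.toNTM.init ∧ ∀ i, A.toNTM.Step x (f i) (f (i + 1)) := by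
  rintro ⟨f, h0, hf⟩
  obtain ⟨v, hv0, hv⟩ := A.exists_bits f hf
  have hinit : A.ofN (f 0) (v 0) = A.init (v 0) := by
    rw [h0]
    rfl
  have hw : v 0 0 = false := by
    rw [hv0, h0]
    rfl
  obtain ⟨c, h1, h2⟩ := h (v 0) hw
  have key : ∀ c, A.Reach x (v 0) c → ∃ i, c = A.ofN (f i) (v i) := by
    intro c hc
    induction hc with
    | start => exact ⟨0, hinit.symm⟩
    | step c c' _ h' ih =>
      obtain ⟨i, rfl⟩ := ih
      refine ⟨i + 1, ?_⟩
      rw [hv, Option.some.injEq] at h'
      exact h'.symm
  obtain ⟨i, rfl⟩ := key c h1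
  rw [hv] at h2
  exact absurd h2 (by simp)

end BM

end NC

end Pool.Agent.Lib.MP_9277c3_lc
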