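import Pool.Agent.Lib.MP_9277c3_lc.NC.NTM

/-!
# The time of a nondeterministic Turing machine
-/

namespace Pool.Agent.Lib.MP_9277c3_lc

/-- The machine works in time `t`: on each input of length `n` every computation has at most `t n`
steps. -/
def NTM.TimeIn {α : Type} (A : NTM α) (t : ℕ → ℕ) : Prop :=
  ∀ (x : List α) (m : ℕ) (f : ℕ → A.Cfg), f 0 = A.init →
    (∀ i < m, A.Step x (f i) (f (i + 1))) → m ≤ t x.length

end Pool.Agent.Lib.MP_9277c3_lc
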